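import Pool.Agent.H895R2.SY.Defs

/-! Task ABS: conclusion of part II. -/

namespace Pool.Agent.H895R2.SY

open MeasureTheory Module Set Filter Topology Metric
open scoped ENNReal NNReal
open Pool.Agent.Results.MP_b62b68_gt.NoSymmetrization

theorem ABS_pI_nonneg {u : ℝ} (h : 0 ≤ u) : pI u = 4 / 3 * u := by
  unfold pI
  exact max_eq_right (by linarith)

theorem ABS_pI_nonpos {u : ℝ} (h : u ≤ 0) : pI u = 3 / 4 * u := by
  unfold pI
  exact max_eq_left (by linarith)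

theorem ABS_pJ_nonneg {u : ℝ} (h : 0 ≤ u) : pJ u = 4 / 3 * u := by
  unfold pJ
  exact max_eq_right (by linarith)

theorem ABS_pI_le_pJ (u : ℝ) : pI u ≤ pJ u := by
  rcases le_total 0 u with h | h
  · rw [ABS_pI_nonneg h, ABS_pJ_nonneg h]
  · rw [ABS_pI_nonpos h]
    have : (0 : ℝ) ≤ pJ u := le_max_left _ _
    linarith

theorem ABS_pJ_le {u : ℝ} (h : u ≤ 5 / 4) : pJ u ≤ 5 / 3 := by
  unfold pJ
  exact max_le (by norm_num) (by linarith)

theorem ABS_ph_lower {d : ℕ} {r : ℝ} (hr : 3 / 4 ≤ r) {x : X d} (hx : ‖x‖ ≤ 2) :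
    4 / 3 ≤ ph pJ r x := by
  unfold ph
  have := ABS_pJ_le (u := ‖x‖ - r) (by linarith)
  linarith

theorem ABS_ph_le {d : ℕ} (r : ℝ) (x : X d) : ph pJ r x ≤ ph pI r x := by
  unfold ph
  have := ABS_pI_le_pJ (‖x‖ - r)
  linarith

theorem ABS_ph_three {d : ℕ} (r : ℝ) (x : X d) : ph pJ r x ≤ 3 := by
  unfold ph
  have : (0 : ℝ) ≤ pJ (‖x‖ - r) := le_max_left _ _
  linarith

theorem ABS_ph_bdI {d : ℕ} {e : ℝ} (h0 : 0 < e) (h1 : e < 1 / 4) {x : X d} (hx : ‖x‖ = 2) :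
    ph pI (1 + e) x + ph pI (1 - e) x = 10 / 3 := by
  unfold ph
  rw [hx, ABS_pI_nonneg (by linarith), ABS_pI_nonneg (by linarith)]
  ring

theorem ABS_ph_bdJ {d : ℕ} {e : ℝ} (h0 : 0 < e) (h1 : e < 1 / 4) {x : X d} (hx : ‖x‖ = 2) :
    ph pJ (1 + e) x + ph pJ (1 - e) x = 10 / 3 := by
  unfold ph
  rw [hx, ABS_pJ_nonneg (by linarith), ABS_pJ_nonneg (by linarith)]
  ring

theorem ABS_ph_one {d : ℕ} {x : X d} (hx : ‖x‖ = 2) : ph pI 1 x = 5 / 3 := by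
  unfold ph
  rw [hx, ABS_pI_nonneg (by norm_num)]
  norm_num

theorem ABS_mid {d : ℕ} {e : ℝ} (h0 : 0 < e) {x : X d} (hx : ‖x‖ ≤ 1 - e ∨ 1 + e ≤ ‖x‖) :
    (ph pI (1 + e) x + ph pI (1 - e) x) / 2 = ph pI 1 x := by
  unfold ph
  rcases hx with h | h
  · rw [ABS_pI_nonpos (by linarith), ABS_pI_nonpos (by linarith), ABS_pI_nonpos (by linarith)]
    ring
  · rw [ABS_pI_nonneg (by linarith), ABS_pI_nonneg (by linarith), ABS_pI_nonneg (by linarith)]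
    ring

theorem ABS_Sg_congr {d : ℕ} {f g f' g' : X d → ℝ} (hf : ∀ x : X d, ‖x‖ ≤ 2 → f x = f' x)
    (hg : ∀ x : X d, ‖x‖ ≤ 2 → g x = g' x) : Sg f g = Sg f' g' := by
  ext p
  unfold Sg
  constructor
  · rintro ⟨h1, h2, h3⟩
    exact ⟨h1, by rw [← hg _ h1]; exact h2, by rw [← hf _ h1]; exact h3⟩
  · rintro ⟨h1, h2, h3⟩
    exact ⟨h1, by rw [hg _ h1]; exact h2, by rw [hf _ h1]; exact h3⟩

theorem ABS_Sg_mono {d : ℕ} {f g f' g' : X d → ℝ} (hf : ∀ x : X d, f x ≤ f' x)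
    (hg : ∀ x : X d, g x ≤ g' x) : Sg f g ⊆ Sg f' g' := by
  rintro p ⟨h1, h2, h3⟩
  exact ⟨h1, (neg_le_neg (hg _)).trans h2, h3.trans (hf _)⟩

theorem ABS_Sg_symm {d : ℕ} (f : X d → ℝ) : Sy (Sg f f) := by
  rintro x s ⟨h1, h2, h3⟩
  refine ⟨h1, ?_, ?_⟩
  · show -f x ≤ -s
    exact neg_le_neg h3
  · show -s ≤ f x
    exact neg_le.1 h2

theorem t_ABS (h1 : S_STEIN) (h2 : S_INC) (h3 : S_CDEF) (h4 : S_CLIP) (h5 : S_PHADM)
    (h6 : S_PADM) (h7 : S_SGNC) : S_ABS := by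
  intro d W T hW hT e he0 he1
  obtain ⟨⟨pI1, pI2, pI3⟩, ⟨pJ1, pJ2, pJ3⟩, -⟩ := h6
  have aI : ∀ r : ℝ, Adm (ph (d := d) pI r) := fun r => h5 d pI r pI1 pI2 pI3
  have aJ : ∀ r : ℝ, Adm (ph (d := d) pJ r) := fun r => h5 d pJ r pJ1 pJ2 pJ3
  have pos : ∀ r : ℝ, 3 / 4 ≤ r → ∀ x : X d, ‖x‖ ≤ 2 → 4 / 3 ≤ ph pI r x := fun r hr x hx =>
    (ABS_ph_lower hr hx).trans (ABS_ph_le r x)
  have pairI : Pair (ph (d := d) pI (1 + e)) (ph pI (1 - e)) := by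
    refine ⟨aI _, aI _, fun x hx => ?_⟩
    have e1 := pos (1 + e) (by linarith) x hx
    have e2 := pos (1 - e) (by linarith) x hx
    linarith
  have pairJ : Pair (ph (d := d) pJ (1 + e)) (ph pJ (1 - e)) := by
    refine ⟨aJ _, aJ _, fun x hx => ?_⟩
    have e1 := ABS_ph_lower (r := 1 + e) (by linarith) hx
    have e2 := ABS_ph_lower (r := 1 - e) (by linarith) hx
    linarith
  have ncI := h7 d _ _ pairI
  have ncJ := h7 d _ _ pairJ
  -- the set `N`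
  obtain ⟨c, c1, c2, c3, c4⟩ := h3 d e (T (Sg (ph pI (1 + e)) (ph pI (1 - e)))) he0 he1
    (hT.compact _ ncI) (hT.convex _ ncI) (hT.symm _ ncI) (h2 d W T hW hT e he0 he1)
    (fun x hx hx' => by
      have := h1 d W T hW hT _ _ pairI (fun x hx => by
        have e1 := pos (1 + e) (by linarith) x hx
        have e2 := pos (1 - e) (by linarith) x hx
        linarith) x hx
      rwa [ABS_mid he0 hx'] at this)
  obtain ⟨K, hK⟩ := h4 d e c he0 he1 c1 (fun x hx1 hx2 => c3 x hx2 (Or.inr hx1))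
  obtain ⟨c', hc', hcc⟩ := hK.extend_real
  have hcc' : ∀ x : X d, ‖x‖ ≤ 2 → c x = c' x := fun x hx =>
    hcc (mem_closedBall_zero_iff.2 hx)
  have adm : Adm c' := ⟨c1.congr hcc, K, hc'⟩
  have bd : ∀ x : X d, ‖x‖ ≤ 2 → 0 ≤ c' x ∧ c' x ≤ ph pI 1 x := fun x hx => by
    rw [← hcc' x hx]; exact c2 x hx
  have eq : ∀ x : X d, ‖x‖ ≤ 2 → (‖x‖ ≤ 1 - e ∨ 1 + e ≤ ‖x‖) → c' x = ph pI 1 x :=
    fun x hx hx' => by rw [← hcc' x hx]; exact c3 x hx hx'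
  have c4' : T (Sg (ph pI (1 + e)) (ph pI (1 - e))) = Sg c' c' := by
    rw [c4]; exact ABS_Sg_congr hcc' hcc'
  have c'2 : ∀ x : X d, ‖x‖ = 2 → c' x = 5 / 3 := fun x hx => by
    rw [eq x hx.le (Or.inr (by linarith)), ABS_ph_one hx]
  have pairC : Pair c' c' := ⟨adm, adm, fun x hx => by
    have := (bd x hx).1
    linarith⟩
  obtain ⟨C, C0, C1, hgd⟩ := hW.gd
  have finI : W (Sg (ph pI (1 + e)) (ph pI (1 - e))) ≠ ∞ := (hW.fin _ ncI.1.isBounded).ne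
  have finJ : W (Sg (ph pJ (1 + e)) (ph pJ (1 - e))) ≠ ∞ := (hW.fin _ ncJ.1.isBounded).ne
  refine ⟨c', adm, bd, eq, ?_, ?_⟩
  · -- area of `c`
    have g := hgd c' c' (ph pI (1 + e)) (ph pI (1 - e)) pairC pairI (fun x hx => by
      rw [c'2 x hx, ABS_ph_bdI he0 he1 hx]; norm_num)
    rw [← c4', hT.pres _ ncI] at g
    have g' := (ENNReal.add_right_inj finI).1 g
    have g'' := (ENNReal.mul_right_inj C0 C1).1 g'
    rw [g'', two_mul]
  · -- area of `min c 3`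
    have adm3 : Adm (fun _ : X d => (3 : ℝ)) :=
      ⟨concaveOn_const _ (convex_closedBall _ _), 0, LipschitzWith.const _⟩
    have pair3 : Pair (fun _ : X d => (3 : ℝ)) (fun _ => 3) :=
      ⟨adm3, adm3, fun x _ => by norm_num⟩
    have nc3 := h7 d _ _ pair3
    have admM : Adm (fun x => min (c' x) 3) :=
      ⟨adm.conc.inf adm3.conc, K, hc'.min_const 3⟩
    have pairM : Pair (fun x => min (c' x) 3) (fun x => min (c' x) 3) :=
      ⟨admM, admM, fun x hx => by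
        have : 0 ≤ min (c' x) 3 := le_min (bd x hx).1 (by norm_num)
        linarith⟩
    have s1 : T (Sg (ph pJ (1 + e)) (ph pJ (1 - e))) ⊆ Sg c' c' := by
      rw [← c4']
      exact hT.mono _ _ ncJ ncI (ABS_Sg_mono (ABS_ph_le _) (ABS_ph_le _))
    have s2 : T (Sg (ph pJ (1 + e)) (ph pJ (1 - e))) ⊆ Sg (fun _ => 3) (fun _ => 3) := by
      have := hT.inv _ nc3 (ABS_Sg_symm _)
      rw [← this]
      exact hT.mono _ _ ncJ nc3 (ABS_Sg_mono (ABS_ph_three _) (ABS_ph_three _))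
    have s3 : T (Sg (ph pJ (1 + e)) (ph pJ (1 - e))) ⊆
        Sg (fun x => min (c' x) 3) (fun x => min (c' x) 3) := by
      intro p hp
      obtain ⟨a1, a2, a3⟩ := s1 hp
      obtain ⟨b1, b2, b3⟩ := s2 hp
      refine ⟨a1, ?_, le_min a3 b3⟩
      show -(min (c' p.1) 3) ≤ p.2
      rw [neg_le]
      exact le_min (neg_le.1 a2) (neg_le.1 b2)
    have s4 : W (Sg (ph pJ (1 + e)) (ph pJ (1 - e))) ≤
        W (Sg (fun x => min (c' x) 3) (fun x => min (c' x) 3)) := by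
      rw [← hT.pres _ ncJ]
      exact hW.mono _ _ s3
    have g := hgd (fun x => min (c' x) 3) (fun x => min (c' x) 3) (ph pJ (1 + e))
      (ph pJ (1 - e)) pairM pairJ (fun x hx => by
        rw [c'2 x hx, ABS_ph_bdJ he0 he1 hx, min_eq_left (by norm_num)]; norm_num)
    have g1 : W (Sg (ph pJ (1 + e)) (ph pJ (1 - e))) +
        C * (Ar (ph (d := d) pJ (1 + e)) + Ar (ph (d := d) pJ (1 - e))) ≤
        W (Sg (ph pJ (1 + e)) (ph pJ (1 - e))) +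
        C * (Ar (fun x => min (c' x) 3) + Ar (fun x => min (c' x) 3)) := by
      rw [← g]
      gcongr
    have g2 := (ENNReal.add_le_add_iff_left finJ).1 g1
    rw [two_mul]
    exact (ENNReal.mul_le_mul_iff_right C0 C1).1 g2

end Pool.Agent.H895R2.SY
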