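import Pool.Agent.H895R2.SY.Defs

/-! Task ANA (helper355): conclusion of part III. -/

set_option linter.unusedVariables false

namespace Pool.Agent.H895R2.SY

open MeasureTheory Module Set Filter Topology Metric
open scoped ENNReal NNReal
open Pool.Agent.Results.MP_b62b68_gt.NoSymmetrization

theorem ana_pow (m : ℕ) (hm : 1 ≤ m) (e : ℝ) (he : 0 < e) (he1 : e < 1 / 4) :
    2 < (1 + e) ^ (m + 1) + (1 - e) ^ (m + 1) := by
  have h1 : 1 + (m : ℝ) * e ≤ (1 + e) ^ m := one_add_mul_le_pow (by linarith) m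
  have h2 : 1 + ((m + 1 : ℕ) : ℝ) * (-e) ≤ (1 + -e) ^ (m + 1) :=
    one_add_mul_le_pow (by linarith) (m + 1)
  have hm1 : (1 : ℝ) ≤ m := by exact_mod_cast hm
  have h3 : (1 + e) * (1 + (m : ℝ) * e) ≤ (1 + e) ^ (m + 1) := by
    rw [pow_succ, mul_comm]
    gcongr
  have h4 : 0 < (m : ℝ) * e * e := by positivity
  rw [← sub_eq_add_neg] at h2
  push_cast at h2
  nlinarith

theorem ana_real (m : ℕ) (hm : 1 ≤ m) (e B1 B2 v a a3 G I : ℝ) (he : 0 < e) (he1 : e < 1 / 4)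
    (hB1 : 0 ≤ B1) (hB2 : 0 < B2) (hB : 4 * B1 < 5 * B2) (hv : 0 < v)
    (hray : (B2 * ((5 / 4 + 5 / 3 * (2 ^ (m + 1) - 1)) / (m + 1)) +
      4 / 3 * B1 * (1 / 4 / (m + 1))) * ((m + 1) * v) ≤ B2 * I + 4 / 3 * B1 * G)
    (hI : I ≤ a) (hG : a3 + G ≤ a)
    (h1 : 2 * a ≤ (5 / 4 * (1 + e) ^ (m + 1) + 5 / 3 * (2 ^ (m + 1) - (1 + e) ^ (m + 1))) * v +
      (5 / 4 * (1 - e) ^ (m + 1) + 5 / 3 * (2 ^ (m + 1) - (1 - e) ^ (m + 1))) * v)
    (h2 : ((1 + e) ^ (m + 1) + 5 / 3 * (2 ^ (m + 1) - (1 + e) ^ (m + 1))) * v +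
      ((1 - e) ^ (m + 1) + 5 / 3 * (2 ^ (m + 1) - (1 - e) ^ (m + 1))) * v ≤ 2 * a3) : False := by
  have hA := ana_pow m hm e he he1
  set P := (1 + e) ^ (m + 1) with hP
  set Q := (1 - e) ^ (m + 1) with hQ
  set R : ℝ := 2 ^ (m + 1) with hR
  have hm1 : (0 : ℝ) < (m : ℝ) + 1 := by positivity
  have e1 : (B2 * ((5 / 4 + 5 / 3 * (R - 1)) / (m + 1)) +
      4 / 3 * B1 * (1 / 4 / (m + 1))) * ((m + 1) * v) =
      (B2 * (5 / 4 + 5 / 3 * (R - 1)) + B1 / 3) * v := by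
    field_simp
  rw [e1] at hray
  have h3 : a ≤ v * (5 / 4 * ((P + Q) / 2) + 5 / 3 * (R - (P + Q) / 2)) := by linarith
  have h4 : a - a3 ≤ v * ((P + Q) / 2) / 4 := by linarith
  have h5 : B2 * I + 4 / 3 * B1 * G ≤
      B2 * (v * (5 / 4 * ((P + Q) / 2) + 5 / 3 * (R - (P + Q) / 2))) +
        4 / 3 * B1 * (v * ((P + Q) / 2) / 4) := by
    have h6 : I ≤ v * (5 / 4 * ((P + Q) / 2) + 5 / 3 * (R - (P + Q) / 2)) := hI.trans h3
    have h7 : G ≤ v * ((P + Q) / 2) / 4 := by linarith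
    have h8 := mul_le_mul_of_nonneg_left h6 hB2.le
    have h9 := mul_le_mul_of_nonneg_left h7 (show 0 ≤ 4 / 3 * B1 by positivity)
    linarith
  have h6 := hray.trans h5
  have h7 : 0 ≤ v * (((P + Q) / 2 - 1) * (B1 / 3 - 5 / 12 * B2)) := by nlinarith
  have h8 : (P + Q) / 2 - 1 > 0 := by linarith
  have h9 : B1 / 3 - 5 / 12 * B2 < 0 := by linarith
  have h10 : v * (((P + Q) / 2 - 1) * (B1 / 3 - 5 / 12 * B2)) < 0 :=
    mul_neg_of_pos_of_neg hv (mul_neg_of_pos_of_neg h8 h9)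
  linarith

theorem t_ANA (h1 : S_ARITH) (h2 : S_ARF) (h3 : S_MEAS) (h4 : S_R12) (h5 : S_RAYC) : S_ANA := by
  intro m hm
  obtain ⟨e, he, he1, hb2, hb12⟩ := h1 m
  refine ⟨e, he, he1, fun c hc => ?_⟩
  have hb1 : 0 ≤ b1 m e := by
    unfold b1
    have h6 : 1 ≤ (1 + e) ^ m := one_le_pow₀ (by linarith)
    have h7 : (1 - e) ^ m ≤ 1 := pow_le_one₀ (by linarith) (by linarith)
    linarith
  set vol1 : ℝ≥0∞ := volume (ball (0 : X (m + 1)) 1) with hvol1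
  have hvfin : vol1 ≠ ∞ := measure_ball_lt_top.ne
  have hvpos : vol1 ≠ 0 := (measure_ball_pos _ _ one_pos).ne'
  set v : ℝ := vol1.toReal with hv
  have hv0 : 0 < v := ENNReal.toReal_pos hvpos hvfin
  -- finiteness
  obtain ⟨i1, j1⟩ := h2 m (1 + e) (by linarith) (by linarith)
  obtain ⟨i2, j2⟩ := h2 m (1 - e) (by linarith) (by linarith)
  have hAI := hc.areaI
  have hAJ := hc.areaJ
  rw [i1, i2] at hAI
  rw [j1, j2] at hAJ
  have hArfin : Ar c ≠ ∞ := by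
    intro h
    rw [h] at hAI
    have h6 : (2 : ℝ≥0∞) * ∞ = ∞ := ENNReal.mul_top (by norm_num)
    rw [h6, top_le_iff] at hAI
    exact absurd hAI (ENNReal.add_ne_top.2 ⟨ENNReal.ofReal_ne_top, ENNReal.ofReal_ne_top⟩)
  obtain ⟨mI, mG⟩ := h3 m c hc.adm.lip
  obtain ⟨rI1, rG1⟩ := h4 m c hc.adm.lip
  set μ := (volume : Measure (X (m + 1))).toSphere with hμ
  have hIfin : ∫⁻ θ, rI c θ ∂μ ≠ ∞ := ne_top_of_le_ne_top hArfin rI1
  have hA3fin : Ar (fun x => min (c x) 3) ≠ ∞ :=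
    ne_top_of_le_ne_top hArfin (le_trans le_self_add rG1)
  have hGfin : ∫⁻ θ, rG c θ ∂μ ≠ ∞ := ne_top_of_le_ne_top hArfin (le_trans le_add_self rG1)
  -- the integrated ray inequality
  have hray := h5 m e he he1 hb2.le c hc.adm hc.bd hc.eq
  set K0 : ℝ := b2 m e * ((5 / 4 + 5 / 3 * (2 ^ (m + 1) - 1)) / (m + 1)) +
      4 / 3 * b1 m e * (1 / 4 / (m + 1)) with hK0
  have hK0n : 0 ≤ K0 := by
    have h6 : (1 : ℝ) ≤ 2 ^ (m + 1) := one_le_pow₀ (by norm_num)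
    have h7 : (0 : ℝ) ≤ 5 / 4 + 5 / 3 * (2 ^ (m + 1) - 1) := by linarith
    positivity
  have hint : ENNReal.ofReal K0 * μ univ ≤
      ENNReal.ofReal (b2 m e) * ∫⁻ θ, rI c θ ∂μ +
        ENNReal.ofReal (4 / 3 * b1 m e) * ∫⁻ θ, rG c θ ∂μ := by
    calc ENNReal.ofReal K0 * μ univ = ∫⁻ _θ, ENNReal.ofReal K0 ∂μ := by
          rw [lintegral_const]
      _ ≤ ∫⁻ θ, (ENNReal.ofReal (b2 m e) * rI c θ + ENNReal.ofReal (4 / 3 * b1 m e) * rG c θ) ∂μ :=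
          lintegral_mono_ae hray
      _ = _ := by
          rw [lintegral_add_left (mI.const_mul _), lintegral_const_mul _ mI,
            lintegral_const_mul _ mG]
  have hsph : μ univ = ((m + 1 : ℕ) : ℝ≥0∞) * vol1 := by
    rw [hμ, Measure.toSphere_apply_univ, finrank_euclideanSpace, Fintype.card_fin]
  have hreal : K0 * ((m + 1) * v) ≤ b2 m e * (∫⁻ θ, rI c θ ∂μ).toReal +
      4 / 3 * b1 m e * (∫⁻ θ, rG c θ ∂μ).toReal := by
    have h6 := ENNReal.toReal_mono (ENNReal.add_ne_top.2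
      ⟨ENNReal.mul_ne_top ENNReal.ofReal_ne_top hIfin,
        ENNReal.mul_ne_top ENNReal.ofReal_ne_top hGfin⟩) hint
    rw [hsph, ENNReal.toReal_add (ENNReal.mul_ne_top ENNReal.ofReal_ne_top hIfin)
        (ENNReal.mul_ne_top ENNReal.ofReal_ne_top hGfin), ENNReal.toReal_mul,
      ENNReal.toReal_mul, ENNReal.toReal_mul, ENNReal.toReal_mul, ENNReal.toReal_ofReal hK0n,
      ENNReal.toReal_ofReal hb2.le, ENNReal.toReal_ofReal (by positivity),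
      ENNReal.toReal_natCast] at h6
    push_cast at h6
    exact h6
  have hIa : (∫⁻ θ, rI c θ ∂μ).toReal ≤ (Ar c).toReal := ENNReal.toReal_mono hArfin rI1
  have hGa : (Ar (fun x => min (c x) 3)).toReal + (∫⁻ θ, rG c θ ∂μ).toReal ≤ (Ar c).toReal := by
    rw [← ENNReal.toReal_add hA3fin hGfin]
    exact ENNReal.toReal_mono hArfin rG1
  have hp : ∀ r : ℝ, 0 ≤ r → r ≤ 2 → 0 ≤ (2 : ℝ) ^ (m + 1) - r ^ (m + 1) := by
    intro r hr hr2
    have := pow_le_pow_left₀ hr hr2 (m + 1)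
    linarith
  have hp1 := hp (1 + e) (by linarith) (by linarith)
  have hp2 := hp (1 - e) (by linarith) (by linarith)
  have hq1 : 0 ≤ (1 + e) ^ (m + 1) := pow_nonneg (by linarith) _
  have hq2 : 0 ≤ (1 - e) ^ (m + 1) := pow_nonneg (by linarith) _
  have hAI' : 2 * (Ar c).toReal ≤
      (5 / 4 * (1 + e) ^ (m + 1) + 5 / 3 * (2 ^ (m + 1) - (1 + e) ^ (m + 1))) * v +
      (5 / 4 * (1 - e) ^ (m + 1) + 5 / 3 * (2 ^ (m + 1) - (1 - e) ^ (m + 1))) * v := by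
    have h6 := ENNReal.toReal_mono (ENNReal.add_ne_top.2
      ⟨ENNReal.ofReal_ne_top, ENNReal.ofReal_ne_top⟩) hAI
    rw [ENNReal.toReal_mul, ENNReal.toReal_add ENNReal.ofReal_ne_top ENNReal.ofReal_ne_top,
      ENNReal.toReal_ofReal (by positivity), ENNReal.toReal_ofReal (by positivity)] at h6
    simpa using h6
  have hAJ' : ((1 + e) ^ (m + 1) + 5 / 3 * (2 ^ (m + 1) - (1 + e) ^ (m + 1))) * v +
      ((1 - e) ^ (m + 1) + 5 / 3 * (2 ^ (m + 1) - (1 - e) ^ (m + 1))) * v ≤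
      2 * (Ar (fun x => min (c x) 3)).toReal := by
    have h6 := ENNReal.toReal_mono (ENNReal.mul_ne_top (by norm_num) hA3fin) hAJ
    rw [ENNReal.toReal_mul, ENNReal.toReal_add ENNReal.ofReal_ne_top ENNReal.ofReal_ne_top,
      ENNReal.toReal_ofReal (by positivity), ENNReal.toReal_ofReal (by positivity)] at h6
    simpa using h6
  exact ana_real m hm e (b1 m e) (b2 m e) v _ _ _ _ he he1 hb1 hb2 hb12 hv0 hreal hIa hGa hAI' hAJ'

end Pool.Agent.H895R2.SY
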