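import Pool.Agent.H895R2.SY.Defs

namespace Pool.Agent.H895R2.SY

open MeasureTheory Module Set Filter Topology Metric
open scoped ENNReal NNReal

theorem arf_gen (m : ℕ) (r : ℝ) (hr : 0 < r) (hr2 : r < 2) (a c : ℝ) (ha : 0 ≤ a) (hc : 0 ≤ c)
    (F : X (m + 1) → ℝ≥0∞)
    (h1 : ∀ x, x ≠ 0 → ‖x‖ < r → F x = ENNReal.ofReal a)
    (h2 : ∀ x, r < ‖x‖ → F x = ENNReal.ofReal c) :
    ∫⁻ x in ball (0 : X (m + 1)) 2, F x =
      ENNReal.ofReal ((a * r ^ (m + 1) + c * (2 ^ (m + 1) - r ^ (m + 1))) *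
        (volume (ball (0 : X (m + 1)) 1)).toReal) := by
  have hsub : ball (0 : X (m + 1)) r ⊆ ball 0 2 := ball_subset_ball hr2.le
  have hU : ball (0 : X (m + 1)) 2 = ball 0 r ∪ (ball 0 2 \ ball 0 r) := by
    rw [Set.union_sdiff_cancel hsub]
  have hvol : ∀ s : ℝ, 0 < s → volume (ball (0 : X (m + 1)) s) =
      ENNReal.ofReal (s ^ (m + 1)) * volume (ball (0 : X (m + 1)) 1) := by
    intro s hs
    rw [Measure.addHaar_ball_of_pos _ _ hs]
    simp
  have hfin : volume (ball (0 : X (m + 1)) 1) ≠ ∞ := measure_ball_lt_top.ne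
  have hfinr : volume (ball (0 : X (m + 1)) r) ≠ ∞ := measure_ball_lt_top.ne
  obtain ⟨V, hV, hv1⟩ : ∃ V : ℝ, 0 ≤ V ∧ volume (ball (0 : X (m + 1)) 1) = ENNReal.ofReal V :=
    ⟨_, ENNReal.toReal_nonneg, (ENNReal.ofReal_toReal hfin).symm⟩
  rw [hU, lintegral_union (measurableSet_ball.diff measurableSet_ball) disjoint_sdiff_self_right]
  have e1 : ∫⁻ x in ball (0 : X (m + 1)) r, F x = ∫⁻ x in ball (0 : X (m + 1)) r,
      ENNReal.ofReal a := by
    apply lintegral_congr_ae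
    rw [Filter.EventuallyEq, ae_restrict_iff' measurableSet_ball]
    have h0 : ∀ᵐ x : X (m + 1), x ≠ 0 := by
      rw [ae_iff]
      simp
    filter_upwards [h0] with x hx hxr
    exact h1 x hx (by simpa using hxr)
  have e2 : ∫⁻ x in ball (0 : X (m + 1)) 2 \ ball 0 r, F x =
      ∫⁻ x in ball (0 : X (m + 1)) 2 \ ball 0 r, ENNReal.ofReal c := by
    apply lintegral_congr_ae
    rw [Filter.EventuallyEq, ae_restrict_iff' (measurableSet_ball.diff measurableSet_ball)]
    have h0 : ∀ᵐ x : X (m + 1), x ∉ sphere (0 : X (m + 1)) r := by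
      rw [ae_iff]
      simp only [not_not, Set.ofPred_mem_eq]
      exact Measure.addHaar_sphere _ _ _
    filter_upwards [h0] with x hx hxr
    apply h2 x
    have h3 : ¬ ‖x‖ < r := by
      intro h
      exact hxr.2 (by simpa using h)
    have h4 : ‖x‖ ≠ r := by
      intro h
      exact hx (by simpa using h)
    exact lt_of_le_of_ne (not_lt.mp h3) (Ne.symm h4)
  rw [e1, e2, setLIntegral_const, setLIntegral_const,
    measure_sdiff hsub measurableSet_ball.nullMeasurableSet hfinr, hvol r hr, hvol 2 (by norm_num),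
    hv1, ENNReal.toReal_ofReal hV]
  have hrp : 0 ≤ r ^ (m + 1) := by positivity
  have hpow : r ^ (m + 1) ≤ 2 ^ (m + 1) := pow_le_pow_left₀ hr.le hr2.le _
  have h2p : (0 : ℝ) ≤ 2 ^ (m + 1) := by positivity
  rw [← ENNReal.ofReal_mul hrp, ← ENNReal.ofReal_mul h2p,
    ← ENNReal.ofReal_sub _ (by positivity), ← ENNReal.ofReal_mul ha, ← ENNReal.ofReal_mul hc,
    ← ENNReal.ofReal_add (by positivity)
      (mul_nonneg hc (sub_nonneg.2 (mul_le_mul_of_nonneg_right hpow hV)))]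
  congr 1
  ring

theorem arf_fd (m : ℕ) (p : ℝ → ℝ) (r p' : ℝ) (x : X (m + 1)) (hx : x ≠ 0)
    (hp : HasDerivAt p p' (‖x‖ - r)) : ‖fderiv ℝ (ph p r) x‖ = |p'| := by
  have hd : DifferentiableAt ℝ (fun y : X (m + 1) => ‖y‖) x :=
    (contDiffAt_norm ℝ hx (n := 1)).differentiableAt (by simp)
  have hn : HasFDerivAt (fun y : X (m + 1) => ‖y‖) (fderiv ℝ (fun y : X (m + 1) => ‖y‖) x) x :=
    hd.hasFDerivAt
  have h1 : HasFDerivAt (fun y : X (m + 1) => ‖y‖ - r)
      (fderiv ℝ (fun y : X (m + 1) => ‖y‖) x) x := hn.sub_const r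
  have h2 := hp.comp_hasFDerivAt x h1
  have h3 : HasFDerivAt (ph p r) (-(p' • fderiv ℝ (fun y : X (m + 1) => ‖y‖) x)) x := by
    exact h2.const_sub 3
  rw [h3.fderiv, norm_neg, norm_smul, norm_fderiv_norm hd, mul_one, Real.norm_eq_abs]

theorem arf_lin (k u : ℝ) : HasDerivAt (fun u : ℝ => k * u) k u := by
  simpa using (hasDerivAt_id u).const_mul k

theorem t_ARF : S_ARF := by
  intro m r hr hr2
  have s1 : √(1 + (3 / 4 : ℝ) ^ 2) = 5 / 4 := by
    rw [show (1 + (3 / 4 : ℝ) ^ 2) = (5 / 4) ^ 2 by norm_num]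
    exact Real.sqrt_sq (by norm_num)
  have s2 : √(1 + (4 / 3 : ℝ) ^ 2) = 5 / 3 := by
    rw [show (1 + (4 / 3 : ℝ) ^ 2) = (5 / 3) ^ 2 by norm_num]
    exact Real.sqrt_sq (by norm_num)
  have ne : ∀ x : X (m + 1), r < ‖x‖ → x ≠ 0 := by
    intro x hx h0
    rw [h0, norm_zero] at hx
    linarith
  -- derivative of the profiles
  have dI1 : ∀ u : ℝ, u < 0 → HasDerivAt pI (3 / 4) u := by
    intro u hu
    apply (arf_lin (3 / 4) u).congr_of_eventuallyEq
    filter_upwards [Iio_mem_nhds hu] with y hy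
    have hy' : y < 0 := hy
    unfold pI
    rw [max_eq_left (by linarith)]
  have dI2 : ∀ u : ℝ, 0 < u → HasDerivAt pI (4 / 3) u := by
    intro u hu
    apply (arf_lin (4 / 3) u).congr_of_eventuallyEq
    filter_upwards [Ioi_mem_nhds hu] with y hy
    have hy' : 0 < y := hy
    unfold pI
    rw [max_eq_right (by linarith)]
  have dJ1 : ∀ u : ℝ, u < 0 → HasDerivAt pJ 0 u := by
    intro u hu
    apply (hasDerivAt_const u (0 : ℝ)).congr_of_eventuallyEq
    filter_upwards [Iio_mem_nhds hu] with y hy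
    have hy' : y < 0 := hy
    unfold pJ
    rw [max_eq_left (by linarith)]
  have dJ2 : ∀ u : ℝ, 0 < u → HasDerivAt pJ (4 / 3) u := by
    intro u hu
    apply (arf_lin (4 / 3) u).congr_of_eventuallyEq
    filter_upwards [Ioi_mem_nhds hu] with y hy
    have hy' : 0 < y := hy
    unfold pJ
    rw [max_eq_right (by linarith)]
  constructor
  · unfold Ar
    apply arf_gen m r hr hr2 (5 / 4) (5 / 3) (by norm_num) (by norm_num)
    · intro x hx hxr
      rw [arf_fd m pI r (3 / 4) x hx (dI1 _ (by linarith)), sq_abs, s1]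
    · intro x hxr
      rw [arf_fd m pI r (4 / 3) x (ne x hxr) (dI2 _ (by linarith)), sq_abs, s2]
  · unfold Ar
    have := arf_gen m r hr hr2 1 (5 / 3) (by norm_num) (by norm_num)
      (fun x => ENNReal.ofReal (√(1 + ‖fderiv ℝ (ph (d := m + 1) pJ r) x‖ ^ 2))) ?_ ?_
    · rw [this, one_mul]
    · intro x hx hxr
      rw [arf_fd m pJ r 0 x hx (dJ1 _ (by linarith)), sq_abs]
      simp
    · intro x hxr
      rw [arf_fd m pJ r (4 / 3) x (ne x hxr) (dJ2 _ (by linarith)), sq_abs, s2]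

end Pool.Agent.H895R2.SY
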