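import Pool.Agent.H895R2.SY.Defs

set_option autoImplicit false

namespace Pool.Agent.H895R2.SY

open Filter Topology in
theorem t_ARITH : S_ARITH := by
  intro m
  have c1 : Continuous fun e : ℝ => b1 m e := by unfold b1; fun_prop
  have c2 : Continuous fun e : ℝ => b2 m e := by unfold b2; fun_prop
  have v1 : b1 m 0 = 1 / 5 := by simp [b1]; norm_num
  have v2 : b2 m 0 = 1 / 5 := by simp [b2]; norm_num
  have e1 : ∀ᶠ e in 𝓝 (0 : ℝ), 0 < b2 m e :=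
    c2.continuousAt.eventually_const_lt (by show (0 : ℝ) < b2 m 0; rw [v2]; norm_num)
  have e2 : ∀ᶠ e in 𝓝 (0 : ℝ), 0 < 5 * b2 m e - 4 * b1 m e :=
    ((continuous_const.mul c2).sub (continuous_const.mul c1)).continuousAt.eventually_const_lt
      (by show (0 : ℝ) < 5 * b2 m 0 - 4 * b1 m 0; rw [v1, v2]; norm_num)
  have e3 : ∀ᶠ e in 𝓝 (0 : ℝ), e < 1 / 4 :=
    eventually_lt_nhds (by norm_num)
  have e4 : ∀ᶠ e in 𝓝[>] (0 : ℝ), 0 < b2 m e ∧ 0 < 5 * b2 m e - 4 * b1 m e ∧ e < 1 / 4 :=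
    (e1.and (e2.and e3)).filter_mono nhdsWithin_le_nhds
  have e5 : ∀ᶠ e in 𝓝[>] (0 : ℝ), 0 < e := eventually_mem_nhdsWithin
  obtain ⟨e, ⟨h1, h2, h3⟩, h4⟩ := (e4.and e5).exists
  exact ⟨e, h4, h3, h1, by linarith⟩
end Pool.Agent.H895R2.SY
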