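import Pool.Agent.H895R2.SY.Defs

/-! Task AVG: averages of the Jacobians. -/

namespace Pool.Agent.H895R2.SY

open MeasureTheory Module Set Filter Topology Metric
open scoped ENNReal NNReal
open Pool.Agent.Results.MP_b62b68_gt.NoSymmetrization

theorem t_AVG (h1 : S_ISO) (h2 : S_GRV) : S_AVG := by
  intro n d hd Φ hΦ
  obtain ⟨C, hC0, hC1, hC⟩ := h1 n d hd
  refine ⟨C, hC0, hC1, fun ℓ => ?_⟩
  have h3 := h2 n d C hC Φ hΦ ℓ (closedBall 0 1)
  rw [V_eq hd] at h3
  have hv0 : volume (closedBall (0 : X d) 1) ≠ 0 :=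
    (measure_closedBall_pos volume (0 : X d) one_pos).ne'
  have hv1 : volume (closedBall (0 : X d) 1) ≠ ∞ := measure_closedBall_lt_top.ne
  have h4 : ∀ g : O n, volume (A n d hd g '' ((fun x => Φ (x, ℓ x)) '' closedBall 0 1)) =
      ENNReal.ofReal (JJ (Bg hd Φ g) ℓ) * volume (closedBall (0 : X d) 1) := by
    intro g
    have h5 : A n d hd g '' ((fun x => Φ (x, ℓ x)) '' closedBall 0 1) =
        (Bg hd Φ g ∘ₗ LinearMap.prod LinearMap.id (ℓ : X d →ₗ[ℝ] ℝ)) '' closedBall 0 1 := by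
      rw [image_image]
      rfl
    rw [h5, Measure.addHaar_image_linearMap]
    rfl
  simp only [h4] at h3
  rw [lintegral_mul_const' _ _ hv1, ← mul_assoc] at h3
  exact (ENNReal.mul_left_inj hv0 hv1).1 h3

end Pool.Agent.H895R2.SY
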