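import Pool.Agent.H895R2.SY.Defs

/-!
# Project SY (helper895), task CDEF

The top function of a symmetric compact convex set. Formalised by helper784.
-/

namespace Pool.Agent.H895R2.SY

open MeasureTheory Module Set Filter Topology Metric
open scoped ENNReal NNReal

theorem cdef_fibre {d : ℕ} {N : Set (X d × ℝ)} (hconv : Convex ℝ N) (h0 : ∃ s, ((0 : X d), s) ∈ N)
    (h2 : ∀ x : X d, ‖x‖ = 2 → ∃ s, (x, s) ∈ N) (x : X d) (hx : ‖x‖ ≤ 2) :
    ∃ s, (x, s) ∈ N := by
  by_cases hx0 : x = 0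
  · rw [hx0]; exact h0
  · have hn : 0 < ‖x‖ := norm_pos_iff.2 hx0
    obtain ⟨s0, hs0⟩ := h0
    obtain ⟨s2, hs2⟩ := h2 ((2 / ‖x‖) • x) (by
      rw [norm_smul, Real.norm_of_nonneg (by positivity)]
      field_simp)
    refine ⟨(1 - ‖x‖ / 2) * s0 + (‖x‖ / 2) * s2, ?_⟩
    have := hconv hs0 hs2 (by linarith : (0 : ℝ) ≤ 1 - ‖x‖ / 2) (by positivity : 0 ≤ ‖x‖ / 2)
      (by ring)
    convert this using 1
    ext1
    · simp only [Prod.fst_add, Prod.smul_fst, smul_zero, zero_add, smul_smul]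
      rw [show ‖x‖ / 2 * (2 / ‖x‖) = 1 by field_simp, one_smul]
    · simp

theorem t_CDEF : S_CDEF := by
  intro d e N he0 he1 hcomp hconv hsym hsub hpin
  have hfib : ∀ x : X d, ‖x‖ ≤ 2 → ∃ s, (x, s) ∈ N := by
    refine cdef_fibre hconv ⟨_, hpin 0 (by simp) (Or.inl (by simp; linarith))⟩ ?_
    intro x hx
    exact ⟨_, hpin x hx.le (Or.inr (by rw [hx]; linarith))⟩
  have hcl : ∀ x : X d, IsClosed {s : ℝ | (x, s) ∈ N} := by
    intro x
    exact hcomp.isClosed.preimage (Continuous.prodMk_right x)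
  have hbd : ∀ x : X d, ∀ s ∈ {s : ℝ | (x, s) ∈ N}, s ≤ ph pI 1 x := by
    intro x s hs
    exact (hsub hs).2.2
  have hbdd : ∀ x : X d, BddAbove {s : ℝ | (x, s) ∈ N} := fun x => ⟨_, hbd x⟩
  have hmem : ∀ x : X d, ‖x‖ ≤ 2 → (x, sSup {s : ℝ | (x, s) ∈ N}) ∈ N := by
    intro x hx
    exact (hcl x).csSup_mem (hfib x hx) (hbdd x)
  have hle : ∀ x s, (x, s) ∈ N → s ≤ sSup {s : ℝ | (x, s) ∈ N} := fun x s hs =>
    le_csSup (hbdd x) hs
  have hneg : ∀ x : X d, ‖x‖ ≤ 2 → 0 ≤ sSup {s : ℝ | (x, s) ∈ N} := by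
    intro x hx
    have := hle x _ (hsym _ _ (hmem x hx))
    linarith
  refine ⟨fun x => sSup {s : ℝ | (x, s) ∈ N}, ⟨convex_closedBall _ _, ?_⟩, ?_, ?_, ?_⟩
  · intro x hx y hy a b ha hb hab
    rw [mem_closedBall, dist_zero_right] at hx hy
    have := hconv (hmem x hx) (hmem y hy) ha hb hab
    exact hle _ _ this
  · intro x hx
    exact ⟨hneg x hx, hbd x _ (hmem x hx)⟩
  · intro x hx hx'
    exact le_antisymm (hbd x _ (hmem x hx)) (hle x _ (hpin x hx hx'))
  · ext ⟨x, s⟩
    constructor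
    · intro hs
      refine ⟨(hsub hs).1, ?_, hle x s hs⟩
      have := hle x _ (hsym _ _ hs)
      simp only
      linarith
    · rintro ⟨hx, h1, h2⟩
      simp only at hx h1 h2
      have hc := hmem x hx
      have hc' := hsym _ _ hc
      have h0 := hneg x hx
      generalize sSup {s : ℝ | (x, s) ∈ N} = c at h1 h2 hc hc' h0
      rcases h0.eq_or_lt with h0 | h0
      · have : s = c := by linarith
        rw [this]
        exact hc
      · have := hconv hc hc' (div_nonneg (by linarith) (by linarith) : (0 : ℝ) ≤ (c + s) / (2 * c))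
          (div_nonneg (by linarith) (by linarith) : (0 : ℝ) ≤ (c - s) / (2 * c))
          (by field_simp; ring)
        convert this using 1
        ext1
        · simp only [Prod.fst_add, Prod.smul_fst]
          rw [← add_smul, show (c + s) / (2 * c) + (c - s) / (2 * c) = 1 by field_simp; ring,
            one_smul]
        · simp only [Prod.snd_add, Prod.smul_snd, smul_eq_mul]
          field_simp
          ring

end Pool.Agent.H895R2.SY
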