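import Mathlib
import Pool.Agent.Results.MP_b62b68_gt.NoSymmetrization

set_option linter.unusedVariables false

/-!
# Project SY (helper895): no monotone V_j-preserving symmetrization for hyperplanes

Statements of all tasks as Props.  `X d = EuclideanSpace ℝ (Fin d)`, the bodies live in
`X d × ℝ` (with `d = j`), which is embedded isometrically in `E n` by `Φ`, the hyperplane `H`
being `s = 0`.
-/

namespace Pool.Agent.H895R2.SY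

open MeasureTheory Module Set Filter Topology Metric
open scoped ENNReal NNReal
open Pool.Agent.Results.MP_b62b68_gt.NoSymmetrization

abbrev X (d : ℕ) : Type := EuclideanSpace ℝ (Fin d)

/-- nonempty compact convex -/
def NC {d : ℕ} (S : Set (X d × ℝ)) : Prop := IsCompact S ∧ Convex ℝ S ∧ S.Nonempty

/-- symmetric in the last variable -/
def Sy {d : ℕ} (S : Set (X d × ℝ)) : Prop := ∀ x s, (x, s) ∈ S → (x, -s) ∈ S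

/-- the region between the graphs of `-g` and `f` over the closed ball of radius 2 -/
def Sg {d : ℕ} (f g : X d → ℝ) : Set (X d × ℝ) := {p | ‖p.1‖ ≤ 2 ∧ -g p.1 ≤ p.2 ∧ p.2 ≤ f p.1}

/-- concave on the closed ball of radius 2, globally Lipschitz -/
structure Adm {d : ℕ} (f : X d → ℝ) : Prop where
  conc : ConcaveOn ℝ (closedBall 0 2) f
  lip : ∃ K : ℝ≥0, LipschitzWith K f

structure Pair {d : ℕ} (f g : X d → ℝ) : Prop where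
  left : Adm f
  right : Adm g
  nonneg : ∀ x : X d, ‖x‖ ≤ 2 → 0 ≤ f x + g x

/-- the area of the graph over the ball of radius 2 -/
noncomputable def Ar {d : ℕ} (f : X d → ℝ) : ℝ≥0∞ :=
  ∫⁻ x in ball (0 : X d) 2, ENNReal.ofReal (√(1 + ‖fderiv ℝ f x‖ ^ 2))

/-- The abstract properties of the functional `W S = V n d (Φ '' S)`. -/
structure WW (d : ℕ) (W : Set (X d × ℝ) → ℝ≥0∞) : Prop where
  mono : ∀ K L, K ⊆ L → W K ≤ W L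
  fin : ∀ K, Bornology.IsBounded K → W K < ∞
  trans : ∀ K (t : ℝ), W ((fun p => (p.1, p.2 + t)) '' K) = W K
  strict : ∀ K L, NC K → NC L → (interior L).Nonempty → K ⊆ L → W L ≤ W K → K = L
  gd : ∃ C : ℝ≥0∞, C ≠ 0 ∧ C ≠ ∞ ∧ ∀ f₁ g₁ f₂ g₂ : X d → ℝ, Pair f₁ g₁ → Pair f₂ g₂ →
    (∀ x : X d, ‖x‖ = 2 → f₁ x + g₁ x = f₂ x + g₂ x) →
    W (Sg f₁ g₁) + C * (Ar f₂ + Ar g₂) = W (Sg f₂ g₂) + C * (Ar f₁ + Ar g₁)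

/-- The abstract properties of the symmetrization. -/
structure TT (d : ℕ) (W : Set (X d × ℝ) → ℝ≥0∞) (T : Set (X d × ℝ) → Set (X d × ℝ)) :
    Prop where
  compact : ∀ S, NC S → IsCompact (T S)
  convex : ∀ S, NC S → Convex ℝ (T S)
  symm : ∀ S, NC S → Sy (T S)
  mono : ∀ S S', NC S → NC S' → S ⊆ S' → T S ⊆ T S'
  pres : ∀ S, NC S → W (T S) = W S
  inv : ∀ S, NC S → Sy S → T S = S

/-! ### The test bodies -/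

noncomputable def pI (u : ℝ) : ℝ := max (3 / 4 * u) (4 / 3 * u)

noncomputable def pJ (u : ℝ) : ℝ := max 0 (4 / 3 * u)

/-- the profile `3 - p (|x| - r)` -/
noncomputable def ph {d : ℕ} (p : ℝ → ℝ) (r : ℝ) (x : X d) : ℝ := 3 - p (‖x‖ - r)

noncomputable def b1 (m : ℕ) (e : ℝ) : ℝ := 4 / 5 * (1 + e) ^ m - 3 / 5 * (1 - e) ^ m

noncomputable def b2 (m : ℕ) (e : ℝ) : ℝ := 9 / 20 * (1 - e) ^ m - 1 / 4

/-! ### Part II: the symmetrization (abstract) -/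

/-- regions between graphs are compact convex -/
def S_SGNC : Prop := ∀ (d : ℕ) (f g : X d → ℝ), Pair f g → NC (Sg f g)

/-- and have interior points if `f + g > 0` at the origin -/
def S_SGINT : Prop := ∀ (d : ℕ) (f g : X d → ℝ), Pair f g → 0 < f 0 + g 0 →
  (interior (Sg f g)).Nonempty

/-- profiles are admissible -/
def S_PHADM : Prop := ∀ (d : ℕ) (p : ℝ → ℝ) (r : ℝ), ConvexOn ℝ univ p → Monotone p →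
  (∃ K : ℝ≥0, LipschitzWith K p) → Adm (ph (d := d) p r)

/-- `pI`, `pJ`, and linear functions satisfy the hypotheses of S_PHADM -/
def S_PADM : Prop :=
  (ConvexOn ℝ univ pI ∧ Monotone pI ∧ (∃ K : ℝ≥0, LipschitzWith K pI)) ∧
  (ConvexOn ℝ univ pJ ∧ Monotone pJ ∧ (∃ K : ℝ≥0, LipschitzWith K pJ)) ∧
  ∀ c : ℝ, 0 ≤ c → (ConvexOn ℝ univ (fun u => c * u) ∧ Monotone (fun u => c * u) ∧
    (∃ K : ℝ≥0, LipschitzWith K (fun u : ℝ => c * u)))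

/-- columns -/
def S_COL : Prop := ∀ (d : ℕ) (W : Set (X d × ℝ) → ℝ≥0∞) (T : Set (X d × ℝ) → Set (X d × ℝ)),
  WW d W → TT d W T → ∀ K : Set (X d × ℝ), NC K → ∀ (x₀ : X d) (δ a b : ℝ), 0 < δ → a < b →
  (∀ x s, ‖x - x₀‖ ≤ δ → a ≤ s → s ≤ b → (x, s) ∈ K) →
  ∃ x₁ : X d, ‖x₁ - x₀‖ ≤ δ ∧ (x₁, (b - a) / 2) ∈ T K

/-- the Steiner symmetral is contained in `T K` -/
def S_STEIN : Prop := ∀ (d : ℕ) (W : Set (X d × ℝ) → ℝ≥0∞) (T : Set (X d × ℝ) → Set (X d × ℝ)),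
  WW d W → TT d W T → ∀ f g : X d → ℝ, Pair f g → (∀ x : X d, ‖x‖ ≤ 2 → 0 < f x + g x) →
  ∀ x : X d, ‖x‖ ≤ 2 → (x, (f x + g x) / 2) ∈ T (Sg f g)

/-- translates of symmetric bodies are moved back -/
def S_TRL : Prop := ∀ (d : ℕ) (W : Set (X d × ℝ) → ℝ≥0∞) (T : Set (X d × ℝ) → Set (X d × ℝ)),
  WW d W → TT d W T → ∀ l : X d → ℝ, Adm l → (∀ x : X d, ‖x‖ ≤ 2 → 0 < l x) →
  ∀ t : ℝ, T (Sg (fun x => l x + t) (fun x => l x - t)) = Sg l l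

/-- `T K_I ⊆ L_I` -/
def S_INC : Prop := ∀ (d : ℕ) (W : Set (X d × ℝ) → ℝ≥0∞) (T : Set (X d × ℝ) → Set (X d × ℝ)),
  WW d W → TT d W T → ∀ e : ℝ, 0 < e → e < 1 / 4 →
  T (Sg (ph pI (1 + e)) (ph pI (1 - e))) ⊆ Sg (ph pI 1) (ph pI 1)

/-- the top function of a symmetric compact convex set between the Steiner symmetral and `L_I` -/
def S_CDEF : Prop := ∀ (d : ℕ) (e : ℝ) (N : Set (X d × ℝ)), 0 < e → e < 1 / 4 → IsCompact N →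
  Convex ℝ N → Sy N → N ⊆ Sg (ph pI 1) (ph pI 1) →
  (∀ x : X d, ‖x‖ ≤ 2 → (‖x‖ ≤ 1 - e ∨ 1 + e ≤ ‖x‖) → (x, ph pI 1 x) ∈ N) →
  ∃ c : X d → ℝ, ConcaveOn ℝ (closedBall 0 2) c ∧
    (∀ x : X d, ‖x‖ ≤ 2 → 0 ≤ c x ∧ c x ≤ ph pI 1 x) ∧
    (∀ x : X d, ‖x‖ ≤ 2 → (‖x‖ ≤ 1 - e ∨ 1 + e ≤ ‖x‖) → c x = ph pI 1 x) ∧
    N = Sg c c

/-- a concave function which agrees with the profile near the boundary is Lipschitz -/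
def S_CLIP : Prop := ∀ (d : ℕ) (e : ℝ) (c : X d → ℝ), 0 < e → e < 1 / 4 →
  ConcaveOn ℝ (closedBall 0 2) c → (∀ x : X d, 1 + e ≤ ‖x‖ → ‖x‖ ≤ 2 → c x = ph pI 1 x) →
  ∃ K : ℝ≥0, LipschitzOnWith K c (closedBall 0 2)

/-- what the profile `c` of `T K_I` satisfies -/
structure Good (d : ℕ) (e : ℝ) (c : X d → ℝ) : Prop where
  adm : Adm c
  bd : ∀ x : X d, ‖x‖ ≤ 2 → 0 ≤ c x ∧ c x ≤ ph pI 1 x
  eq : ∀ x : X d, ‖x‖ ≤ 2 → (‖x‖ ≤ 1 - e ∨ 1 + e ≤ ‖x‖) → c x = ph pI 1 x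
  areaI : 2 * Ar c ≤ Ar (ph (d := d) pI (1 + e)) + Ar (ph (d := d) pI (1 - e))
  areaJ : Ar (ph (d := d) pJ (1 + e)) + Ar (ph (d := d) pJ (1 - e)) ≤
    2 * Ar (fun x => min (c x) 3)

/-- conclusion of part II -/
def S_ABS : Prop := ∀ (d : ℕ) (W : Set (X d × ℝ) → ℝ≥0∞) (T : Set (X d × ℝ) → Set (X d × ℝ)),
  WW d W → TT d W T → ∀ e : ℝ, 0 < e → e < 1 / 4 → ∃ c : X d → ℝ, Good d e c

/-! ### Part III: the analytic contradiction (dimension `m + 1`) -/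

/-- choice of `e` -/
def S_ARITH : Prop := ∀ m : ℕ, ∃ e : ℝ, 0 < e ∧ e < 1 / 4 ∧ 0 < b2 m e ∧ 4 * b1 m e < 5 * b2 m e

/-- areas of the rotational profiles -/
def S_ARF : Prop := ∀ (m : ℕ) (r : ℝ), 0 < r → r < 2 →
  Ar (ph (d := m + 1) pI r) = ENNReal.ofReal
    ((5 / 4 * r ^ (m + 1) + 5 / 3 * (2 ^ (m + 1) - r ^ (m + 1))) *
      (volume (ball (0 : X (m + 1)) 1)).toReal) ∧
  Ar (ph (d := m + 1) pJ r) = ENNReal.ofReal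
    ((r ^ (m + 1) + 5 / 3 * (2 ^ (m + 1) - r ^ (m + 1))) *
      (volume (ball (0 : X (m + 1)) 1)).toReal)

/-- polar coordinates -/
def S_POL : Prop := ∀ (m : ℕ) (u : X (m + 1) → ℝ≥0∞), Measurable u →
  ∫⁻ x in ball (0 : X (m + 1)) 2, u x =
    ∫⁻ θ : sphere (0 : X (m + 1)) 1, (∫⁻ ρ in Ioo (0 : ℝ) 2,
      ENNReal.ofReal (ρ ^ m) * u (ρ • (θ : X (m + 1)))) ∂(volume : Measure (X (m + 1))).toSphere

/-- the inequality on one ray -/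
def S_RAY : Prop := ∀ (m : ℕ) (e : ℝ), 0 < e → e < 1 / 4 → 0 ≤ b2 m e → ∀ h : ℝ → ℝ,
  (∃ K : ℝ≥0, LipschitzWith K h) → ConcaveOn ℝ (Icc 0 2) h →
  (∀ ρ, 0 ≤ ρ → ρ ≤ 1 - e → h ρ = 3 - pI (ρ - 1)) →
  (∀ ρ, 1 + e ≤ ρ → ρ ≤ 2 → h ρ = 3 - pI (ρ - 1)) →
  (∀ ρ, 0 ≤ ρ → ρ ≤ 2 → h ρ ≤ 3 - pI (ρ - 1)) →
  b2 m e * ((5 / 4 + 5 / 3 * (2 ^ (m + 1) - 1)) / (m + 1)) +
      4 / 3 * b1 m e * (1 / 4 / (m + 1)) ≤
    b2 m e * (∫ ρ in (0 : ℝ)..2, ρ ^ m * √(1 + deriv h ρ ^ 2)) +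
      4 / 3 * b1 m e * (∫ ρ in (0 : ℝ)..2,
        if 3 ≤ h ρ then ρ ^ m * (√(1 + deriv h ρ ^ 2) - 1) else 0)

/-- the two radial integrals -/
noncomputable def rI {m : ℕ} (c : X (m + 1) → ℝ) (θ : sphere (0 : X (m + 1)) 1) : ℝ≥0∞ :=
  ∫⁻ ρ in Ioo (0 : ℝ) 2, ENNReal.ofReal (ρ ^ m) *
    ENNReal.ofReal (√(1 + (fderiv ℝ c (ρ • (θ : X (m + 1))) (θ : X (m + 1))) ^ 2))

noncomputable def rG {m : ℕ} (c : X (m + 1) → ℝ) (θ : sphere (0 : X (m + 1)) 1) : ℝ≥0∞ :=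
  ∫⁻ ρ in Ioo (0 : ℝ) 2, ENNReal.ofReal (ρ ^ m) *
    (if 3 ≤ c (ρ • (θ : X (m + 1))) then
      ENNReal.ofReal (√(1 + (fderiv ℝ c (ρ • (θ : X (m + 1))) (θ : X (m + 1))) ^ 2) - 1) else 0)

/-- they are measurable -/
def S_MEAS : Prop := ∀ (m : ℕ) (c : X (m + 1) → ℝ), (∃ K : ℝ≥0, LipschitzWith K c) →
  Measurable (rI c) ∧ Measurable (rG c)

/-- lower bounds of areas by the radial integrals -/
def S_R12 : Prop := ∀ (m : ℕ) (c : X (m + 1) → ℝ), (∃ K : ℝ≥0, LipschitzWith K c) →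
  (∫⁻ θ, rI c θ ∂(volume : Measure (X (m + 1))).toSphere ≤ Ar c) ∧
  (Ar (fun x => min (c x) 3) + ∫⁻ θ, rG c θ ∂(volume : Measure (X (m + 1))).toSphere ≤ Ar c)

/-- the ray inequality for almost every direction -/
def S_RAYC : Prop := ∀ (m : ℕ) (e : ℝ), 0 < e → e < 1 / 4 → 0 ≤ b2 m e →
  ∀ c : X (m + 1) → ℝ, Adm c → (∀ x : X (m + 1), ‖x‖ ≤ 2 → 0 ≤ c x ∧ c x ≤ ph pI 1 x) →
  (∀ x : X (m + 1), ‖x‖ ≤ 2 → (‖x‖ ≤ 1 - e ∨ 1 + e ≤ ‖x‖) → c x = ph pI 1 x) →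
  ∀ᵐ θ ∂(volume : Measure (X (m + 1))).toSphere,
    ENNReal.ofReal (b2 m e * ((5 / 4 + 5 / 3 * (2 ^ (m + 1) - 1)) / (m + 1)) +
      4 / 3 * b1 m e * (1 / 4 / (m + 1))) ≤
    ENNReal.ofReal (b2 m e) * rI c θ + ENNReal.ofReal (4 / 3 * b1 m e) * rG c θ

/-- conclusion of part III -/
def S_ANA : Prop := ∀ m : ℕ, 1 ≤ m → ∃ e : ℝ, 0 < e ∧ e < 1 / 4 ∧
  ∀ c : X (m + 1) → ℝ, ¬ Good (m + 1) e c

/-! ### Part I: the intrinsic volume -/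

/-- `Φ` is isometric for the Euclidean norm of `X d × ℝ` -/
def Iso {n d : ℕ} (Φ : X d × ℝ →ₗ[ℝ] E n) : Prop := ∀ x s, ‖Φ (x, s)‖ ^ 2 = ‖x‖ ^ 2 + s ^ 2

/-- coordinates -/
def S_COORD : Prop := ∀ (n d : ℕ) (H : Submodule ℝ (E n)), finrank ℝ H + 1 = n → d + 1 ≤ n →
  ∃ Φ : X d × ℝ →ₗ[ℝ] E n, Iso Φ ∧ ∀ x s, H.reflection (Φ (x, s)) = Φ (x, -s)

/-- translation invariance -/
def S_VTR : Prop := ∀ (n j : ℕ), j ≤ n → ∀ (v : E n) (K : Set (E n)),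
  V n j ((fun x => x + v) '' K) = V n j K

/-- rotation invariance -/
def S_ROT : Prop := ∀ (n j : ℕ), j ≤ n → ∀ (U : E n ≃ₗᵢ[ℝ] E n) (K : Set (E n)),
  V n j (U '' K) = V n j K

/-- the constant on isometric images -/
def S_ISO : Prop := ∀ (n d : ℕ), d ≤ n → ∃ C : ℝ≥0∞, C ≠ 0 ∧ C ≠ ∞ ∧
  ∀ (U : X d →ₗᵢ[ℝ] E n) (S : Set (X d)), V n d (U '' S) = C * volume S

/-- linear graphs -/
def S_GRV : Prop := ∀ (n d : ℕ) (C : ℝ≥0∞),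
  (∀ (U : X d →ₗᵢ[ℝ] E n) (S : Set (X d)), V n d (U '' S) = C * volume S) →
  ∀ Φ : X d × ℝ →ₗ[ℝ] E n, Iso Φ → ∀ (ℓ : X d →L[ℝ] ℝ) (S : Set (X d)),
    V n d ((fun x => Φ (x, ℓ x)) '' S) = C * ENNReal.ofReal (√(1 + ‖ℓ‖ ^ 2)) * volume S

/-- the projection `A_g` composed with `Φ` -/
noncomputable def Bg {n d : ℕ} (hd : d ≤ n) (Φ : X d × ℝ →ₗ[ℝ] E n) (g : O n) :
    X d × ℝ →ₗ[ℝ] X d :=
  (A n d hd g : E n →L[ℝ] EuclideanSpace ℝ (Fin d)).toLinearMap ∘ₗ Φ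

/-- Jacobian of `B` on the graph of a linear functional -/
noncomputable def JJ {d : ℕ} (B : X d × ℝ →ₗ[ℝ] X d) (ℓ : X d →L[ℝ] ℝ) : ℝ :=
  |LinearMap.det (B ∘ₗ LinearMap.prod LinearMap.id (ℓ : X d →ₗ[ℝ] ℝ))|

/-- averages of the Jacobians -/
def S_AVG : Prop := ∀ (n d : ℕ) (hd : d ≤ n) (Φ : X d × ℝ →ₗ[ℝ] E n), Iso Φ →
  ∃ C : ℝ≥0∞, C ≠ 0 ∧ C ≠ ∞ ∧ ∀ ℓ : X d →L[ℝ] ℝ,
    ((n.choose d : ℝ≥0∞))⁻¹ * ∫⁻ g, ENNReal.ofReal (JJ (Bg hd Φ g) ℓ) ∂(haarO n) =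
      C * ENNReal.ofReal (√(1 + ‖ℓ‖ ^ 2))

/-- joint measurability of the Jacobians -/
def S_JM : Prop := ∀ (n d : ℕ) (hd : d ≤ n) (Φ : X d × ℝ →ₗ[ℝ] E n) (w : X d → (X d →L[ℝ] ℝ)),
  Measurable w → Measurable (fun p : O n × X d => ENNReal.ofReal (JJ (Bg hd Φ p.1) (w p.2)))

/-- the map with kernel spanned by `(λ u, τ)` -/
noncomputable def Pi {d : ℕ} (u : X d) (lam tau : ℝ) (p : X d × ℝ) : X d :=
  p.1 + (lam * p.2 - (tau + 1) * inner ℝ u p.1) • u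

/-- factorisation through `Pi` -/
def S_PIF : Prop := ∀ (m : ℕ) (B : X (m + 1) × ℝ →ₗ[ℝ] X (m + 1)),
  ∃ (u : X (m + 1)) (lam tau : ℝ) (B' : X (m + 1) →ₗ[ℝ] X (m + 1)), ‖u‖ = 1 ∧ 0 ≤ lam ∧
    ∀ p, B p = B' (Pi u lam tau p)

/-- the Jacobian of the factorised map -/
def S_PIJ : Prop := ∀ (m : ℕ) (B : X (m + 1) × ℝ →ₗ[ℝ] X (m + 1)) (u : X (m + 1))
  (lam tau : ℝ) (B' : X (m + 1) →ₗ[ℝ] X (m + 1)), ‖u‖ = 1 →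
  (∀ p, B p = B' (Pi u lam tau p)) → ∀ ℓ : X (m + 1) →L[ℝ] ℝ,
  JJ B ℓ = |LinearMap.det B'| * |lam * ℓ u - tau|

/-- one dimensional maximum formula -/
def S_MAX1 : Prop := ∀ (a b : ℝ) (h : ℝ → ℝ), a ≤ b → (∃ K : ℝ≥0, LipschitzWith K h) →
  ConcaveOn ℝ (Icc a b) h → ∃ t₀ ∈ Icc a b, (∀ t ∈ Icc a b, h t ≤ h t₀) ∧
    h t₀ = (h a + h b + ∫ t in a..b, |deriv h t|) / 2

/-- one dimensional length formula -/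
def S_SL : Prop := ∀ (b lam tau : ℝ) (F G : ℝ → ℝ), 0 ≤ b → 0 ≤ lam →
  (∃ K : ℝ≥0, LipschitzWith K F) → (∃ K : ℝ≥0, LipschitzWith K G) →
  ConcaveOn ℝ (Icc (-b) b) F → ConcaveOn ℝ (Icc (-b) b) G →
  (∀ t ∈ Icc (-b) b, 0 ≤ F t + G t) →
  volume {r : ℝ | ∃ t s, -b ≤ t ∧ t ≤ b ∧ -G t ≤ s ∧ s ≤ F t ∧ r = lam * s - tau * t} =
    ENNReal.ofReal ((lam * (F (-b) + G (-b)) + lam * (F b + G b) +
      ∫ t in (-b)..b, (|lam * deriv F t - tau| + |lam * deriv G t + tau|)) / 2)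

/-- orthonormal coordinates with first axis `u` -/
def S_FUB : Prop := ∀ (m : ℕ) (u : X (m + 1)), ‖u‖ = 1 →
  ∃ ψ : ((Fin m → ℝ) × ℝ) ≃ₗ[ℝ] X (m + 1), (∀ y t, ψ (y, t) = ψ (y, 0) + t • u) ∧
    (∀ y, inner ℝ u (ψ (y, 0)) = 0) ∧
    MeasurePreserving ψ (volume.prod volume) volume

/-- the projection identity for `Pi` -/
def S_PVB : Prop := ∀ (m : ℕ) (u : X (m + 1)) (lam tau : ℝ), ‖u‖ = 1 → 0 ≤ lam →
  ∀ f₁ g₁ f₂ g₂ : X (m + 1) → ℝ, Pair f₁ g₁ → Pair f₂ g₂ →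
  (∀ x : X (m + 1), ‖x‖ = 2 → f₁ x + g₁ x = f₂ x + g₂ x) →
  volume (Pi u lam tau '' Sg f₁ g₁) + 2⁻¹ * ∫⁻ x in ball (0 : X (m + 1)) 2,
      (ENNReal.ofReal |lam * fderiv ℝ f₂ x u - tau| +
        ENNReal.ofReal |lam * fderiv ℝ g₂ x u + tau|) =
  volume (Pi u lam tau '' Sg f₂ g₂) + 2⁻¹ * ∫⁻ x in ball (0 : X (m + 1)) 2,
      (ENNReal.ofReal |lam * fderiv ℝ f₁ x u - tau| +
        ENNReal.ofReal |lam * fderiv ℝ g₁ x u + tau|)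

/-- the projection identity -/
def S_PV : Prop := ∀ (m : ℕ) (B : X (m + 1) × ℝ →ₗ[ℝ] X (m + 1)),
  ∀ f₁ g₁ f₂ g₂ : X (m + 1) → ℝ, Pair f₁ g₁ → Pair f₂ g₂ →
  (∀ x : X (m + 1), ‖x‖ = 2 → f₁ x + g₁ x = f₂ x + g₂ x) →
  volume (B '' Sg f₁ g₁) + 2⁻¹ * ∫⁻ x in ball (0 : X (m + 1)) 2,
      (ENNReal.ofReal (JJ B (fderiv ℝ f₂ x)) + ENNReal.ofReal (JJ B (-fderiv ℝ g₂ x))) =
  volume (B '' Sg f₂ g₂) + 2⁻¹ * ∫⁻ x in ball (0 : X (m + 1)) 2,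
      (ENNReal.ofReal (JJ B (fderiv ℝ f₁ x)) + ENNReal.ofReal (JJ B (-fderiv ℝ g₁ x)))

/-- the graph formula for the intrinsic volume -/
def S_GD : Prop := ∀ (n m : ℕ) (hd : m + 1 ≤ n) (Φ : X (m + 1) × ℝ →ₗ[ℝ] E n), Iso Φ →
  ∃ C : ℝ≥0∞, C ≠ 0 ∧ C ≠ ∞ ∧ ∀ f₁ g₁ f₂ g₂ : X (m + 1) → ℝ, Pair f₁ g₁ → Pair f₂ g₂ →
    (∀ x : X (m + 1), ‖x‖ = 2 → f₁ x + g₁ x = f₂ x + g₂ x) →
    V n (m + 1) (Φ '' Sg f₁ g₁) + C * (Ar f₂ + Ar g₂) =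
      V n (m + 1) (Φ '' Sg f₂ g₂) + C * (Ar f₁ + Ar g₁)

/-- a projection that separates -/
def S_SEP : Prop := ∀ (n d : ℕ) (hd : d ≤ n), 1 ≤ d → ∀ Φ : X d × ℝ →ₗ[ℝ] E n, Iso Φ →
  ∀ (K : Set (X d × ℝ)) (p : X d × ℝ), IsCompact K → Convex ℝ K → p ∉ K →
  ∃ g : O n, Function.Surjective (Bg hd Φ g) ∧ Bg hd Φ g p ∉ Bg hd Φ g '' K

/-- strict monotonicity -/
def S_STRICT : Prop := ∀ (n d : ℕ), d ≤ n → 1 ≤ d → ∀ Φ : X d × ℝ →ₗ[ℝ] E n, Iso Φ →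
  ∀ K L : Set (X d × ℝ), NC K → NC L → (interior L).Nonempty → K ⊆ L →
  V n d (Φ '' L) ≤ V n d (Φ '' K) → K = L

/-- conclusion of part I -/
def S_WW : Prop := ∀ (n m : ℕ), m + 1 ≤ n → ∀ Φ : X (m + 1) × ℝ →ₗ[ℝ] E n, Iso Φ →
  WW (m + 1) (fun S => V n (m + 1) (Φ '' S))

/-- the symmetrization in coordinates -/
def S_TMAP : Prop := ∀ (n d : ℕ) (H : Submodule ℝ (E n)) (Φ : X d × ℝ →ₗ[ℝ] E n)
  (D : Set (E n) → Set (E n)), Iso Φ → (∀ x s, H.reflection (Φ (x, s)) = Φ (x, -s)) →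
  Ext H d D → TT d (fun S => V n d (Φ '' S)) (fun S => Φ ⁻¹' (D (Φ '' S)))

/-- The new case of the theorem. -/
def S_MAIN : Prop := ∀ (n j : ℕ), 2 ≤ j → j + 1 ≤ n → ∀ H : Submodule ℝ (E n),
  finrank ℝ H + 1 = n → ∀ D : Set (E n) → Set (E n), ¬ Ext H j D

end Pool.Agent.H895R2.SY
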