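import Mathlib
import Pool.Agent.H895R2.SY.Defs

/-!
Project SY, task CLIP: a concave function which agrees with the profile near the boundary is
Lipschitz.
-/

namespace Pool.Agent.H895R2.SY

open MeasureTheory Module Set Filter Topology Metric
open scoped ENNReal NNReal

theorem clip_pI {u : ℝ} (hu : 0 ≤ u) : pI u = 4 / 3 * u := by
  unfold pI
  exact max_eq_right (by linarith)

/-- comparison with a point of the sphere -/
theorem clip_aux1 {d : ℕ} {e : ℝ} {c : X d → ℝ} (he : 0 < e) (he' : e < 1 / 4)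
    (hc : ConcaveOn ℝ (closedBall 0 2) c)
    (hp : ∀ x : X d, 1 + e ≤ ‖x‖ → ‖x‖ ≤ 2 → c x = ph pI 1 x) {x z : X d} (hx : ‖x‖ ≤ 2)
    (hz : ‖z‖ = 2) : c x - c z ≤ 4 / 3 * ‖z - x‖ := by
  set z' : X d := (7 / 8 : ℝ) • z + (1 / 8 : ℝ) • x with hz'
  have hxm : x ∈ closedBall (0 : X d) 2 := by rw [mem_closedBall_zero_iff]; exact hx
  have hzm : z ∈ closedBall (0 : X d) 2 := by rw [mem_closedBall_zero_iff]; exact hz.le
  have h1 := hc.2 hzm hxm (by norm_num : (0 : ℝ) ≤ 7 / 8) (by norm_num : (0 : ℝ) ≤ 1 / 8)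
    (by norm_num)
  rw [← hz'] at h1
  simp only [smul_eq_mul] at h1
  have h2 : z - z' = (1 / 8 : ℝ) • (z - x) := by
    rw [hz']
    have h3 : z = (7 / 8 : ℝ) • z + (1 / 8 : ℝ) • z := by
      rw [← add_smul]; norm_num
    nth_rewrite 1 [h3]
    rw [smul_sub]
    abel
  have h3 : ‖z - z'‖ = 1 / 8 * ‖z - x‖ := by
    rw [h2, norm_smul]; norm_num
  have h4 : ‖z - x‖ ≤ 4 := by
    refine (norm_sub_le _ _).trans ?_
    linarith
  have h5 : ‖z‖ ≤ ‖z - z'‖ + ‖z'‖ := by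
    have := norm_add_le (z - z') z'
    rwa [sub_add_cancel] at this
  have h6 : ‖z'‖ ≤ 2 := by
    rw [hz']
    refine (norm_add_le _ _).trans ?_
    rw [norm_smul, norm_smul, hz]
    norm_num
    linarith
  have h7 : 1 + e ≤ ‖z'‖ := by linarith
  have h8 := hp z' h7 h6
  have h9 := hp z (by linarith) hz.le
  unfold ph at h8 h9
  rw [clip_pI (by linarith)] at h8 h9
  rw [hz] at h9
  linarith

/-- one sided bound -/
theorem clip_aux2 {d : ℕ} {e : ℝ} {c : X d → ℝ} (he : 0 < e) (he' : e < 1 / 4)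
    (hc : ConcaveOn ℝ (closedBall 0 2) c)
    (hp : ∀ x : X d, 1 + e ≤ ‖x‖ → ‖x‖ ≤ 2 → c x = ph pI 1 x) {x y : X d} (hx : ‖x‖ ≤ 2)
    (hy : ‖y‖ ≤ 2) : c x - c y ≤ 4 / 3 * ‖x - y‖ := by
  rcases eq_or_ne x y with h | h
  · rw [h]; simp
  have h0 : 0 < ‖y - x‖ := norm_pos_iff.mpr (sub_ne_zero.mpr h.symm)
  have h4 : ‖y - x‖ ≤ 4 := by
    refine (norm_sub_le _ _).trans ?_
    linarith
  have h1 : (1 : ℝ) ≤ 4 / ‖y - x‖ := by
    rw [le_div_iff₀ h0]; linarith
  have hcont : ContinuousOn (fun t : ℝ => ‖x + t • (y - x)‖) (Icc 1 (4 / ‖y - x‖)) := by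
    fun_prop
  have h2 := intermediate_value_Icc h1 hcont
  have h3 : (2 : ℝ) ∈ Icc ((fun t : ℝ => ‖x + t • (y - x)‖) 1)
      ((fun t : ℝ => ‖x + t • (y - x)‖) (4 / ‖y - x‖)) := by
    constructor
    · simp only [one_smul, add_sub_cancel]
      exact hy
    · have e1 : ‖(4 / ‖y - x‖) • (y - x)‖ = 4 := by
        rw [norm_smul, Real.norm_of_nonneg (by positivity)]
        field_simp
      have e2 := norm_sub_norm_le ((4 / ‖y - x‖) • (y - x)) (-x)
      rw [norm_neg, e1, sub_neg_eq_add, add_comm _ x] at e2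
      show 2 ≤ ‖x + (4 / ‖y - x‖) • (y - x)‖
      linarith
  obtain ⟨t, ht, htz⟩ := h2 h3
  set z : X d := x + t • (y - x) with hz
  have htz' : ‖z‖ = 2 := htz
  have ht1 : 1 ≤ t := ht.1
  have ht0 : 0 < t := by linarith
  have hxm : x ∈ closedBall (0 : X d) 2 := by rw [mem_closedBall_zero_iff]; exact hx
  have hzm : z ∈ closedBall (0 : X d) 2 := by rw [mem_closedBall_zero_iff]; exact htz'.le
  have hti : 1 / t ≤ 1 := by rw [div_le_one ht0]; exact ht1
  have h5 := hc.2 hxm hzm (by linarith : (0 : ℝ) ≤ 1 - 1 / t) (by positivity : (0 : ℝ) ≤ 1 / t)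
    (by ring)
  have h6 : (1 - 1 / t) • x + (1 / t) • z = y := by
    rw [hz, smul_add, smul_smul, one_div_mul_cancel ht0.ne', one_smul, sub_smul, one_smul]
    abel
  rw [h6] at h5
  simp only [smul_eq_mul] at h5
  have h7 := clip_aux1 he he' hc hp hx htz'
  have h8 : ‖z - x‖ = t * ‖x - y‖ := by
    rw [hz, add_sub_cancel_left, norm_smul, Real.norm_of_nonneg ht0.le, norm_sub_rev]
  rw [h8] at h7
  have h9 : c x - c y ≤ 1 / t * (c x - c z) := by linarith
  have h10 : 1 / t * (c x - c z) ≤ 1 / t * (4 / 3 * (t * ‖x - y‖)) :=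
    mul_le_mul_of_nonneg_left h7 (by positivity)
  have h11 : 1 / t * (4 / 3 * (t * ‖x - y‖)) = 4 / 3 * ‖x - y‖ := by
    field_simp
  linarith

theorem t_CLIP : S_CLIP := by
  intro d e c he he' hc hp
  refine ⟨4 / 3, LipschitzOnWith.of_dist_le_mul ?_⟩
  intro x hx y hy
  rw [mem_closedBall_zero_iff] at hx hy
  rw [Real.dist_eq, dist_eq_norm]
  have h1 := clip_aux2 he he' hc hp hx hy
  have h2 := clip_aux2 he he' hc hp hy hx
  rw [norm_sub_rev y x] at h2
  have h3 : ((4 / 3 : ℝ≥0) : ℝ) = 4 / 3 := by norm_num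
  rw [h3, abs_le]
  constructor <;> linarith

end Pool.Agent.H895R2.SY
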