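import Pool.Agent.H895R2.SY.Defs

/-! Project SY, task COL: the column lemma. -/

namespace Pool.Agent.H895R2.SY

open MeasureTheory Module Set Filter Topology Metric
open scoped ENNReal NNReal

theorem col_nc {d : ℕ} (x₀ : X d) {δ : ℝ} (hδ : 0 < δ) {a b : ℝ} (hab : a ≤ b) :
    NC (closedBall x₀ δ ×ˢ Icc a b) :=
  ⟨(isCompact_closedBall x₀ δ).prod isCompact_Icc, (convex_closedBall x₀ δ).prod (convex_Icc a b),
    ⟨(x₀, a), mem_closedBall_self hδ.le, left_mem_Icc.2 hab⟩⟩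

theorem col_interior {d : ℕ} (x₀ : X d) {δ : ℝ} (hδ : 0 < δ) {a b : ℝ} (hab : a < b) :
    (interior (closedBall x₀ δ ×ˢ Icc a b)).Nonempty := by
  refine ⟨(x₀, (a + b) / 2), ?_⟩
  rw [interior_prod_eq, interior_Icc]
  refine ⟨ball_subset_interior_closedBall (mem_ball_self hδ), ?_, ?_⟩
  · show a < (a + b) / 2
    linarith
  · show (a + b) / 2 < b
    linarith

theorem col_shift {d : ℕ} (x₀ : X d) (δ a b : ℝ) :
    (fun p : X d × ℝ => (p.1, p.2 + -((a + b) / 2))) '' (closedBall x₀ δ ×ˢ Icc a b) =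
      closedBall x₀ δ ×ˢ Icc (-((b - a) / 2)) ((b - a) / 2) := by
  ext ⟨x, s⟩
  constructor
  · rintro ⟨⟨y, t⟩, ⟨hy, ht1, ht2⟩, he⟩
    simp only [Prod.mk.injEq] at he
    obtain ⟨rfl, rfl⟩ := he
    simp only at ht1 ht2
    exact ⟨hy, by constructor <;> simp only <;> linarith⟩
  · rintro ⟨hx, h1, h2⟩
    simp only at h1 h2
    refine ⟨(x, s + (a + b) / 2), ⟨hx, ?_, ?_⟩, ?_⟩
    · simp only; linarith
    · simp only; linarith
    · simp

theorem t_COL : S_COL := by
  intro d W T hW hT K hK x₀ δ a b hδ hab hbox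
  by_contra hcon
  push Not at hcon
  set h' : ℝ := (b - a) / 2 with hh'
  have hh'0 : 0 < h' := by rw [hh']; linarith
  set m : ℝ := max |a| |b| with hm
  have ham : -m ≤ a := by
    have := neg_abs_le a
    have := le_max_left |a| |b|
    linarith
  have hbm : b ≤ m := (le_abs_self b).trans (le_max_right _ _)
  have hmm : -m ≤ m := by linarith
  have hQ : NC (closedBall x₀ δ ×ˢ Icc a b) := col_nc x₀ hδ hab.le
  have hQ' : NC (closedBall x₀ δ ×ˢ Icc (-m) m) := col_nc x₀ hδ hmm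
  have hQK : closedBall x₀ δ ×ˢ Icc a b ⊆ K := by
    rintro ⟨x, s⟩ ⟨hx, h1, h2⟩
    simp only [mem_closedBall, dist_eq_norm] at hx
    exact hbox x s hx h1 h2
  have hQQ' : closedBall x₀ δ ×ˢ Icc a b ⊆ closedBall x₀ δ ×ˢ Icc (-m) m :=
    prod_mono subset_rfl (Icc_subset_Icc ham hbm)
  have hsy : Sy (closedBall x₀ δ ×ˢ Icc (-m) m) := by
    rintro x s ⟨hx, h1, h2⟩
    simp only at h1 h2
    exact ⟨hx, by constructor <;> simp only <;> linarith⟩
  have hTQ' : T (closedBall x₀ δ ×ˢ Icc a b) ⊆ closedBall x₀ δ ×ˢ Icc (-m) m := by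
    have := hT.mono _ _ hQ hQ' hQQ'
    rwa [hT.inv _ hQ' hsy] at this
  have hTK : T (closedBall x₀ δ ×ˢ Icc a b) ⊆ T K := hT.mono _ _ hQ hK hQK
  have hlt : ∀ p ∈ T (closedBall x₀ δ ×ˢ Icc a b), p.2 < h' := by
    rintro ⟨x, s⟩ hp
    by_contra hs
    simp only [not_lt] at hs
    have hs0 : 0 < s := lt_of_lt_of_le hh'0 hs
    have hx : x ∈ closedBall x₀ δ := (hTQ' hp).1
    have hneg : (x, -s) ∈ T (closedBall x₀ δ ×ˢ Icc a b) := hT.symm _ hQ x s hp
    have hc := hT.convex _ hQ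
    have hmid : (x, h') ∈ T (closedBall x₀ δ ×ˢ Icc a b) := by
      have h1 : 0 ≤ (s - h') / (2 * s) := by
        apply div_nonneg <;> linarith
      have h2 : 0 ≤ (s + h') / (2 * s) := by
        apply div_nonneg <;> linarith
      have h3 : (s - h') / (2 * s) + (s + h') / (2 * s) = 1 := by
        field_simp; ring
      have h4 := hc hneg hp h1 h2 h3
      have h5 : ((s - h') / (2 * s)) • ((x, -s) : X d × ℝ) + ((s + h') / (2 * s)) • (x, s) =
          (x, h') := by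
        rw [Prod.smul_mk, Prod.smul_mk, Prod.mk_add_mk, ← add_smul, h3, one_smul]
        congr 1
        simp only [smul_eq_mul]
        field_simp
        ring
      rwa [h5] at h4
    rw [mem_closedBall, dist_eq_norm] at hx
    exact hcon x hx (hTK hmid)
  obtain ⟨h, hh0, hhh, hle⟩ : ∃ h : ℝ, 0 ≤ h ∧ h < h' ∧
      ∀ p ∈ T (closedBall x₀ δ ×ˢ Icc a b), p.2 ≤ h := by
    rcases (T (closedBall x₀ δ ×ˢ Icc a b)).eq_empty_or_nonempty with he | hne
    · refine ⟨0, le_rfl, hh'0, ?_⟩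
      intro p hp
      rw [he] at hp
      exact absurd hp (notMem_empty _)
    · obtain ⟨q, hq, hmax⟩ := (hT.compact _ hQ).exists_isMaxOn hne continuous_snd.continuousOn
      refine ⟨max q.2 0, le_max_right _ _, max_lt (hlt q hq) hh'0, ?_⟩
      intro p hp
      exact (hmax hp).trans (le_max_left _ _)
  have hsub : T (closedBall x₀ δ ×ˢ Icc a b) ⊆ closedBall x₀ δ ×ˢ Icc (-h) h := by
    rintro ⟨x, s⟩ hp
    refine ⟨(hTQ' hp).1, ?_, hle _ hp⟩
    have := hle _ (hT.symm _ hQ x s hp)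
    simp only at this ⊢
    linarith
  have hWle : W (closedBall x₀ δ ×ˢ Icc (-h') h') ≤ W (closedBall x₀ δ ×ˢ Icc (-h) h) := by
    have h1 := hW.trans (closedBall x₀ δ ×ˢ Icc a b) (-((a + b) / 2))
    rw [col_shift] at h1
    rw [hh', h1, ← hT.pres _ hQ]
    exact hW.mono _ _ hsub
  have heq := hW.strict (closedBall x₀ δ ×ˢ Icc (-h) h) (closedBall x₀ δ ×ˢ Icc (-h') h')
    (col_nc x₀ hδ (by linarith)) (col_nc x₀ hδ (by linarith))
    (col_interior x₀ hδ (by linarith)) (prod_mono subset_rfl (Icc_subset_Icc (by linarith)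
      hhh.le)) hWle
  have hin : (x₀, h') ∈ closedBall x₀ δ ×ˢ Icc (-h') h' :=
    ⟨mem_closedBall_self hδ.le, by constructor <;> simp only <;> linarith⟩
  rw [← heq] at hin
  have := hin.2.2
  simp only at this
  linarith

end Pool.Agent.H895R2.SY
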