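import Pool.Agent.H895R2.SY.Defs

/-!
# COORD: coordinates adapted to the hyperplane
-/

namespace Pool.Agent.H895R2.SY

open MeasureTheory Module Set Filter Topology Metric
open scoped ENNReal NNReal
open Pool.Agent.Results.MP_b62b68_gt.NoSymmetrization

/-- the linear map given by `d` vectors and one more vector -/
noncomputable def COORD_map {n d : ℕ} (u : Fin d → E n) (e : E n) : X d × ℝ →ₗ[ℝ] E n where
  toFun p := ∑ k, p.1 k • u k + p.2 • e
  map_add' p q := by
    simp only [Prod.fst_add, Prod.snd_add, PiLp.add_apply, add_smul, Finset.sum_add_distrib]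
    abel
  map_smul' c p := by
    simp only [Prod.smul_fst, Prod.smul_snd, PiLp.smul_apply, smul_eq_mul, mul_smul,
      RingHom.id_apply, smul_add, Finset.smul_sum]

theorem COORD_norm {n d : ℕ} (u : Fin d → E n) (e : E n) (hu : Orthonormal ℝ u) (he : ‖e‖ = 1)
    (hue : ∀ k, inner ℝ (u k) e = 0) : Iso (COORD_map u e) := by
  intro x s
  change ‖∑ k, x k • u k + s • e‖ ^ 2 = _
  rw [@norm_add_sq_real]
  have h1 : ‖∑ k, x k • u k‖ ^ 2 = ‖x‖ ^ 2 := by
    rw [← real_inner_self_eq_norm_sq, hu.inner_sum, EuclideanSpace.norm_sq_eq]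
    apply Finset.sum_congr rfl
    intro k _
    rw [Real.norm_eq_abs, sq_abs, sq]
    rfl
  have h2 : inner ℝ (∑ k, x k • u k) (s • e) = 0 := by
    rw [inner_smul_right, sum_inner]
    have : ∑ i, inner ℝ (x i • u i) e = 0 :=
      Finset.sum_eq_zero fun k _ => by rw [inner_smul_left, hue k, mul_zero]
    rw [this, mul_zero]
  have h3 : ‖s • e‖ ^ 2 = s ^ 2 := by
    rw [norm_smul, he, mul_one, Real.norm_eq_abs, sq_abs]
  rw [h1, h2, h3]
  ring

theorem t_COORD : S_COORD := by
  intro n d H hH hd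
  have hfin : finrank ℝ (E n) = n := by simp
  have h1 : finrank ℝ H + finrank ℝ Hᗮ = n := by
    rw [Submodule.finrank_add_finrank_orthogonal, hfin]
  have h2 : 0 < finrank ℝ Hᗮ := by omega
  obtain ⟨v, hv⟩ := (Module.finrank_pos_iff_exists_ne_zero (R := ℝ) (M := Hᗮ)).1 h2
  have hv0 : (v : E n) ≠ 0 := fun h => hv (Subtype.ext h)
  have hvn : ‖(v : E n)‖ ≠ 0 := norm_ne_zero_iff.2 hv0
  set e : E n := ‖(v : E n)‖⁻¹ • (v : E n) with he
  have heH : e ∈ Hᗮ := Submodule.smul_mem _ _ v.2
  have hen : ‖e‖ = 1 := by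
    rw [he, norm_smul, norm_inv, norm_norm, inv_mul_cancel₀ hvn]
  have hdH : d ≤ finrank ℝ H := by omega
  set b := stdOrthonormalBasis ℝ H with hb
  set u : Fin d → E n := fun k => (b (Fin.castLE hdH k) : E n) with hu
  have hu1 : Orthonormal ℝ u := by
    have h3 : Orthonormal ℝ (fun k => (b k : E n)) := b.orthonormal.comp_linearIsometry H.subtypeₗᵢ
    exact h3.comp _ (Fin.castLE_injective hdH)
  have huH : ∀ k, u k ∈ H := fun k => (b (Fin.castLE hdH k)).2
  refine ⟨COORD_map u e, COORD_norm u e hu1 hen fun k => ?_, fun x s => ?_⟩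
  · exact (Submodule.mem_orthogonal H e).1 heH (u k) (huH k)
  · change H.reflection (∑ k, x k • u k + s • e) = ∑ k, x k • u k + (-s) • e
    have h4 : ∑ k, x k • u k ∈ H := Submodule.sum_mem _ fun k _ => Submodule.smul_mem _ _ (huH k)
    rw [map_add, map_smul, Submodule.reflection_mem_subspace_eq_self h4,
      Submodule.reflection_mem_subspace_orthogonalComplement_eq_neg heH, smul_neg, neg_smul]

end Pool.Agent.H895R2.SY
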