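import Pool.Agent.H895R2.SY.Defs

set_option autoImplicit false

namespace Pool.Agent.H895R2.SY

open MeasureTheory Set Metric

theorem fub_basis (m : ℕ) (u : X (m + 1)) (hu : ‖u‖ = 1) :
    ∃ b : OrthonormalBasis (Fin (m + 1)) ℝ (X (m + 1)), b (Fin.last m) = u := by
  have hv : Orthonormal ℝ (Set.domRestrict ({Fin.last m} : Set (Fin (m + 1))) (fun _ => u)) := by
    refine ⟨fun i => hu, fun i j hij => ?_⟩
    exact absurd (Subtype.ext (by rw [i.2, j.2])) hij
  obtain ⟨b, hb⟩ := hv.exists_orthonormalBasis_extension_of_card_eq (by simp)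
  exact ⟨b, hb _ rfl⟩

/-- `(y, t) ↦ (y, t)` from `ℝ^m × ℝ` to `ℝ^(m+1)` -/
noncomputable def fub_e (m : ℕ) : ((Fin m → ℝ) × ℝ) ≃ₗ[ℝ] (Fin (m + 1) → ℝ) where
  toFun p := (MeasurableEquiv.piFinSuccAbove (fun _ => ℝ) (Fin.last m)).symm (p.2, p.1)
  invFun f := ((MeasurableEquiv.piFinSuccAbove (fun _ => ℝ) (Fin.last m) f).2,
    (MeasurableEquiv.piFinSuccAbove (fun _ => ℝ) (Fin.last m) f).1)
  left_inv p := by simp
  right_inv f := (MeasurableEquiv.piFinSuccAbove (fun _ => ℝ) (Fin.last m)).symm_apply_apply f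
  map_add' p q := by
    apply (MeasurableEquiv.piFinSuccAbove (fun _ => ℝ) (Fin.last m)).injective
    rw [MeasurableEquiv.apply_symm_apply]
    refine Prod.ext ?_ ?_
    · have h1 := congrArg Prod.fst ((MeasurableEquiv.piFinSuccAbove (fun _ => ℝ)
        (Fin.last m)).apply_symm_apply (p.2, p.1))
      have h2 := congrArg Prod.fst ((MeasurableEquiv.piFinSuccAbove (fun _ => ℝ)
        (Fin.last m)).apply_symm_apply (q.2, q.1))
      exact (congrArg₂ (· + ·) h1 h2).symm
    · have h1 := congrArg Prod.snd ((MeasurableEquiv.piFinSuccAbove (fun _ => ℝ)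
        (Fin.last m)).apply_symm_apply (p.2, p.1))
      have h2 := congrArg Prod.snd ((MeasurableEquiv.piFinSuccAbove (fun _ => ℝ)
        (Fin.last m)).apply_symm_apply (q.2, q.1))
      exact (congrArg₂ (· + ·) h1 h2).symm
  map_smul' c p := by
    apply (MeasurableEquiv.piFinSuccAbove (fun _ => ℝ) (Fin.last m)).injective
    rw [MeasurableEquiv.apply_symm_apply]
    refine Prod.ext ?_ ?_
    · have h1 := congrArg Prod.fst ((MeasurableEquiv.piFinSuccAbove (fun _ => ℝ)
        (Fin.last m)).apply_symm_apply (p.2, p.1))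
      exact (congrArg (c • ·) h1).symm
    · have h1 := congrArg Prod.snd ((MeasurableEquiv.piFinSuccAbove (fun _ => ℝ)
        (Fin.last m)).apply_symm_apply (p.2, p.1))
      exact (congrArg (c • ·) h1).symm

theorem fub_last (m : ℕ) (p : (Fin m → ℝ) × ℝ) : fub_e m p (Fin.last m) = p.2 :=
  congrArg Prod.fst ((MeasurableEquiv.piFinSuccAbove (fun _ => ℝ)
    (Fin.last m)).apply_symm_apply (p.2, p.1))

theorem fub_succ (m : ℕ) (p : (Fin m → ℝ) × ℝ) (j : Fin m) : fub_e m p j.castSucc = p.1 j := by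
  have h1 := congrArg Prod.snd ((MeasurableEquiv.piFinSuccAbove (fun _ => ℝ)
    (Fin.last m)).apply_symm_apply (p.2, p.1))
  have h2 := congrFun h1 j
  have h3 : (Fin.last m).succAbove j = j.castSucc := Fin.succAbove_last_apply j
  have h4 : (MeasurableEquiv.piFinSuccAbove (fun _ => ℝ) (Fin.last m)
      ((MeasurableEquiv.piFinSuccAbove (fun _ => ℝ) (Fin.last m)).symm (p.2, p.1))).2 j =
      fub_e m p ((Fin.last m).succAbove j) := rfl
  rw [h4, h3] at h2
  exact h2

theorem fub_mp (m : ℕ) : MeasurePreserving (fub_e m) (volume.prod volume) volume := by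
  have h1 := (volume_preserving_piFinSuccAbove (fun _ : Fin (m + 1) => ℝ) (Fin.last m)).symm
  have h2 : MeasurePreserving (Prod.swap : (Fin m → ℝ) × ℝ → ℝ × (Fin m → ℝ))
    (volume.prod volume) (volume.prod volume) := Measure.measurePreserving_swap
  exact h1.comp h2

theorem t_FUB : S_FUB := by
  intro m u hu
  obtain ⟨b, hb⟩ := fub_basis m u hu
  set ψ : ((Fin m → ℝ) × ℝ) ≃ₗ[ℝ] X (m + 1) :=
    ((fub_e m).trans (WithLp.linearEquiv 2 ℝ (Fin (m + 1) → ℝ)).symm).trans
      b.repr.symm.toLinearEquiv with hψ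
  have hψa : ∀ p, ψ p = b.repr.symm (WithLp.toLp 2 (fub_e m p)) := fun p => rfl
  have hu1 : ψ (0, 1) = u := by
    rw [hψa, ← hb, ← b.repr_symm_single]
    congr 1
    ext k
    refine Fin.lastCases ?_ (fun j => ?_) k
    · simp [fub_last]
    · simp [fub_succ, Fin.castSucc_ne_last]
  refine ⟨ψ, ?_, ?_, ?_⟩
  · intro y t
    rw [← hu1, ← map_smul, ← map_add]
    simp
  · intro y
    have h1 : inner ℝ (b (Fin.last m)) (ψ (y, 0)) = b.repr (ψ (y, 0)) (Fin.last m) :=
      (b.repr_apply_apply _ _).symm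
    rw [← hb, h1, hψa, LinearIsometryEquiv.apply_symm_apply]
    exact fub_last m (y, 0)
  · have h1 := b.measurePreserving_repr_symm
    have h2 := PiLp.volume_preserving_toLp (Fin (m + 1))
    exact h1.comp (h2.comp (fub_mp m))

end Pool.Agent.H895R2.SY
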