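import Pool.Agent.H895R2.SY.Defs

/-!
# Task GD: the graph formula for the intrinsic volume
-/

namespace Pool.Agent.H895R2.SY

open MeasureTheory Module Set Filter Topology Metric
open scoped ENNReal NNReal
open Pool.Agent.Results.MP_b62b68_gt.NoSymmetrization

/-- the integral of the Jacobians -/
noncomputable def gd_I {n m : ℕ} (hd : m + 1 ≤ n) (Φ : X (m + 1) × ℝ →ₗ[ℝ] E n)
    (f g : X (m + 1) → ℝ) (γ : O n) : ℝ≥0∞ :=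
  ∫⁻ x in ball (0 : X (m + 1)) 2,
      (ENNReal.ofReal (JJ (Bg hd Φ γ) (fderiv ℝ f x)) +
        ENNReal.ofReal (JJ (Bg hd Φ γ) (-fderiv ℝ g x)))

theorem gd_meas {n m : ℕ} (h2 : S_JM) (hd : m + 1 ≤ n) (Φ : X (m + 1) × ℝ →ₗ[ℝ] E n)
    (f g : X (m + 1) → ℝ) : Measurable (fun p : O n × X (m + 1) =>
      ENNReal.ofReal (JJ (Bg hd Φ p.1) (fderiv ℝ f p.2)) +
        ENNReal.ofReal (JJ (Bg hd Φ p.1) (-fderiv ℝ g p.2))) :=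
  (h2 n (m + 1) hd Φ (fderiv ℝ f) (measurable_fderiv ℝ f)).add
    (h2 n (m + 1) hd Φ (fun x => -fderiv ℝ g x) (measurable_fderiv ℝ g).neg)

theorem gd_I_meas {n m : ℕ} (h2 : S_JM) (hd : m + 1 ≤ n) (Φ : X (m + 1) × ℝ →ₗ[ℝ] E n)
    (f g : X (m + 1) → ℝ) : Measurable (gd_I hd Φ f g) :=
  (gd_meas h2 hd Φ f g).lintegral_prod_right'

theorem gd_Ar_meas {d : ℕ} (f : X d → ℝ) :
    Measurable (fun x : X d => ENNReal.ofReal (√(1 + ‖fderiv ℝ f x‖ ^ 2))) :=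
  (((measurable_fderiv ℝ f).norm.pow_const 2).const_add 1).sqrt.ennreal_ofReal

theorem gd_V {n m : ℕ} (hd : m + 1 ≤ n) (Φ : X (m + 1) × ℝ →ₗ[ℝ] E n)
    (S : Set (X (m + 1) × ℝ)) : V n (m + 1) (Φ '' S) =
      (n.choose (m + 1) : ℝ≥0∞)⁻¹ * ∫⁻ γ, volume (Bg hd Φ γ '' S) ∂(haarO n) := by
  rw [V_eq hd]
  congr 1
  refine lintegral_congr fun γ => ?_
  rw [Set.image_image]
  rfl

theorem gd_slice {α β : Type} [MeasurableSpace α] [MeasurableSpace β] (F : α → β → ℝ≥0∞)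
    (h : Measurable (fun p : α × β => F p.1 p.2)) (b : β) : Measurable (fun a => F a b) :=
  h.comp measurable_prodMk_right

attribute [local irreducible] JJ Bg

theorem gd_avg {n m : ℕ} (h2 : S_JM) (hd : m + 1 ≤ n) (Φ : X (m + 1) × ℝ →ₗ[ℝ] E n)
    (C : ℝ≥0∞) (hC : ∀ ℓ : X (m + 1) →L[ℝ] ℝ,
    ((n.choose (m + 1) : ℝ≥0∞))⁻¹ * ∫⁻ g, ENNReal.ofReal (JJ (Bg hd Φ g) ℓ) ∂(haarO n) =
      C * ENNReal.ofReal (√(1 + ‖ℓ‖ ^ 2))) (f g : X (m + 1) → ℝ) :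
    (n.choose (m + 1) : ℝ≥0∞)⁻¹ * ∫⁻ γ, gd_I hd Φ f g γ ∂(haarO n) = C * (Ar f + Ar g) := by
  have hm := gd_meas h2 hd Φ f g
  unfold gd_I
  rw [lintegral_lintegral_swap hm.aemeasurable,
    ← lintegral_const_mul' _ _ (const_ne_top hd)]
  have e : ∀ x : X (m + 1), (n.choose (m + 1) : ℝ≥0∞)⁻¹ *
      ∫⁻ γ, (ENNReal.ofReal (JJ (Bg hd Φ γ) (fderiv ℝ f x)) +
        ENNReal.ofReal (JJ (Bg hd Φ γ) (-fderiv ℝ g x))) ∂(haarO n) =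
      C * ENNReal.ofReal (√(1 + ‖fderiv ℝ f x‖ ^ 2)) +
        C * ENNReal.ofReal (√(1 + ‖fderiv ℝ g x‖ ^ 2)) := by
    intro x
    have hx : Measurable fun γ : O n => ENNReal.ofReal (JJ (Bg hd Φ γ) (fderiv ℝ f x)) :=
      gd_slice (fun γ (_ : X (m + 1)) => ENNReal.ofReal (JJ (Bg hd Φ γ) (fderiv ℝ f x)))
        (h2 n (m + 1) hd Φ (fun _ => fderiv ℝ f x) measurable_const) 0
    rw [lintegral_add_left hx, mul_add, hC, hC, norm_neg]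
  rw [lintegral_congr e, lintegral_add_left ((gd_Ar_meas f).const_mul C),
    lintegral_const_mul C (gd_Ar_meas f), lintegral_const_mul C (gd_Ar_meas g), ← mul_add]
  rfl

theorem t_GD (h1 : S_AVG) (h2 : S_JM) (h3 : S_PV) : S_GD := by
  intro n m hd Φ hΦ
  obtain ⟨C0, hC0, hC0', hav⟩ := h1 n (m + 1) hd Φ hΦ
  refine ⟨C0 * 2⁻¹, mul_ne_zero hC0 (by simp), ENNReal.mul_ne_top hC0' (by simp), ?_⟩
  intro f₁ g₁ f₂ g₂ hp1 hp2 hb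
  have key : ∀ γ : O n, volume (Bg hd Φ γ '' Sg f₁ g₁) + 2⁻¹ * gd_I hd Φ f₂ g₂ γ =
      volume (Bg hd Φ γ '' Sg f₂ g₂) + 2⁻¹ * gd_I hd Φ f₁ g₁ γ :=
    fun γ => h3 m (Bg hd Φ γ) f₁ g₁ f₂ g₂ hp1 hp2 hb
  have hint : ∀ (S : Set (X (m + 1) × ℝ)) (f g : X (m + 1) → ℝ),
      (n.choose (m + 1) : ℝ≥0∞)⁻¹ * ∫⁻ γ, (volume (Bg hd Φ γ '' S) + 2⁻¹ * gd_I hd Φ f g γ)
        ∂(haarO n) = V n (m + 1) (Φ '' S) + C0 * 2⁻¹ * (Ar f + Ar g) := by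
    intro S f g
    rw [lintegral_add_right _ ((gd_I_meas h2 hd Φ f g).const_mul _),
      lintegral_const_mul _ (gd_I_meas h2 hd Φ f g), mul_add, ← gd_V hd Φ S,
      mul_left_comm, gd_avg h2 hd Φ C0 hav f g, ← mul_assoc, mul_comm (2⁻¹ : ℝ≥0∞) C0]
  rw [← hint, ← hint, lintegral_congr key]

end Pool.Agent.H895R2.SY
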