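import Pool.Agent.H895R2.SY.Defs

/-!
# Task GRV: linear graphs
-/

namespace Pool.Agent.H895R2.SY

open MeasureTheory Module Set Filter Topology Metric
open scoped ENNReal NNReal
open Pool.Agent.Results.MP_b62b68_gt.NoSymmetrization

/-- the vector of the functional -/
noncomputable def grv_w {d : ℕ} (ℓ : X d →L[ℝ] ℝ) : X d := (InnerProductSpace.toDual ℝ (X d)).symm ℓ

theorem grv_w_norm {d : ℕ} (ℓ : X d →L[ℝ] ℝ) : ‖grv_w ℓ‖ = ‖ℓ‖ := by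
  unfold grv_w
  exact LinearIsometryEquiv.norm_map _ _

theorem grv_w_inner {d : ℕ} (ℓ : X d →L[ℝ] ℝ) (x : X d) : inner ℝ (grv_w ℓ) x = ℓ x := by
  unfold grv_w
  exact InnerProductSpace.toDual_symm_apply

/-- the constant -/
noncomputable def grv_c {d : ℕ} (ℓ : X d →L[ℝ] ℝ) : ℝ := √(1 + ‖ℓ‖ ^ 2)

theorem grv_c_pos {d : ℕ} (ℓ : X d →L[ℝ] ℝ) : 0 < grv_c ℓ := by
  unfold grv_c; positivity

theorem grv_c_sq {d : ℕ} (ℓ : X d →L[ℝ] ℝ) : grv_c ℓ ^ 2 = 1 + ‖ℓ‖ ^ 2 := by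
  unfold grv_c; exact Real.sq_sqrt (by positivity)

/-- the linear map of `X d` which makes the graph map isometric -/
noncomputable def grv_B {d : ℕ} (ℓ : X d →L[ℝ] ℝ) : X d →ₗ[ℝ] X d :=
  LinearMap.transvection (ℓ : X d →ₗ[ℝ] ℝ) ((1 / (grv_c ℓ + 1)) • grv_w ℓ)

theorem grv_B_apply {d : ℕ} (ℓ : X d →L[ℝ] ℝ) (x : X d) :
    grv_B ℓ x = x + ℓ x • ((1 / (grv_c ℓ + 1)) • grv_w ℓ) := by
  unfold grv_B
  rw [LinearMap.transvection.apply]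
  rfl

theorem grv_k {d : ℕ} (ℓ : X d →L[ℝ] ℝ) : 1 / (grv_c ℓ + 1) * ‖ℓ‖ ^ 2 = grv_c ℓ - 1 := by
  have h1 := grv_c_sq ℓ
  have h2 := grv_c_pos ℓ
  have h3 : ‖ℓ‖ ^ 2 = (grv_c ℓ + 1) * (grv_c ℓ - 1) := by ring_nf; linarith
  rw [h3, one_div, inv_mul_cancel_left₀ (by positivity)]

theorem grv_det {d : ℕ} (ℓ : X d →L[ℝ] ℝ) : LinearMap.det (grv_B ℓ) = grv_c ℓ := by
  unfold grv_B
  rw [LinearMap.transvection.det, map_smul, smul_eq_mul]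
  have h1 : (ℓ : X d →ₗ[ℝ] ℝ) (grv_w ℓ) = ‖ℓ‖ ^ 2 := by
    change ℓ (grv_w ℓ) = ‖ℓ‖ ^ 2
    rw [← grv_w_inner, real_inner_self_eq_norm_sq, grv_w_norm]
  rw [h1, grv_k]
  ring

theorem grv_norm {d : ℕ} (ℓ : X d →L[ℝ] ℝ) (x : X d) :
    ‖grv_B ℓ x‖ ^ 2 = ‖x‖ ^ 2 + ℓ x ^ 2 := by
  rw [grv_B_apply, norm_add_sq_real, real_inner_smul_right, real_inner_smul_right,
    real_inner_comm, grv_w_inner, norm_smul, norm_smul, grv_w_norm, mul_pow, mul_pow,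
    Real.norm_eq_abs, Real.norm_eq_abs, sq_abs, sq_abs]
  have h1 := grv_k ℓ
  have h2 := grv_c_pos ℓ
  have h3 : (1 / (grv_c ℓ + 1)) * (grv_c ℓ + 1) = 1 := by
    rw [one_div, inv_mul_cancel₀ (by positivity)]
  have h4 : (1 / (grv_c ℓ + 1)) ^ 2 * ‖ℓ‖ ^ 2 = (1 / (grv_c ℓ + 1)) * (grv_c ℓ - 1) := by
    rw [← h1]; ring
  rw [h4]
  have h5 : 2 * (1 / (grv_c ℓ + 1)) + (1 / (grv_c ℓ + 1)) * (grv_c ℓ - 1) = 1 := by
    linear_combination h3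
  linear_combination (ℓ x) ^ 2 * h5

theorem t_GRV : S_GRV := by
  intro n d C hC Φ hΦ ℓ S
  have hdet : LinearMap.det (grv_B ℓ) ≠ 0 := by rw [grv_det]; exact (grv_c_pos ℓ).ne'
  set e : X d ≃ₗ[ℝ] X d := (grv_B ℓ).equivOfDetNeZero hdet with he
  have he' : ∀ x, e x = grv_B ℓ x := fun x => rfl
  let Ψ : X d →ₗ[ℝ] E n := Φ ∘ₗ LinearMap.prod LinearMap.id (ℓ : X d →ₗ[ℝ] ℝ)
  have hΨ : ∀ x, Ψ x = Φ (x, ℓ x) := fun x => rfl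
  have hn : ∀ y, ‖(Ψ ∘ₗ (e.symm : X d →ₗ[ℝ] X d)) y‖ = ‖y‖ := by
    intro y
    have h1 : ‖Ψ (e.symm y)‖ ^ 2 = ‖y‖ ^ 2 := by
      rw [hΨ, hΦ, ← grv_norm, ← he', LinearEquiv.apply_symm_apply]
    exact (pow_left_inj₀ (norm_nonneg _) (norm_nonneg _) two_ne_zero).1 h1
  let U : X d →ₗᵢ[ℝ] E n := ⟨Ψ ∘ₗ (e.symm : X d →ₗ[ℝ] X d), hn⟩
  have hU : (fun x => Φ (x, ℓ x)) '' S = U '' (grv_B ℓ '' S) := by
    rw [Set.image_image]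
    refine Set.image_congr fun x _ => ?_
    change Φ (x, ℓ x) = Ψ (e.symm (grv_B ℓ x))
    rw [← he', LinearEquiv.symm_apply_apply]
    rfl
  rw [hU, hC U, Measure.addHaar_image_linearMap, grv_det, abs_of_pos (grv_c_pos ℓ), mul_assoc]
  rfl

end Pool.Agent.H895R2.SY
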