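import Pool.Agent.H895R2.SY.Defs

/-!
Task INC: `T K_I ⊆ L_I`.
-/

namespace Pool.Agent.H895R2.SY

open MeasureTheory Module Set Filter Topology Metric
open scoped ENNReal NNReal
open Pool.Agent.Results.MP_b62b68_gt.NoSymmetrization

theorem INC_lin {d : ℕ} (hP : S_PHADM) (hQ : S_PADM) {c : ℝ} (hc : 0 ≤ c) (r : ℝ) :
    Adm (ph (d := d) (fun u => c * u) r) := by
  obtain ⟨h1, h2, h3⟩ := hQ.2.2 c hc
  exact hP d _ r h1 h2 h3

theorem INC_pI {d : ℕ} (hP : S_PHADM) (hQ : S_PADM) (r : ℝ) :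
    Adm (ph (d := d) pI r) := by
  obtain ⟨h1, h2, h3⟩ := hQ.1
  exact hP d _ r h1 h2 h3

theorem INC_pI_le {u v : ℝ} (hv : 0 ≤ v) (huv : u ≤ v) : pI u ≤ 4 / 3 * v := by
  unfold pI
  apply max_le <;> linarith

theorem INC_NC {d : ℕ} (hP : S_PHADM) (hQ : S_PADM) (hN : S_SGNC) {e : ℝ} (he0 : 0 < e)
    (he : e < 1 / 4) : NC (Sg (ph (d := d) pI (1 + e)) (ph pI (1 - e))) := by
  apply hN
  refine ⟨INC_pI hP hQ _, INC_pI hP hQ _, ?_⟩
  intro x hx
  have h1 : pI (‖x‖ - (1 + e)) ≤ 4 / 3 * 1 := INC_pI_le (by norm_num) (by linarith)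
  have h2 : pI (‖x‖ - (1 - e)) ≤ 4 / 3 * (5 / 4) := INC_pI_le (by norm_num) (by linarith)
  simp only [ph]
  linarith

theorem INC_one {d : ℕ} {W : Set (X d × ℝ) → ℝ≥0∞} {T : Set (X d × ℝ) → Set (X d × ℝ)}
    (hT : S_TRL) (hP : S_PHADM) (hQ : S_PADM) (hN : S_SGNC) (hW : WW d W) (hTT : TT d W T)
    {e : ℝ} (he0 : 0 < e) (he : e < 1 / 4) {c : ℝ} (hc0 : 0 ≤ c) (hc1 : c ≤ 4 / 3)
    (hcp : ∀ u, c * u ≤ pI u) :
    T (Sg (ph pI (1 + e)) (ph pI (1 - e))) ⊆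
      Sg (ph (fun u => c * u) 1) (ph (fun u => c * u) 1) := by
  have hlpos : ∀ x : X d, ‖x‖ ≤ 2 → 0 < ph (fun u => c * u) 1 x := by
    intro x hx
    have h0 := norm_nonneg x
    simp only [ph]
    nlinarith
  have h1 := hT d W T hW hTT (ph (fun u => c * u) 1) (INC_lin hP hQ hc0 1) hlpos (c * e)
  have e1 : (fun x : X d => ph (fun u => c * u) 1 x + c * e) = ph (fun u => c * u) (1 + e) := by
    funext x
    simp only [ph]
    ring
  have e2 : (fun x : X d => ph (fun u => c * u) 1 x - c * e) = ph (fun u => c * u) (1 - e) := by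
    funext x
    simp only [ph]
    ring
  rw [e1, e2] at h1
  rw [← h1]
  apply hTT.mono _ _ (INC_NC hP hQ hN he0 he)
  · apply hN
    refine ⟨INC_lin hP hQ hc0 _, INC_lin hP hQ hc0 _, ?_⟩
    intro x hx
    have h2 := hlpos x hx
    simp only [ph] at h2 ⊢
    linarith
  · rintro ⟨x, s⟩ ⟨hx, hs1, hs2⟩
    simp only [ph] at hs1 hs2
    have h3 := hcp (‖x‖ - (1 + e))
    have h4 := hcp (‖x‖ - (1 - e))
    refine ⟨hx, ?_, ?_⟩
    · simp only [ph]
      linarith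
    · simp only [ph]
      linarith

theorem t_INC (hT : S_TRL) (hP : S_PHADM) (hQ : S_PADM) (hN : S_SGNC) : S_INC := by
  intro d W T hW hTT e he0 he
  rintro ⟨x, s⟩ hp
  have h1 := INC_one hT hP hQ hN hW hTT he0 he (c := 3 / 4) (by norm_num) (by norm_num)
    (fun u => le_max_left _ _) hp
  have h2 := INC_one hT hP hQ hN hW hTT he0 he (c := 4 / 3) (by norm_num) (by norm_num)
    (fun u => le_max_right _ _) hp
  obtain ⟨hx, a1, a2⟩ := h1
  obtain ⟨_, b1, b2⟩ := h2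
  simp only [ph] at a1 a2 b1 b2
  refine ⟨hx, ?_, ?_⟩
  · simp only [ph, pI]
    rcases le_total (3 / 4 * (‖x‖ - 1)) (4 / 3 * (‖x‖ - 1)) with h | h
    · rw [max_eq_right h]; exact b1
    · rw [max_eq_left h]; exact a1
  · simp only [ph, pI]
    rcases le_total (3 / 4 * (‖x‖ - 1)) (4 / 3 * (‖x‖ - 1)) with h | h
    · rw [max_eq_right h]; exact b2
    · rw [max_eq_left h]; exact a2

end Pool.Agent.H895R2.SY
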