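import Pool.Agent.H895R2.SY.Defs

namespace Pool.Agent.H895R2.SY

open MeasureTheory Module Set Filter Topology Metric
open scoped ENNReal NNReal
open Pool.Agent.Results.MP_b62b68_gt.NoSymmetrization

theorem isob_exists (n d : ℕ) (hd : d ≤ n) : Nonempty (X d →ₗᵢ[ℝ] E n) := by
  let v : Fin d → E n := fun k => EuclideanSpace.basisFun (Fin n) ℝ (Fin.castLE hd k)
  have hv : Orthonormal ℝ v :=
    (EuclideanSpace.basisFun (Fin n) ℝ).orthonormal.comp _ (Fin.castLE_injective hd)
  let b := (EuclideanSpace.basisFun (Fin d) ℝ).toBasis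
  let f : X d →ₗ[ℝ] E n := b.constr ℝ v
  have hb : Orthonormal ℝ b := by
    have := (EuclideanSpace.basisFun (Fin d) ℝ).orthonormal
    simpa [b] using this
  have hf : Orthonormal ℝ (f ∘ b) := by
    have : (f ∘ b) = v := by
      ext1 k
      simp [f, Basis.constr_basis]
    rw [this]
    exact hv
  exact ⟨f.isometryOfOrthonormal hb hf⟩

theorem t_ISOb (h : S_ROT) : S_ISO := by
  intro n d hd
  obtain ⟨U0⟩ := isob_exists n d hd
  obtain ⟨C, hC0, hCt, hC⟩ := V_linear hd (volume : Measure (X d)) (by simp) U0.toLinearMap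
    U0.injective
  refine ⟨C, hC0, hCt, fun U S => ?_⟩
  let L : LinearMap.range U0.toLinearMap →ₗᵢ[ℝ] E n :=
    U.comp (U0.equivRange.symm.toLinearIsometry)
  let R : E n ≃ₗᵢ[ℝ] E n := L.extend.toLinearIsometryEquiv rfl
  have hR : ∀ x, R (U0 x) = U x := by
    intro x
    have h1 : L.extend (U0 x) = L ⟨U0 x, LinearMap.mem_range_self U0.toLinearMap x⟩ :=
      LinearIsometry.extend_apply L ⟨U0 x, LinearMap.mem_range_self U0.toLinearMap x⟩
    change L.extend (U0 x) = U x
    rw [h1]
    change U (U0.equivRange.symm ⟨U0 x, LinearMap.mem_range_self U0.toLinearMap x⟩) = U x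
    congr 1
    rw [LinearIsometryEquiv.symm_apply_eq]
    rfl
  have h2 : U '' S = R '' (U0 '' S) := by
    rw [Set.image_image]
    exact Set.image_congr fun x _ => (hR x).symm
  rw [h2, h n d hd R]
  exact hC S

end Pool.Agent.H895R2.SY
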