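import Pool.Agent.H895R2.SY.Defs

/-! Task JM: joint measurability of the Jacobians. -/

namespace Pool.Agent.H895R2.SY

open MeasureTheory Module Set Filter Topology Metric
open scoped ENNReal NNReal
open Pool.Agent.Results.MP_b62b68_gt.NoSymmetrization

theorem jm_entry {n d : ℕ} (hd : d ≤ n) (v : E n) (i : Fin d) :
    Measurable (fun g : O n => (A n d hd g v) i) := by
  have h1 : Continuous (fun g : O n => A n d hd g v) :=
    (A_continuous hd).clm_apply continuous_const
  have h2 : Continuous (fun g : O n => (A n d hd g v) i) :=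
    (EuclideanSpace.proj (𝕜 := ℝ) i).continuous.comp h1
  exact h2.measurable

theorem t_JM : S_JM := by
  intro n d hd Φ w hw
  apply ENNReal.measurable_ofReal.comp
  unfold JJ
  set b := (EuclideanSpace.basisFun (Fin d) ℝ).toBasis with hb
  have hdet : ∀ p : O n × X d,
      LinearMap.det (Bg hd Φ p.1 ∘ₗ LinearMap.prod LinearMap.id (w p.2 : X d →ₗ[ℝ] ℝ)) =
      (LinearMap.toMatrix b b
        (Bg hd Φ p.1 ∘ₗ LinearMap.prod LinearMap.id (w p.2 : X d →ₗ[ℝ] ℝ))).det := by
    intro p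
    rw [LinearMap.det_toMatrix]
  have hent : ∀ (i j : Fin d) (p : O n × X d),
      LinearMap.toMatrix b b
        (Bg hd Φ p.1 ∘ₗ LinearMap.prod LinearMap.id (w p.2 : X d →ₗ[ℝ] ℝ)) i j =
      (A n d hd p.1 (Φ (b j, 0))) i + (w p.2 (b j)) * (A n d hd p.1 (Φ (0, 1))) i := by
    intro i j p
    have h1 : ((b j : X d), (w p.2 (b j) : ℝ)) = (b j, 0) + (w p.2 (b j)) • ((0 : X d), (1 : ℝ)) := by
      ext <;> simp
    have h2 : LinearMap.toMatrix b b
        (Bg hd Φ p.1 ∘ₗ LinearMap.prod LinearMap.id (w p.2 : X d →ₗ[ℝ] ℝ)) i j =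
        (A n d hd p.1 (Φ (b j, w p.2 (b j)))) i := by
      rw [LinearMap.toMatrix_apply, hb]
      simp [Bg]
    rw [h2, h1, map_add, map_smul, map_add, map_smul]
    simp
  have hmeas : ∀ (i j : Fin d), Measurable (fun p : O n × X d =>
      LinearMap.toMatrix b b
        (Bg hd Φ p.1 ∘ₗ LinearMap.prod LinearMap.id (w p.2 : X d →ₗ[ℝ] ℝ)) i j) := by
    intro i j
    simp only [hent]
    refine Measurable.add ((jm_entry hd _ i).comp measurable_fst) (Measurable.mul ?_
      ((jm_entry hd _ i).comp measurable_fst))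
    exact ((ContinuousLinearMap.measurable_apply (b j)).comp hw).comp measurable_snd
  simp only [hdet, Matrix.det_apply]
  apply Measurable.abs
  apply Finset.measurable_sum
  intro σ _
  have h3 : ∀ p : O n × X d, Equiv.Perm.sign σ • ∏ i, LinearMap.toMatrix b b
        (Bg hd Φ p.1 ∘ₗ LinearMap.prod LinearMap.id (w p.2 : X d →ₗ[ℝ] ℝ)) (σ i) i =
      ((Equiv.Perm.sign σ : ℤ) : ℝ) * ∏ i, LinearMap.toMatrix b b
        (Bg hd Φ p.1 ∘ₗ LinearMap.prod LinearMap.id (w p.2 : X d →ₗ[ℝ] ℝ)) (σ i) i := by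
    intro p
    rw [Units.smul_def, zsmul_eq_mul]
  simp only [h3]
  apply Measurable.const_mul
  apply Finset.measurable_prod
  intro i _
  exact hmeas (σ i) i

end Pool.Agent.H895R2.SY
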