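import Pool.Agent.H895R2.SY.Defs

namespace Pool.Agent.H895R2.SY

open MeasureTheory Module Set Filter Topology Metric
open scoped ENNReal NNReal
open Pool.Agent.Results.MP_b62b68_gt.NoSymmetrization

theorem t_MAIN (h1 : S_COORD) (h2 : S_TMAP) (h3 : S_WW) (h4 : S_ABS) (h5 : S_ANA) : S_MAIN := by
  intro n j hj hjn H hH D hD
  obtain ⟨m, rfl⟩ : ∃ m, j = m + 1 := ⟨j - 1, by omega⟩
  obtain ⟨Φ, hΦ, hr⟩ := h1 n (m + 1) H hH hjn
  obtain ⟨e, he0, he1, hne⟩ := h5 m (by omega)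
  obtain ⟨c, hc⟩ := h4 (m + 1) _ _ (h3 n m (by omega) Φ hΦ) (h2 n (m + 1) H Φ D hΦ hr hD) e he0 he1
  exact hne c hc

/-- the theorem for all dimensions of `H` -/
theorem all_of_main (h : S_MAIN) (n i j : ℕ) (hi : i < n) (hj : 2 ≤ j) (hjn : j < n)
    (H : Submodule ℝ (E n)) (hH : finrank ℝ H = i) (𝓑 : Set (Set (E n)))
    (h𝓑 : 𝓑 = compactConvex n ∨ 𝓑 = nonemptyCompactConvex n ∨ 𝓑 = convexBodies n) :
    ¬ ∃ D : Set (E n) → Set (E n), GoodSymmetrization 𝓑 H j D := by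
  by_cases hi2 : i + 2 ≤ n
  · exact Pool.Agent.Results.MP_b62b68_gt.NoSymmetrization.result n i j hi2 hj hjn.le H hH 𝓑 h𝓑
  · rintro ⟨D, hD⟩
    have hbody : ∀ K ∈ convexBodies n, K ∈ 𝓑 := by
      intro K hK
      rcases h𝓑 with rfl | rfl | rfl
      · exact ⟨hK.1, hK.2.1⟩
      · exact ⟨hK.1, hK.2.1, hK.2.2.mono interior_subset⟩
      · exact hK
    have hcc : ∀ K ∈ 𝓑, IsCompact K ∧ Convex ℝ K := by
      intro K hK
      rcases h𝓑 with rfl | rfl | rfl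
      · exact hK
      · exact ⟨hK.1, hK.2.1⟩
      · exact ⟨hK.1, hK.2.1⟩
    obtain ⟨D', hD'⟩ := exists_ext hjn.le H D
      (fun K hK => ⟨(hcc _ (hD.maps _ (hbody K hK)).1).1, (hcc _ (hD.maps _ (hbody K hK)).1).2,
        (hD.maps _ (hbody K hK)).2⟩)
      (fun K hK L hL => hD.monotonic K (hbody K hK) L (hbody L hL))
      (fun K hK => hD.preserves K (hbody K hK))
      (fun K hK => hD.invariant K (hbody K hK))
    exact h n j hj (by omega) H (by omega) D' hD'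

end Pool.Agent.H895R2.SY
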