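import Pool.Agent.H895R2.SY.Defs

/-!
Project SY, task MAX1: the one dimensional maximum formula.
-/

namespace Pool.Agent.H895R2.SY

open MeasureTheory Set Filter Topology
open scoped ENNReal NNReal

private theorem max1_ac {h : ℝ → ℝ} (hK : ∃ K : ℝ≥0, LipschitzWith K h) (a b : ℝ) :
    AbsolutelyContinuousOnInterval h a b := by
  obtain ⟨K, hK⟩ := hK
  exact (hK.lipschitzOnWith (s := uIcc a b)).absolutelyContinuousOnInterval

private theorem max1_up {h : ℝ → ℝ} (hK : ∃ K : ℝ≥0, LipschitzWith K h) {a b : ℝ} (hab : a ≤ b)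
    (hm : MonotoneOn h (Icc a b)) : ∫ t in a..b, |deriv h t| = h b - h a := by
  rw [← (max1_ac hK a b).integral_deriv_eq_sub, intervalIntegral.integral_of_le hab,
    intervalIntegral.integral_of_le hab, integral_Ioc_eq_integral_Ioo,
    integral_Ioc_eq_integral_Ioo]
  apply setIntegral_congr_fun measurableSet_Ioo
  intro t ht
  have h1 : 0 ≤ derivWithin h (Icc a b) t := hm.derivWithin_nonneg
  rw [derivWithin_of_mem_nhds (Icc_mem_nhds ht.1 ht.2)] at h1
  exact abs_of_nonneg h1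

private theorem max1_down {h : ℝ → ℝ} (hK : ∃ K : ℝ≥0, LipschitzWith K h) {a b : ℝ} (hab : a ≤ b)
    (hm : AntitoneOn h (Icc a b)) : ∫ t in a..b, |deriv h t| = h a - h b := by
  rw [show h a - h b = - (h b - h a) by ring, ← (max1_ac hK a b).integral_deriv_eq_sub,
    ← intervalIntegral.integral_neg, intervalIntegral.integral_of_le hab,
    intervalIntegral.integral_of_le hab, integral_Ioc_eq_integral_Ioo,
    integral_Ioc_eq_integral_Ioo]
  apply setIntegral_congr_fun measurableSet_Ioo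
  intro t ht
  have h1 : derivWithin h (Icc a b) t ≤ 0 := hm.derivWithin_nonpos
  rw [derivWithin_of_mem_nhds (Icc_mem_nhds ht.1 ht.2)] at h1
  exact abs_of_nonpos h1

theorem t_MAX1 : S_MAX1 := by
  intro a b h hab hK hc
  have hcont : Continuous h := by
    obtain ⟨K, hK⟩ := hK
    exact hK.continuous
  obtain ⟨t₀, ht₀, hmax⟩ := isCompact_Icc.exists_isMaxOn (nonempty_Icc.2 hab) hcont.continuousOn
  have hmax' : ∀ t ∈ Icc a b, h t ≤ h t₀ := fun t ht => hmax ht
  refine ⟨t₀, ht₀, hmax', ?_⟩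
  have hup : MonotoneOn h (Icc a t₀) := by
    intro x hx y hy hxy
    have h1 := hc.min_le_of_mem_Icc (x := x) (y := t₀) (z := y) ⟨hx.1, hx.2.trans ht₀.2⟩ ht₀
      ⟨hxy, hy.2⟩
    rwa [min_eq_left (hmax' x ⟨hx.1, hx.2.trans ht₀.2⟩)] at h1
  have hdown : AntitoneOn h (Icc t₀ b) := by
    intro x hx y hy hxy
    have h1 := hc.min_le_of_mem_Icc (x := t₀) (y := y) (z := x) ht₀ ⟨ht₀.1.trans hy.1, hy.2⟩
      ⟨hx.1, hxy⟩
    rwa [min_eq_right (hmax' y ⟨ht₀.1.trans hy.1, hy.2⟩)] at h1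
  have hi1 : IntervalIntegrable (fun t => |deriv h t|) volume a t₀ :=
    (max1_ac hK a t₀).intervalIntegrable_deriv.abs
  have hi2 : IntervalIntegrable (fun t => |deriv h t|) volume t₀ b :=
    (max1_ac hK t₀ b).intervalIntegrable_deriv.abs
  rw [← intervalIntegral.integral_add_adjacent_intervals hi1 hi2, max1_up hK ht₀.1 hup,
    max1_down hK ht₀.2 hdown]
  ring

end Pool.Agent.H895R2.SY
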