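import Pool.Agent.H895R2.SY.Defs

/-! MEAS: the radial integrals are measurable. -/

namespace Pool.Agent.H895R2.SY

open MeasureTheory Module Set Filter Topology Metric
open scoped ENNReal NNReal

theorem meas_pt {m : ℕ} : Measurable (fun z : sphere (0 : X (m + 1)) 1 × ℝ =>
    z.2 • (z.1 : X (m + 1))) := by
  have h : Continuous (fun z : sphere (0 : X (m + 1)) 1 × ℝ => z.2 • (z.1 : X (m + 1))) := by
    fun_prop
  exact h.measurable

theorem meas_fd {m : ℕ} (c : X (m + 1) → ℝ) :
    Measurable (fun z : sphere (0 : X (m + 1)) 1 × ℝ =>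
      fderiv ℝ c (z.2 • (z.1 : X (m + 1))) (z.1 : X (m + 1))) := by
  have h1 : Measurable (fun z : sphere (0 : X (m + 1)) 1 × ℝ =>
      fderiv ℝ c (z.2 • (z.1 : X (m + 1)))) := (measurable_fderiv ℝ c).comp meas_pt
  have h2 : Measurable (fun z : sphere (0 : X (m + 1)) 1 × ℝ => (z.1 : X (m + 1))) :=
    measurable_subtype_coe.comp measurable_fst
  have h3 : Continuous (fun w : (X (m + 1) →L[ℝ] ℝ) × X (m + 1) => w.1 w.2) := by
    fun_prop
  exact h3.measurable.comp (h1.prodMk h2)

theorem meas_w {m : ℕ} : Measurable (fun z : sphere (0 : X (m + 1)) 1 × ℝ =>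
    ENNReal.ofReal (z.2 ^ m)) :=
  ENNReal.measurable_ofReal.comp (measurable_snd.pow_const m)

theorem t_MEAS : S_MEAS := by
  rintro m c ⟨K, hK⟩
  constructor
  · have h1 : Measurable (fun z : sphere (0 : X (m + 1)) 1 × ℝ =>
        ENNReal.ofReal (z.2 ^ m) *
          ENNReal.ofReal (√(1 + (fderiv ℝ c (z.2 • (z.1 : X (m + 1))) (z.1 : X (m + 1))) ^ 2))) := by
      refine meas_w.mul (ENNReal.measurable_ofReal.comp ?_)
      exact (measurable_const.add ((meas_fd c).pow_const 2)).sqrt
    exact h1.lintegral_prod_right' (ν := volume.restrict (Ioo (0 : ℝ) 2))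
  · have h1 : Measurable (fun z : sphere (0 : X (m + 1)) 1 × ℝ =>
        ENNReal.ofReal (z.2 ^ m) *
          (if 3 ≤ c (z.2 • (z.1 : X (m + 1))) then
            ENNReal.ofReal (√(1 + (fderiv ℝ c (z.2 • (z.1 : X (m + 1)))
              (z.1 : X (m + 1))) ^ 2) - 1) else 0)) := by
      refine meas_w.mul (Measurable.ite ?_ (ENNReal.measurable_ofReal.comp ?_) measurable_const)
      · exact measurableSet_le measurable_const (hK.continuous.measurable.comp meas_pt)
      · exact (measurable_const.add ((meas_fd c).pow_const 2)).sqrt.sub measurable_const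
    exact h1.lintegral_prod_right' (ν := volume.restrict (Ioo (0 : ℝ) 2))

end Pool.Agent.H895R2.SY
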