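import Mathlib
import Pool.Agent.H895R2.SY.Defs

/-! Project SY: the profiles are admissible. -/

namespace Pool.Agent.H895R2.SY

open MeasureTheory Module Set Filter Topology Metric
open scoped ENNReal NNReal

theorem phadm_lin (c : ℝ) (hc : 0 ≤ c) : ConvexOn ℝ univ (fun u : ℝ => c * u) ∧
    Monotone (fun u : ℝ => c * u) ∧ (∃ K : ℝ≥0, LipschitzWith K (fun u : ℝ => c * u)) := by
  refine ⟨⟨convex_univ, fun x _ y _ a b _ _ _ => ?_⟩, fun x y h => ?_, ⟨c, hc⟩, ?_⟩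
  · simp only [smul_eq_mul]
    apply le_of_eq
    ring
  · exact mul_le_mul_of_nonneg_left h hc
  · refine LipschitzWith.of_dist_le_mul fun x y => ?_
    rw [Real.dist_eq, Real.dist_eq, ← mul_sub, abs_mul, abs_of_nonneg hc]
    exact le_rfl

theorem phadm_max {f g : ℝ → ℝ}
    (hf : ConvexOn ℝ univ f ∧ Monotone f ∧ (∃ K : ℝ≥0, LipschitzWith K f))
    (hg : ConvexOn ℝ univ g ∧ Monotone g ∧ (∃ K : ℝ≥0, LipschitzWith K g)) :
    ConvexOn ℝ univ (fun u => max (f u) (g u)) ∧ Monotone (fun u => max (f u) (g u)) ∧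
      (∃ K : ℝ≥0, LipschitzWith K (fun u => max (f u) (g u))) := by
  obtain ⟨f1, f2, K, f3⟩ := hf
  obtain ⟨g1, g2, K', g3⟩ := hg
  exact ⟨f1.sup g1, f2.max g2, _, f3.max g3⟩

theorem t_PHADM : S_PHADM := by
  intro d p r hp hm hK
  obtain ⟨K, hK⟩ := hK
  refine ⟨⟨convex_closedBall 0 2, fun x _ y _ a b ha hb hab => ?_⟩, K, ?_⟩
  · unfold ph
    have e1 : ‖a • x + b • y‖ - r ≤ a * (‖x‖ - r) + b * (‖y‖ - r) := by
      have h1 : ‖a • x + b • y‖ ≤ a * ‖x‖ + b * ‖y‖ := by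
        refine (norm_add_le _ _).trans (le_of_eq ?_)
        rw [norm_smul, norm_smul, Real.norm_of_nonneg ha, Real.norm_of_nonneg hb]
      have h2 : a * r + b * r = r := by rw [← add_mul, hab, one_mul]
      linarith
    have e2 := hm e1
    have e3 := hp.2 (mem_univ (‖x‖ - r)) (mem_univ (‖y‖ - r)) ha hb hab
    simp only [smul_eq_mul] at e3 ⊢
    have e4 : a * (3 - p (‖x‖ - r)) + b * (3 - p (‖y‖ - r)) =
        3 - (a * p (‖x‖ - r) + b * p (‖y‖ - r)) := by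
      have : (3 : ℝ) = a * 3 + b * 3 := by rw [← add_mul, hab, one_mul]
      linarith
    rw [e4]
    linarith
  · refine LipschitzWith.of_dist_le_mul fun x y => ?_
    unfold ph
    have h1 := hK.dist_le_mul (‖x‖ - r) (‖y‖ - r)
    rw [Real.dist_eq] at h1 ⊢
    have h2 : |3 - p (‖x‖ - r) - (3 - p (‖y‖ - r))| = |p (‖x‖ - r) - p (‖y‖ - r)| := by
      rw [← abs_neg]
      congr 1
      ring
    rw [h2]
    refine h1.trans (mul_le_mul_of_nonneg_left ?_ K.2)
    rw [Real.dist_eq, dist_eq_norm]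
    have h3 : ‖x‖ - r - (‖y‖ - r) = ‖x‖ - ‖y‖ := by ring
    rw [h3]
    exact abs_norm_sub_norm_le x y

theorem t_PADM : S_PADM := by
  refine ⟨?_, ?_, fun c hc => phadm_lin c hc⟩
  · exact phadm_max (phadm_lin (3 / 4) (by norm_num)) (phadm_lin (4 / 3) (by norm_num))
  · have h0 : ConvexOn ℝ univ (fun _ : ℝ => (0 : ℝ)) ∧ Monotone (fun _ : ℝ => (0 : ℝ)) ∧
        (∃ K : ℝ≥0, LipschitzWith K (fun _ : ℝ => (0 : ℝ))) := by
      have := phadm_lin 0 le_rfl
      simpa using this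
    exact phadm_max h0 (phadm_lin (4 / 3) (by norm_num))

end Pool.Agent.H895R2.SY
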