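import Pool.Agent.H895R2.SY.Defs

/-! Task PIF: factorisation through `Pi`. -/

namespace Pool.Agent.H895R2.SY

open MeasureTheory Module Set Filter Topology Metric
open scoped ENNReal NNReal
open Pool.Agent.Results.MP_b62b68_gt.NoSymmetrization

/-- a normalised kernel vector -/
theorem PIF_ker (m : ℕ) (B : X (m + 1) × ℝ →ₗ[ℝ] X (m + 1)) :
    ∃ (u : X (m + 1)) (lam tau : ℝ), ‖u‖ = 1 ∧ 0 ≤ lam ∧ lam ^ 2 + tau ^ 2 = 1 ∧
      B (lam • u, tau) = 0 := by
  have h1 : LinearMap.ker B ≠ ⊥ := LinearMap.ker_ne_bot_of_finrank_lt (by simp)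
  obtain ⟨⟨wh, we⟩, hw, hw0⟩ := (Submodule.ne_bot_iff _).1 h1
  rw [LinearMap.mem_ker] at hw
  have hpos : 0 < ‖wh‖ ^ 2 + we ^ 2 := by
    rcases eq_or_ne wh 0 with h | h
    · have h2 : we ≠ 0 := by
        intro h3
        exact hw0 (by rw [h, h3]; rfl)
      have := sq_pos_of_ne_zero h2
      positivity
    · have := norm_pos_iff.2 h
      positivity
  obtain ⟨ν, hν⟩ : ∃ ν : ℝ, ν = Real.sqrt (‖wh‖ ^ 2 + we ^ 2) := ⟨_, rfl⟩
  have hν0 : 0 < ν := by rw [hν]; exact Real.sqrt_pos.2 hpos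
  have hν2 : ν ^ 2 = ‖wh‖ ^ 2 + we ^ 2 := by rw [hν]; exact Real.sq_sqrt hpos.le
  obtain ⟨u, hu, huw⟩ : ∃ u : X (m + 1), ‖u‖ = 1 ∧ wh = ‖wh‖ • u := by
    rcases eq_or_ne wh 0 with h | h
    · refine ⟨EuclideanSpace.single 0 1, by simp, ?_⟩
      rw [h, norm_zero, zero_smul]
    · refine ⟨‖wh‖⁻¹ • wh, ?_, ?_⟩
      · rw [norm_smul, norm_inv, norm_norm, inv_mul_cancel₀ (norm_ne_zero_iff.2 h)]
      · rw [smul_smul, mul_inv_cancel₀ (norm_ne_zero_iff.2 h), one_smul]
  refine ⟨u, ‖wh‖ / ν, we / ν, hu, by positivity, ?_, ?_⟩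
  · field_simp
    rw [hν2]
  · have h2 : (((‖wh‖ / ν) • u, we / ν) : X (m + 1) × ℝ) = ν⁻¹ • (wh, we) := by
      refine Prod.ext ?_ ?_
      · change (‖wh‖ / ν) • u = ν⁻¹ • wh
        conv_rhs => rw [huw]
        rw [smul_smul]
        congr 1
        ring
      · change we / ν = ν⁻¹ * we
        ring
    rw [h2, map_smul, hw, smul_zero]

/-- the factor -/
noncomputable def PIF_B' {m : ℕ} (B : X (m + 1) × ℝ →ₗ[ℝ] X (m + 1)) (u : X (m + 1))
    (lam tau : ℝ) : X (m + 1) →ₗ[ℝ] X (m + 1) where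
  toFun x := B (x - (inner ℝ u x) • u, 0) + (inner ℝ u x) • B ((-tau) • u, lam)
  map_add' x y := by
    have h : ((x + y - (inner ℝ u (x + y)) • u, (0 : ℝ)) : X (m + 1) × ℝ) =
        (x - (inner ℝ u x) • u, 0) + (y - (inner ℝ u y) • u, 0) := by
      refine Prod.ext ?_ ?_
      · change x + y - (inner ℝ u (x + y)) • u =
          (x - (inner ℝ u x) • u) + (y - (inner ℝ u y) • u)
        rw [inner_add_right]
        module
      · change (0 : ℝ) = 0 + 0
        rw [add_zero]
    rw [h, map_add, inner_add_right, add_smul]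
    abel
  map_smul' c x := by
    have h : ((c • x - (inner ℝ u (c • x)) • u, (0 : ℝ)) : X (m + 1) × ℝ) =
        c • (x - (inner ℝ u x) • u, 0) := by
      refine Prod.ext ?_ ?_
      · change c • x - (inner ℝ u (c • x)) • u = c • (x - (inner ℝ u x) • u)
        rw [inner_smul_right]
        module
      · change (0 : ℝ) = c * 0
        rw [mul_zero]
    rw [h, map_smul, inner_smul_right, RingHom.id_apply, smul_add, mul_smul]

theorem t_PIF : S_PIF := by
  intro m B
  obtain ⟨u, lam, tau, hu, hlam, hlt, hB⟩ := PIF_ker m B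
  refine ⟨u, lam, tau, PIF_B' B u lam tau, hu, hlam, ?_⟩
  rintro ⟨x, s⟩
  obtain ⟨t, ht⟩ : ∃ t : ℝ, t = inner ℝ u x := ⟨_, rfl⟩
  have huu : inner ℝ u u = (1 : ℝ) := by
    rw [real_inner_self_eq_norm_sq, hu]
    norm_num
  have hin : inner ℝ u (Pi u lam tau (x, s)) = lam * s - tau * t := by
    unfold Pi
    simp only
    rw [inner_add_right, inner_smul_right, huu, ← ht]
    ring
  change B (x, s) = B (Pi u lam tau (x, s) - (inner ℝ u (Pi u lam tau (x, s))) • u, 0) +
    (inner ℝ u (Pi u lam tau (x, s))) • B ((-tau) • u, lam)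
  rw [hin, ← map_smul, ← map_add]
  have h2 : ((x, s) : X (m + 1) × ℝ) =
      ((Pi u lam tau (x, s) - (lam * s - tau * t) • u, 0) +
        (lam * s - tau * t) • (((-tau) • u, lam) : X (m + 1) × ℝ)) +
        (lam * t + tau * s) • (lam • u, tau) := by
    refine Prod.ext ?_ ?_
    · change x = (x + (lam * s - (tau + 1) * inner ℝ u x) • u - (lam * s - tau * t) • u +
        (lam * s - tau * t) • ((-tau) • u)) + (lam * t + tau * s) • (lam • u)
      rw [← ht]
      have e : (lam * s - (tau + 1) * t) - (lam * s - tau * t) + (lam * s - tau * t) * (-tau) +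
          (lam * t + tau * s) * lam = 0 := by
        linear_combination t * hlt
      have e2 : (x + (lam * s - (tau + 1) * t) • u - (lam * s - tau * t) • u +
          (lam * s - tau * t) • ((-tau) • u)) + (lam * t + tau * s) • (lam • u) =
          x + ((lam * s - (tau + 1) * t) - (lam * s - tau * t) + (lam * s - tau * t) * (-tau) +
          (lam * t + tau * s) * lam) • u := by module
      rw [e2, e, zero_smul, add_zero]
    · change s = (0 + (lam * s - tau * t) * lam) + (lam * t + tau * s) * tau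
      linear_combination (-s) * hlt
  conv_lhs => rw [h2]
  rw [map_add, map_smul B (lam * t + tau * s), hB, smul_zero, add_zero]

end Pool.Agent.H895R2.SY
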