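import Pool.Agent.H895R2.SY.Defs

/-!
# Task PV: the projection identity for a general linear map
-/

namespace Pool.Agent.H895R2.SY

open MeasureTheory Module Set Filter Topology Metric
open scoped ENNReal NNReal

theorem PV_image {m : ℕ} {B : X (m + 1) × ℝ →ₗ[ℝ] X (m + 1)} {u : X (m + 1)} {lam tau : ℝ}
    {B' : X (m + 1) →ₗ[ℝ] X (m + 1)} (hB : ∀ p, B p = B' (Pi u lam tau p))
    (S : Set (X (m + 1) × ℝ)) :
    volume (B '' S) = ENNReal.ofReal |LinearMap.det B'| * volume (Pi u lam tau '' S) := by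
  have e : B '' S = B' '' (Pi u lam tau '' S) := by
    rw [Set.image_image]
    exact Set.image_congr fun p _ => hB p
  rw [e, Measure.addHaar_image_linearMap]

theorem PV_int {m : ℕ} {B : X (m + 1) × ℝ →ₗ[ℝ] X (m + 1)} {u : X (m + 1)} {lam tau D : ℝ}
    (hD : 0 ≤ D) (hJ : ∀ ℓ : X (m + 1) →L[ℝ] ℝ, JJ B ℓ = D * |lam * ℓ u - tau|)
    (f g : X (m + 1) → ℝ) :
    ∫⁻ x in ball (0 : X (m + 1)) 2,
      (ENNReal.ofReal (JJ B (fderiv ℝ f x)) + ENNReal.ofReal (JJ B (-fderiv ℝ g x))) =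
    ENNReal.ofReal D * ∫⁻ x in ball (0 : X (m + 1)) 2,
      (ENNReal.ofReal |lam * fderiv ℝ f x u - tau| +
        ENNReal.ofReal |lam * fderiv ℝ g x u + tau|) := by
  rw [← lintegral_const_mul' _ _ ENNReal.ofReal_ne_top]
  refine lintegral_congr fun x => ?_
  rw [hJ, hJ, ENNReal.ofReal_mul hD, ENNReal.ofReal_mul hD, mul_add]
  congr 3
  have e : lam * (-fderiv ℝ g x) u - tau = -(lam * fderiv ℝ g x u + tau) := by
    rw [ContinuousLinearMap.neg_apply]; ring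
  rw [e, abs_neg]

theorem t_PV (h1 : S_PIF) (h2 : S_PIJ) (h3 : S_PVB) : S_PV := by
  intro m B f₁ g₁ f₂ g₂ hp1 hp2 hb
  obtain ⟨u, lam, tau, B', hu, hl, hB⟩ := h1 m B
  have hJ := h2 m B u lam tau B' hu hB
  have key := h3 m u lam tau hu hl f₁ g₁ f₂ g₂ hp1 hp2 hb
  rw [PV_image hB, PV_image hB, PV_int (abs_nonneg _) hJ, PV_int (abs_nonneg _) hJ,
    mul_left_comm (2⁻¹ : ℝ≥0∞), ← mul_add, key, mul_add, mul_left_comm (2⁻¹ : ℝ≥0∞)]

end Pool.Agent.H895R2.SY
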