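import Pool.Agent.H895R2.SY.Defs

/-!
# PVB: the projection identity for `Pi` (helper847)
-/

namespace Pool.Agent.H895R2.SY

open MeasureTheory Module Set Filter Topology Metric
open scoped ENNReal NNReal

theorem PVB_Pi_continuous {d : ℕ} (u : X d) (lam tau : ℝ) : Continuous (Pi u lam tau) := by
  unfold Pi
  fun_prop

section

variable {m : ℕ} {u : X (m + 1)} {ψ : ((Fin m → ℝ) × ℝ) ≃ₗ[ℝ] X (m + 1)}

theorem PVB_norm (hu : ‖u‖ = 1) (h1 : ∀ y t, ψ (y, t) = ψ (y, 0) + t • u)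
    (h2 : ∀ y, inner ℝ u (ψ (y, 0)) = 0) (y : Fin m → ℝ) (t : ℝ) :
    ‖ψ (y, t)‖ ^ 2 = ‖ψ (y, 0)‖ ^ 2 + t ^ 2 := by
  rw [h1 y t, norm_add_sq_real, inner_smul_right, real_inner_comm, h2 y, norm_smul, hu]
  simp

theorem PVB_Pi (hu : ‖u‖ = 1) (h1 : ∀ y t, ψ (y, t) = ψ (y, 0) + t • u)
    (h2 : ∀ y, inner ℝ u (ψ (y, 0)) = 0) (lam tau : ℝ) (y : Fin m → ℝ) (t s : ℝ) :
    Pi u lam tau (ψ (y, t), s) = ψ (y, lam * s - tau * t) := by
  have h3 : inner ℝ u (ψ (y, t)) = t := by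
    rw [h1 y t, inner_add_right, h2 y, inner_smul_right, real_inner_self_eq_norm_sq, hu]
    ring
  unfold Pi
  simp only
  rw [h3, h1 y t, h1 y (lam * s - tau * t), add_assoc, ← add_smul]
  congr 2
  ring

theorem PVB_slice (hu : ‖u‖ = 1) (h1 : ∀ y t, ψ (y, t) = ψ (y, 0) + t • u)
    (h2 : ∀ y, inner ℝ u (ψ (y, 0)) = 0) (lam tau : ℝ) (f g : X (m + 1) → ℝ)
    (y : Fin m → ℝ) :
    {r : ℝ | ψ (y, r) ∈ Pi u lam tau '' Sg f g} =
      {r : ℝ | ∃ t s, ‖ψ (y, t)‖ ≤ 2 ∧ -g (ψ (y, t)) ≤ s ∧ s ≤ f (ψ (y, t)) ∧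
        r = lam * s - tau * t} := by
  ext r
  simp only [Set.mem_setOf_eq, Set.mem_image]
  constructor
  · rintro ⟨⟨x, s⟩, hxs, hr⟩
    obtain ⟨⟨y', t⟩, rfl⟩ := ψ.surjective x
    rw [PVB_Pi hu h1 h2] at hr
    have h3 := ψ.injective hr
    simp only [Prod.mk.injEq] at h3
    obtain ⟨rfl, h4⟩ := h3
    exact ⟨t, s, hxs.1, hxs.2.1, hxs.2.2, h4.symm⟩
  · rintro ⟨t, s, ha, hb, hc, rfl⟩
    exact ⟨(ψ (y, t), s), ⟨ha, hb, hc⟩, PVB_Pi hu h1 h2 lam tau y t s⟩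

theorem PVB_ball (hu : ‖u‖ = 1) (h1 : ∀ y t, ψ (y, t) = ψ (y, 0) + t • u)
    (h2 : ∀ y, inner ℝ u (ψ (y, 0)) = 0) (y : Fin m → ℝ) (hy : ‖ψ (y, 0)‖ ≤ 2) (t : ℝ) :
    (‖ψ (y, t)‖ ≤ 2 ↔ -√(4 - ‖ψ (y, 0)‖ ^ 2) ≤ t ∧ t ≤ √(4 - ‖ψ (y, 0)‖ ^ 2)) ∧
    (‖ψ (y, t)‖ < 2 ↔ -√(4 - ‖ψ (y, 0)‖ ^ 2) < t ∧ t < √(4 - ‖ψ (y, 0)‖ ^ 2)) := by
  have h3 := PVB_norm hu h1 h2 y t
  have h4 : (0 : ℝ) ≤ 4 - ‖ψ (y, 0)‖ ^ 2 := by
    have := norm_nonneg (ψ (y, 0))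
    nlinarith
  constructor
  · rw [← abs_le, ← Real.sqrt_sq_eq_abs, Real.sqrt_le_sqrt_iff h4]
    rw [← abs_of_nonneg (norm_nonneg (ψ (y, t))), ← abs_of_pos (two_pos (α := ℝ)), ← sq_le_sq, h3]
    constructor <;> intro h <;> linarith
  · rw [← abs_lt, ← Real.sqrt_sq_eq_abs, Real.sqrt_lt_sqrt_iff (sq_nonneg t)]
    rw [← abs_of_nonneg (norm_nonneg (ψ (y, t))), ← abs_of_pos (two_pos (α := ℝ)), ← sq_lt_sq, h3]
    constructor <;> intro h <;> linarith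

theorem PVB_lip (h1 : ∀ y t, ψ (y, t) = ψ (y, 0) + t • u) (hu : ‖u‖ = 1) (f : X (m + 1) → ℝ)
    (hf : ∃ K : ℝ≥0, LipschitzWith K f) (y : Fin m → ℝ) :
    ∃ K : ℝ≥0, LipschitzWith K (fun t => f (ψ (y, t))) := by
  obtain ⟨K, hK⟩ := hf
  refine ⟨K * 1, hK.comp (LipschitzWith.of_dist_le_mul fun s t => ?_)⟩
  rw [h1 y s, h1 y t, dist_add_left, dist_eq_norm, ← sub_smul, norm_smul, hu, Real.dist_eq]
  simp

theorem PVB_conc (hu : ‖u‖ = 1) (h1 : ∀ y t, ψ (y, t) = ψ (y, 0) + t • u)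
    (h2 : ∀ y, inner ℝ u (ψ (y, 0)) = 0) (f : X (m + 1) → ℝ)
    (hf : ConcaveOn ℝ (closedBall 0 2) f) (y : Fin m → ℝ) (hy : ‖ψ (y, 0)‖ ≤ 2) :
    ConcaveOn ℝ (Icc (-√(4 - ‖ψ (y, 0)‖ ^ 2)) (√(4 - ‖ψ (y, 0)‖ ^ 2)))
      (fun t => f (ψ (y, t))) := by
  refine ⟨convex_Icc _ _, fun s hs t ht a b ha hb hab => ?_⟩
  have e : ψ (y, a • s + b • t) = a • ψ (y, s) + b • ψ (y, t) := by
    rw [h1 y (a • s + b • t), h1 y s, h1 y t, smul_add, smul_add, smul_smul, smul_smul, add_smul]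
    have : ψ (y, 0) = a • ψ (y, 0) + b • ψ (y, 0) := by
      rw [← add_smul, hab, one_smul]
    nth_rewrite 1 [this]
    simp only [smul_eq_mul]
    abel
  simp only [e]
  refine hf.2 ?_ ?_ ha hb hab
  · rw [mem_closedBall_zero_iff]
    exact (PVB_ball hu h1 h2 y hy s).1.2 ⟨hs.1, hs.2⟩
  · rw [mem_closedBall_zero_iff]
    exact (PVB_ball hu h1 h2 y hy t).1.2 ⟨ht.1, ht.2⟩

theorem PVB_deriv (h1 : ∀ y t, ψ (y, t) = ψ (y, 0) + t • u) (f : X (m + 1) → ℝ)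
    (y : Fin m → ℝ) (t : ℝ) (hf : DifferentiableAt ℝ f (ψ (y, t))) :
    deriv (fun t => f (ψ (y, t))) t = fderiv ℝ f (ψ (y, t)) u := by
  have h3 : HasDerivAt (fun t : ℝ => ψ (y, t)) u t := by
    have h4 : HasDerivAt (fun t : ℝ => ψ (y, 0) + t • u) ((1 : ℝ) • u) t :=
      ((hasDerivAt_id t).smul_const u).const_add _
    rw [one_smul] at h4
    refine h4.congr_of_eventuallyEq (Eventually.of_forall fun s => h1 y s)
  exact (hf.hasFDerivAt.comp_hasDerivAt t h3).deriv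

/-- the integrand -/
noncomputable def PVB_h (u : X (m + 1)) (lam tau : ℝ) (f g : X (m + 1) → ℝ) (x : X (m + 1)) :
    ℝ≥0∞ :=
  ENNReal.ofReal |lam * fderiv ℝ f x u - tau| + ENNReal.ofReal |lam * fderiv ℝ g x u + tau|

theorem PVB_h_meas (lam tau : ℝ) (f g : X (m + 1) → ℝ) : Measurable (PVB_h u lam tau f g) := by
  unfold PVB_h
  have hf : Measurable (fun x => fderiv ℝ f x u) := measurable_fderiv_apply_const ℝ f u
  have hg : Measurable (fun x => fderiv ℝ g x u) := measurable_fderiv_apply_const ℝ g u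
  exact ((hf.const_mul lam).sub_const tau).norm.ennreal_ofReal.add
    ((hg.const_mul lam).add_const tau).norm.ennreal_ofReal

/-- the slice of the integral -/
noncomputable def PVB_I (ψ : ((Fin m → ℝ) × ℝ) ≃ₗ[ℝ] X (m + 1)) (u : X (m + 1)) (lam tau : ℝ)
    (f g : X (m + 1) → ℝ) (y : Fin m → ℝ) : ℝ≥0∞ :=
  ∫⁻ t, (ball (0 : X (m + 1)) 2).indicator (PVB_h u lam tau f g) (ψ (y, t))

theorem PVB_I_meas (h3 : MeasurePreserving ψ (volume.prod volume) volume) (lam tau : ℝ)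
    (f g : X (m + 1) → ℝ) : Measurable (PVB_I ψ u lam tau f g) := by
  have hm : Measurable (fun p : (Fin m → ℝ) × ℝ =>
      (ball (0 : X (m + 1)) 2).indicator (PVB_h u lam tau f g) (ψ p)) :=
    ((PVB_h_meas lam tau f g).indicator measurableSet_ball).comp h3.measurable
  exact hm.lintegral_prod_right'

theorem PVB_I_int (h3 : MeasurePreserving ψ (volume.prod volume) volume) (lam tau : ℝ)
    (f g : X (m + 1) → ℝ) :
    ∫⁻ x in ball (0 : X (m + 1)) 2, PVB_h u lam tau f g x = ∫⁻ y, PVB_I ψ u lam tau f g y := by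
  have hm := (PVB_h_meas (u := u) lam tau f g).indicator
    (measurableSet_ball (x := (0 : X (m + 1))) (ε := 2))
  have hm' : Measurable (fun p : (Fin m → ℝ) × ℝ =>
      (ball (0 : X (m + 1)) 2).indicator (PVB_h u lam tau f g) (ψ p)) := hm.comp h3.measurable
  rw [← lintegral_indicator measurableSet_ball, ← h3.lintegral_comp hm,
    lintegral_prod _ hm'.aemeasurable]
  rfl

theorem PVB_int (b lam tau : ℝ) (hb : 0 ≤ b) (F G : ℝ → ℝ) (hF : ∃ K : ℝ≥0, LipschitzWith K F)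
    (hG : ∃ K : ℝ≥0, LipschitzWith K G) :
    0 ≤ ∫ t in (-b)..b, (|lam * deriv F t - tau| + |lam * deriv G t + tau|) ∧
    ENNReal.ofReal (∫ t in (-b)..b, (|lam * deriv F t - tau| + |lam * deriv G t + tau|)) =
      ∫⁻ t in Ioo (-b) b,
        (ENNReal.ofReal |lam * deriv F t - tau| + ENNReal.ofReal |lam * deriv G t + tau|) := by
  obtain ⟨K, hK⟩ := hF
  obtain ⟨K', hK'⟩ := hG
  have hbb : -b ≤ b := by linarith
  have hnn : ∀ t, 0 ≤ |lam * deriv F t - tau| + |lam * deriv G t + tau| := fun t => by positivity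
  refine ⟨intervalIntegral.integral_nonneg_of_forall hbb hnn, ?_⟩
  have hm : Measurable (fun t => |lam * deriv F t - tau| + |lam * deriv G t + tau|) := by
    refine Measurable.add ?_ ?_
    · exact (((measurable_deriv F).const_mul lam).sub_const tau).norm
    · exact (((measurable_deriv G).const_mul lam).add_const tau).norm
  have hbd : ∀ t, ‖|lam * deriv F t - tau| + |lam * deriv G t + tau|‖ ≤
      (|lam| * K + |tau|) + (|lam| * K' + |tau|) := by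
    intro t
    rw [Real.norm_of_nonneg (hnn t)]
    have e1 : |deriv F t| ≤ K := norm_deriv_le_of_lipschitz hK
    have e2 : |deriv G t| ≤ K' := norm_deriv_le_of_lipschitz hK'
    have e3 : |lam * deriv F t| ≤ |lam| * K := by
      rw [abs_mul]
      exact mul_le_mul_of_nonneg_left e1 (abs_nonneg _)
    have e4 : |lam * deriv G t| ≤ |lam| * K' := by
      rw [abs_mul]
      exact mul_le_mul_of_nonneg_left e2 (abs_nonneg _)
    have e5 : |lam * deriv F t - tau| ≤ |lam * deriv F t| + |tau| := abs_sub _ _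
    have e6 : |lam * deriv G t + tau| ≤ |lam * deriv G t| + |tau| := abs_add_le _ _
    linarith
  have hi : IntegrableOn (fun t => |lam * deriv F t - tau| + |lam * deriv G t + tau|)
      (Ioc (-b) b) volume :=
    Integrable.of_bound hm.aestronglyMeasurable _ (Eventually.of_forall hbd)
  rw [intervalIntegral.integral_of_le hbb,
    ofReal_integral_eq_lintegral_ofReal hi (Eventually.of_forall hnn),
    ← restrict_Ioo_eq_restrict_Ioc]
  refine lintegral_congr fun t => ?_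
  rw [ENNReal.ofReal_add (abs_nonneg _) (abs_nonneg _)]

theorem PVB_main (hS : S_SL) (hu : ‖u‖ = 1) (h1 : ∀ y t, ψ (y, t) = ψ (y, 0) + t • u)
    (h2 : ∀ y, inner ℝ u (ψ (y, 0)) = 0) (lam tau : ℝ) (hlam : 0 ≤ lam) (f g : X (m + 1) → ℝ)
    (hp : Pair f g) (y : Fin m → ℝ) (hy : ‖ψ (y, 0)‖ ≤ 2)
    (hdf : ∀ᵐ t, DifferentiableAt ℝ f (ψ (y, t))) (hdg : ∀ᵐ t, DifferentiableAt ℝ g (ψ (y, t))) :
    ∃ J : ℝ, 0 ≤ J ∧ PVB_I ψ u lam tau f g y = ENNReal.ofReal J ∧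
      volume {r : ℝ | ψ (y, r) ∈ Pi u lam tau '' Sg f g} =
        ENNReal.ofReal ((lam * (f (ψ (y, -√(4 - ‖ψ (y, 0)‖ ^ 2))) +
          g (ψ (y, -√(4 - ‖ψ (y, 0)‖ ^ 2)))) +
          lam * (f (ψ (y, √(4 - ‖ψ (y, 0)‖ ^ 2))) + g (ψ (y, √(4 - ‖ψ (y, 0)‖ ^ 2)))) + J) / 2) := by
  set b : ℝ := √(4 - ‖ψ (y, 0)‖ ^ 2) with hb
  have hb0 : 0 ≤ b := Real.sqrt_nonneg _
  have lf := PVB_lip h1 hu f hp.left.lip y
  have lg := PVB_lip h1 hu g hp.right.lip y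
  obtain ⟨e1, e2⟩ := PVB_int b lam tau hb0 (fun t => f (ψ (y, t))) (fun t => g (ψ (y, t))) lf lg
  refine ⟨_, e1, ?_, ?_⟩
  · rw [e2]
    unfold PVB_I
    have e3 : ∀ t, (ball (0 : X (m + 1)) 2).indicator (PVB_h u lam tau f g) (ψ (y, t)) =
        (Ioo (-b) b).indicator (fun t => PVB_h u lam tau f g (ψ (y, t))) t := by
      intro t
      by_cases ht : t ∈ Ioo (-b) b
      · rw [Set.indicator_of_mem ht, Set.indicator_of_mem]
        rw [mem_ball_zero_iff]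
        exact (PVB_ball hu h1 h2 y hy t).2.2 ⟨ht.1, ht.2⟩
      · rw [Set.indicator_of_notMem ht, Set.indicator_of_notMem]
        rw [mem_ball_zero_iff]
        intro h
        exact ht ((PVB_ball hu h1 h2 y hy t).2.1 h)
    rw [lintegral_congr e3, lintegral_indicator measurableSet_Ioo]
    refine lintegral_congr_ae (ae_restrict_of_ae ?_)
    filter_upwards [hdf, hdg] with t ht1 ht2
    unfold PVB_h
    rw [PVB_deriv h1 f y t ht1, PVB_deriv h1 g y t ht2]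
  · rw [PVB_slice hu h1 h2]
    have e3 := hS b lam tau (fun t => f (ψ (y, t))) (fun t => g (ψ (y, t))) hb0 hlam lf lg
      (PVB_conc hu h1 h2 f hp.left.conc y hy) (PVB_conc hu h1 h2 g hp.right.conc y hy)
      (fun t ht => hp.nonneg _ ((PVB_ball hu h1 h2 y hy t).1.2 ⟨ht.1, ht.2⟩))
    rw [← e3]
    congr 1
    ext r
    simp only [Set.mem_setOf_eq]
    constructor
    · rintro ⟨t, s, ha, hb', hc, hr⟩
      obtain ⟨h5, h6⟩ := (PVB_ball hu h1 h2 y hy t).1.1 ha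
      exact ⟨t, s, h5, h6, hb', hc, hr⟩
    · rintro ⟨t, s, h5, h6, hb', hc, hr⟩
      exact ⟨t, s, (PVB_ball hu h1 h2 y hy t).1.2 ⟨h5, h6⟩, hb', hc, hr⟩

end

theorem t_PVB (hF : S_FUB) (hS : S_SL) (hN : S_SGNC) : S_PVB := by
  intro m u lam tau hu hlam f₁ g₁ f₂ g₂ hp₁ hp₂ hbd
  obtain ⟨ψ, h1, h2, h3⟩ := hF m u hu
  have hvol : ∀ f g : X (m + 1) → ℝ, Pair f g → MeasurableSet (Pi u lam tau '' Sg f g) := by
    intro f g hp
    exact ((hN (m + 1) f g hp).1.image (PVB_Pi_continuous u lam tau)).measurableSet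
  have hvol2 : ∀ f g : X (m + 1) → ℝ, Pair f g → volume (Pi u lam tau '' Sg f g) =
      ∫⁻ y : Fin m → ℝ, volume {r : ℝ | ψ (y, r) ∈ Pi u lam tau '' Sg f g} := by
    intro f g hp
    rw [← h3.measure_preimage (hvol f g hp).nullMeasurableSet,
      Measure.prod_apply (h3.measurable (hvol f g hp))]
    rfl
  have hmeas : ∀ f g : X (m + 1) → ℝ, Pair f g → Measurable
      (fun y : Fin m → ℝ => volume {r : ℝ | ψ (y, r) ∈ Pi u lam tau '' Sg f g}) := by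
    intro f g hp
    exact measurable_measure_prodMk_left (h3.measurable (hvol f g hp))
  have hdiff : ∀ f : X (m + 1) → ℝ, Adm f → ∀ᵐ y : Fin m → ℝ, ∀ᵐ t : ℝ,
      DifferentiableAt ℝ f (ψ (y, t)) := by
    intro f hf
    obtain ⟨K, hK⟩ := hf.lip
    have h4 : ∀ᵐ x : X (m + 1), DifferentiableAt ℝ f x := hK.ae_differentiableAt
    have h5 : ∀ᵐ p ∂((volume : Measure (Fin m → ℝ)).prod (volume : Measure ℝ)),
        DifferentiableAt ℝ f (ψ p) := h3.quasiMeasurePreserving.ae h4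
    exact Measure.ae_ae_of_ae_prod h5
  show volume (Pi u lam tau '' Sg f₁ g₁) + 2⁻¹ * ∫⁻ x in ball (0 : X (m + 1)) 2,
      PVB_h u lam tau f₂ g₂ x =
    volume (Pi u lam tau '' Sg f₂ g₂) + 2⁻¹ * ∫⁻ x in ball (0 : X (m + 1)) 2,
      PVB_h u lam tau f₁ g₁ x
  rw [hvol2 f₁ g₁ hp₁, hvol2 f₂ g₂ hp₂, PVB_I_int h3, PVB_I_int h3,
    ← lintegral_const_mul _ (PVB_I_meas h3 lam tau f₂ g₂),
    ← lintegral_const_mul _ (PVB_I_meas h3 lam tau f₁ g₁),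
    ← lintegral_add_left (hmeas f₁ g₁ hp₁), ← lintegral_add_left (hmeas f₂ g₂ hp₂)]
  refine lintegral_congr_ae ?_
  filter_upwards [hdiff f₁ hp₁.left, hdiff g₁ hp₁.right, hdiff f₂ hp₂.left, hdiff g₂ hp₂.right]
    with y d1 d2 d3 d4
  by_cases hy : ‖ψ (y, 0)‖ ≤ 2
  · obtain ⟨J₁, hJ₁, a1, a2⟩ := PVB_main hS hu h1 h2 lam tau hlam f₁ g₁ hp₁ y hy d1 d2
    obtain ⟨J₂, hJ₂, b1, b2⟩ := PVB_main hS hu h1 h2 lam tau hlam f₂ g₂ hp₂ y hy d3 d4
    rw [a1, a2, b1, b2]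
    set b : ℝ := √(4 - ‖ψ (y, 0)‖ ^ 2) with hb
    have h4 : (0 : ℝ) ≤ 4 - ‖ψ (y, 0)‖ ^ 2 := by
      have := norm_nonneg (ψ (y, 0))
      nlinarith
    have hb2 : b ^ 2 = 4 - ‖ψ (y, 0)‖ ^ 2 := Real.sq_sqrt h4
    have n1 : ‖ψ (y, b)‖ = 2 := by
      have := PVB_norm hu h1 h2 y b
      rw [hb2] at this
      have h5 : ‖ψ (y, b)‖ ^ 2 = 2 ^ 2 := by rw [this]; ring
      exact (pow_left_inj₀ (norm_nonneg _) two_pos.le two_ne_zero).1 h5
    have n2 : ‖ψ (y, -b)‖ = 2 := by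
      have := PVB_norm hu h1 h2 y (-b)
      rw [neg_sq, hb2] at this
      have h5 : ‖ψ (y, -b)‖ ^ 2 = 2 ^ 2 := by rw [this]; ring
      exact (pow_left_inj₀ (norm_nonneg _) two_pos.le two_ne_zero).1 h5
    rw [hbd _ n1, hbd _ n2]
    have p1 := hp₂.nonneg _ n1.le
    have p2 := hp₂.nonneg _ n2.le
    have c0 : 0 ≤ lam * (f₂ (ψ (y, -b)) + g₂ (ψ (y, -b))) +
        lam * (f₂ (ψ (y, b)) + g₂ (ψ (y, b))) := by positivity
    set c : ℝ := lam * (f₂ (ψ (y, -b)) + g₂ (ψ (y, -b))) +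
        lam * (f₂ (ψ (y, b)) + g₂ (ψ (y, b))) with hc
    have h2' : (2 : ℝ≥0∞)⁻¹ = ENNReal.ofReal (1 / 2) := by
      rw [one_div, ENNReal.ofReal_inv_of_pos two_pos, ENNReal.ofReal_ofNat]
    rw [h2', ← ENNReal.ofReal_mul (by norm_num), ← ENNReal.ofReal_mul (by norm_num),
      ← ENNReal.ofReal_add (by positivity) (by positivity),
      ← ENNReal.ofReal_add (by positivity) (by positivity)]
    congr 1
    ring
  · have hempty : ∀ t, ¬ ‖ψ (y, t)‖ ≤ 2 := by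
      intro t ht
      have h4 := PVB_norm hu h1 h2 y t
      have h5 : ‖ψ (y, 0)‖ ^ 2 ≤ ‖ψ (y, t)‖ ^ 2 := by rw [h4]; nlinarith [sq_nonneg t]
      have h6 := (pow_le_pow_iff_left₀ (norm_nonneg _) (norm_nonneg _) two_ne_zero).1 h5
      exact hy (h6.trans ht)
    have s0 : ∀ f g : X (m + 1) → ℝ, {r : ℝ | ψ (y, r) ∈ Pi u lam tau '' Sg f g} = ∅ := by
      intro f g
      rw [PVB_slice hu h1 h2]
      ext r
      simp only [Set.mem_setOf_eq, Set.mem_empty_iff_false, iff_false]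
      rintro ⟨t, s, ha, -⟩
      exact hempty t ha
    have i0 : ∀ f g : X (m + 1) → ℝ, PVB_I ψ u lam tau f g y = 0 := by
      intro f g
      unfold PVB_I
      rw [← lintegral_zero (α := ℝ) (μ := volume)]
      refine lintegral_congr fun t => ?_
      rw [Set.indicator_of_notMem]
      rw [mem_ball_zero_iff]
      exact fun h => hempty t h.le
    rw [s0, s0, i0, i0]

end Pool.Agent.H895R2.SY
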