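import Pool.Agent.H895R2.SY.Defs

/-! Task R12 (helper666): lower bounds of areas by radial integrals. -/

set_option autoImplicit false

namespace Pool.Agent.H895R2.SY

open MeasureTheory Module Set Filter Topology Metric
open scoped ENNReal NNReal

theorem R12_sq_le {m : ℕ} (L : X (m + 1) →L[ℝ] ℝ) (θ : sphere (0 : X (m + 1)) 1) :
    (L (θ : X (m + 1))) ^ 2 ≤ ‖L‖ ^ 2 := by
  have h1 : ‖(θ : X (m + 1))‖ = 1 := by
    have := θ.2
    rwa [mem_sphere_zero_iff_norm] at this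
  have h2 := L.le_opNorm (θ : X (m + 1))
  rw [h1, mul_one] at h2
  rw [← sq_abs]
  exact pow_le_pow_left₀ (abs_nonneg _) h2 2

theorem R12_meas {m : ℕ} (c : X (m + 1) → ℝ) :
    Measurable fun x : X (m + 1) => ENNReal.ofReal (√(1 + ‖fderiv ℝ c x‖ ^ 2)) := by
  have h1 : Measurable (fderiv ℝ c) := measurable_fderiv ℝ c
  exact ((measurable_const.add (h1.norm.pow_const 2)).sqrt).ennreal_ofReal

theorem R12_point {m : ℕ} (c : X (m + 1) → ℝ) (hc : Continuous c) (x : X (m + 1))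
    (θ : sphere (0 : X (m + 1)) 1) :
    ENNReal.ofReal (√(1 + ‖fderiv ℝ (fun x => min (c x) 3) x‖ ^ 2)) +
      (if 3 ≤ c x then
        ENNReal.ofReal (√(1 + (fderiv ℝ c x (θ : X (m + 1))) ^ 2) - 1) else 0) ≤
      ENNReal.ofReal (√(1 + ‖fderiv ℝ c x‖ ^ 2)) := by
  by_cases h3 : 3 ≤ c x
  · rw [if_pos h3]
    have hmax : IsLocalMax (fun x => min (c x) 3) x := by
      refine Filter.Eventually.of_forall fun y => ?_
      change min (c y) 3 ≤ min (c x) 3
      rw [min_eq_right h3]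
      exact min_le_right _ _
    rw [hmax.fderiv_eq_zero, norm_zero]
    have h4 : (1 : ℝ) ≤ √(1 + (fderiv ℝ c x (θ : X (m + 1))) ^ 2) := by
      rw [Real.one_le_sqrt]
      nlinarith [sq_nonneg (fderiv ℝ c x (θ : X (m + 1)))]
    rw [show (1 : ℝ) + 0 ^ 2 = 1 by norm_num, Real.sqrt_one,
      ← ENNReal.ofReal_add zero_le_one (by linarith)]
    apply ENNReal.ofReal_le_ofReal
    have h5 : √(1 + (fderiv ℝ c x (θ : X (m + 1))) ^ 2) ≤ √(1 + ‖fderiv ℝ c x‖ ^ 2) :=
      Real.sqrt_le_sqrt (by have := R12_sq_le (fderiv ℝ c x) θ; linarith)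
    linarith
  · rw [if_neg h3, add_zero]
    push Not at h3
    have he : (fun x => min (c x) 3) =ᶠ[𝓝 x] c := by
      filter_upwards [hc.continuousAt.eventually (gt_mem_nhds h3)] with y hy
      exact min_eq_left hy.le
    rw [he.fderiv_eq]

theorem t_R12 (hP : S_POL) : S_R12 := by
  intro m c hc
  obtain ⟨K, hK⟩ := hc
  have hcont : Continuous c := hK.continuous
  have e1 : Ar c = ∫⁻ θ : sphere (0 : X (m + 1)) 1, (∫⁻ ρ in Ioo (0 : ℝ) 2,
      ENNReal.ofReal (ρ ^ m) * ENNReal.ofReal (√(1 + ‖fderiv ℝ c (ρ • (θ : X (m + 1)))‖ ^ 2)))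
        ∂(volume : Measure (X (m + 1))).toSphere := hP m _ (R12_meas c)
  have e2 : Ar (fun x => min (c x) 3) = ∫⁻ θ : sphere (0 : X (m + 1)) 1,
      (∫⁻ ρ in Ioo (0 : ℝ) 2, ENNReal.ofReal (ρ ^ m) *
        ENNReal.ofReal (√(1 + ‖fderiv ℝ (fun x => min (c x) 3) (ρ • (θ : X (m + 1)))‖ ^ 2)))
        ∂(volume : Measure (X (m + 1))).toSphere := hP m _ (R12_meas _)
  constructor
  · rw [e1]
    refine lintegral_mono fun θ => ?_
    unfold rI
    refine lintegral_mono fun ρ => ?_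
    dsimp only
    gcongr ENNReal.ofReal (ρ ^ m) * ENNReal.ofReal (√(1 + ?_))
    exact R12_sq_le _ θ
  · rw [e1, e2]
    refine (le_lintegral_add _ _).trans (lintegral_mono fun θ => ?_)
    dsimp only
    unfold rG
    refine (le_lintegral_add _ _).trans (lintegral_mono fun ρ => ?_)
    dsimp only
    rw [← mul_add]
    gcongr
    exact R12_point c hcont _ θ

end Pool.Agent.H895R2.SY
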