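import Pool.Agent.H895R2.SY.Defs

set_option linter.unusedVariables false

/-!
# RAY: the inequality on one ray
-/

namespace Pool.Agent.H895R2.SY

open MeasureTheory Module Set Filter Topology Metric
open scoped ENNReal NNReal

theorem RAY_sqrt1 (y : ℝ) : (4 - 3 * y) / 5 ≤ √(1 + y ^ 2) := by
  apply Real.le_sqrt_of_sq_le
  nlinarith [sq_nonneg (4 * y + 3)]

theorem RAY_sqrt2 (y : ℝ) : (3 - 4 * y) / 5 ≤ √(1 + y ^ 2) := by
  apply Real.le_sqrt_of_sq_le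
  nlinarith [sq_nonneg (3 * y + 4)]

theorem RAY_pI_neg {u : ℝ} (h : u ≤ 0) : pI u = 3 / 4 * u := by
  unfold pI; apply max_eq_left; linarith

theorem RAY_pI_pos {u : ℝ} (h : 0 ≤ u) : pI u = 4 / 3 * u := by
  unfold pI; apply max_eq_right; linarith

theorem RAY_deriv {e : ℝ} (he : 0 < e) (he4 : e < 1 / 4) {h : ℝ → ℝ}
    (hc : ConcaveOn ℝ (Icc 0 2) h)
    (h1 : ∀ ρ, 0 ≤ ρ → ρ ≤ 1 - e → h ρ = 3 - pI (ρ - 1))
    (h2 : ∀ ρ, 1 + e ≤ ρ → ρ ≤ 2 → h ρ = 3 - pI (ρ - 1))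
    (h3 : ∀ ρ, 0 ≤ ρ → ρ ≤ 2 → h ρ ≤ 3 - pI (ρ - 1)) {ρ : ℝ} (h0 : 0 < ρ) (h2' : ρ < 2)
    (hd : DifferentiableAt ℝ h ρ) :
    deriv h ρ ≤ -3 / 4 ∧ -4 / 3 ≤ deriv h ρ ∧ (1 + e < ρ → deriv h ρ ≤ -4 / 3) := by
  have e0 : h 0 = 15 / 4 := by
    rw [h1 0 le_rfl (by linarith), RAY_pI_neg (by norm_num)]; norm_num
  have e2 : h 2 = 5 / 3 := by
    rw [h2 2 (by linarith) le_rfl, RAY_pI_pos (by norm_num)]; norm_num
  have u1 : h ρ ≤ 15 / 4 - 3 / 4 * ρ := by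
    have a1 := h3 ρ h0.le h2'.le
    have a2 : 3 / 4 * (ρ - 1) ≤ pI (ρ - 1) := le_max_left _ _
    linarith
  have u2 : h ρ ≤ 13 / 3 - 4 / 3 * ρ := by
    have a1 := h3 ρ h0.le h2'.le
    have a2 : 4 / 3 * (ρ - 1) ≤ pI (ρ - 1) := le_max_right _ _
    linarith
  have m0 : (0 : ℝ) ∈ Icc (0 : ℝ) 2 := ⟨le_rfl, by norm_num⟩
  have m2 : (2 : ℝ) ∈ Icc (0 : ℝ) 2 := ⟨by norm_num, le_rfl⟩
  have mρ : ρ ∈ Icc (0 : ℝ) 2 := ⟨h0.le, h2'.le⟩
  refine ⟨?_, ?_, ?_⟩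
  · refine (hc.deriv_le_slope m0 mρ h0 hd).trans ?_
    rw [slope_def_field, div_le_iff₀ (by linarith), e0]
    linarith
  · refine le_trans ?_ (hc.slope_le_deriv mρ m2 h2' hd)
    rw [slope_def_field, le_div_iff₀ (by linarith), e2]
    linarith
  · intro hlt
    have m1 : (1 + e) ∈ Icc (0 : ℝ) 2 := ⟨by linarith, by linarith⟩
    refine (hc.deriv_le_slope m1 mρ hlt hd).trans ?_
    rw [slope_def_field, div_le_iff₀ (by linarith), h2 ρ hlt.le h2'.le,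
      h2 (1 + e) le_rfl (by linarith), RAY_pI_pos (by linarith), RAY_pI_pos (by linarith)]
    linarith

theorem RAY_ii {f : ℝ → ℝ} (hf : Measurable f) {C : ℝ} (hC : ∀ x, ‖f x‖ ≤ C) (a b : ℝ) :
    IntervalIntegrable f volume a b := by
  rw [intervalIntegrable_iff]
  apply Measure.integrableOn_of_bounded (M := C)
  · simp [uIoc]
  · exact hf.aestronglyMeasurable
  · exact ae_of_all _ hC

theorem RAY_dbd {h : ℝ → ℝ} {K : ℝ≥0} (hK : LipschitzWith K h) (x : ℝ) :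
    ‖deriv h x‖ ≤ K := norm_deriv_le_of_lipschitz hK

theorem RAY_iiD {h : ℝ → ℝ} {K : ℝ≥0} (hK : LipschitzWith K h) (a b : ℝ) :
    IntervalIntegrable (fun ρ => deriv h ρ) volume a b :=
  RAY_ii (measurable_deriv h) (RAY_dbd hK) a b

theorem RAY_Fbd {h : ℝ → ℝ} {K : ℝ≥0} (hK : LipschitzWith K h) (x : ℝ) :
    √(1 + deriv h x ^ 2) ≤ √(1 + (K : ℝ) ^ 2) := by
  apply Real.sqrt_le_sqrt
  have := RAY_dbd hK x
  rw [Real.norm_eq_abs] at this
  have h2 : deriv h x ^ 2 ≤ (K : ℝ) ^ 2 := sq_le_sq' (by linarith [neg_abs_le (deriv h x)])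
    (by linarith [le_abs_self (deriv h x)])
  linarith

theorem RAY_Fone (y : ℝ) : 1 ≤ √(1 + y ^ 2) := by
  rw [Real.one_le_sqrt]
  nlinarith [sq_nonneg y]

theorem RAY_Fmeas (h : ℝ → ℝ) : Measurable (fun ρ => √(1 + deriv h ρ ^ 2)) :=
  ((measurable_deriv h).pow_const 2 |>.const_add 1).sqrt

theorem RAY_iiF {h : ℝ → ℝ} {K : ℝ≥0} (hK : LipschitzWith K h) (m : ℕ) (κ a b : ℝ) :
    IntervalIntegrable (fun ρ => ρ ^ m * (√(1 + deriv h ρ ^ 2) - κ)) volume a b := by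
  have h1 : IntervalIntegrable (fun ρ => √(1 + deriv h ρ ^ 2) - κ) volume a b := by
    apply RAY_ii ((RAY_Fmeas h).sub_const κ) (C := √(1 + (K : ℝ) ^ 2) + |κ|)
    intro x
    refine (norm_sub_le _ _).trans ?_
    rw [Real.norm_eq_abs, Real.norm_eq_abs, abs_of_nonneg (Real.sqrt_nonneg _)]
    linarith [RAY_Fbd hK x]
  exact h1.continuousOn_mul (by fun_prop)

theorem RAY_iiG {h : ℝ → ℝ} {K : ℝ≥0} (hK : LipschitzWith K h) (m : ℕ) (a b : ℝ) :
    IntervalIntegrable (fun ρ => if 3 ≤ h ρ then ρ ^ m * (√(1 + deriv h ρ ^ 2) - 1) else 0)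
      volume a b := by
  have h1 : IntervalIntegrable (fun ρ => if 3 ≤ h ρ then (√(1 + deriv h ρ ^ 2) - 1) else 0)
      volume a b := by
    apply RAY_ii _ (C := √(1 + (K : ℝ) ^ 2) + |1|)
    · intro x
      split_ifs
      · refine (norm_sub_le _ _).trans ?_
        rw [Real.norm_eq_abs, Real.norm_eq_abs, abs_of_nonneg (Real.sqrt_nonneg _)]
        linarith [RAY_Fbd hK x]
      · rw [norm_zero]; positivity
    · apply Measurable.ite _ ((RAY_Fmeas h).sub_const 1) measurable_const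
      exact measurableSet_le measurable_const hK.continuous.measurable
  have h2 := h1.continuousOn_mul (g := fun ρ : ℝ => ρ ^ m) (by fun_prop)
  refine h2.congr ?_
  intro x _
  simp only [mul_ite, mul_zero]

theorem RAY_ftc {h : ℝ → ℝ} {K : ℝ≥0} (hK : LipschitzWith K h) (a b : ℝ) :
    ∫ ρ in a..b, deriv h ρ = h b - h a := by
  have h1 : AbsolutelyContinuousOnInterval h a b :=
    (hK.lipschitzOnWith (s := uIcc a b)).absolutelyContinuousOnInterval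
  exact h1.integral_deriv_eq_sub

theorem RAY_calc {h : ℝ → ℝ} {K : ℝ≥0} (hK : LipschitzWith K h) (m : ℕ) (α A γ a b : ℝ) :
    IntervalIntegrable (fun ρ => α * ρ ^ m + A * (-deriv h ρ - γ)) volume a b ∧
    ∫ ρ in a..b, (α * ρ ^ m + A * (-deriv h ρ - γ)) =
      α * ((b ^ (m + 1) - a ^ (m + 1)) / (m + 1)) + A * (h a - h b - γ * (b - a)) := by
  have i1 : IntervalIntegrable (fun ρ : ℝ => α * ρ ^ m) volume a b :=
    Continuous.intervalIntegrable (by fun_prop) _ _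
  have iD := RAY_iiD hK a b
  have iDn : IntervalIntegrable (fun ρ => -deriv h ρ) volume a b := iD.neg
  have iD2 : IntervalIntegrable (fun ρ => -deriv h ρ - γ) volume a b :=
    iDn.sub (Continuous.intervalIntegrable (by fun_prop) _ _)
  have iD3 : IntervalIntegrable (fun ρ => A * (-deriv h ρ - γ)) volume a b :=
    iD2.const_mul A
  refine ⟨i1.add iD3, ?_⟩
  rw [intervalIntegral.integral_add i1 iD3, intervalIntegral.integral_const_mul,
    intervalIntegral.integral_const_mul, integral_pow,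
    intervalIntegral.integral_sub iDn (Continuous.intervalIntegrable (by fun_prop) _ _),
    intervalIntegral.integral_neg, RAY_ftc hK, intervalIntegral.integral_const, smul_eq_mul]
  ring

theorem RAY_low {h : ℝ → ℝ} {K : ℝ≥0} (hK : LipschitzWith K h) (m : ℕ) (κ α A γ : ℝ) {a b : ℝ}
    (hab : a ≤ b)
    (hh : ∀ ρ, DifferentiableAt ℝ h ρ → ρ ∈ Ioo a b →
      α * ρ ^ m + A * (-deriv h ρ - γ) ≤ ρ ^ m * (√(1 + deriv h ρ ^ 2) - κ)) :
    α * ((b ^ (m + 1) - a ^ (m + 1)) / (m + 1)) + A * (h a - h b - γ * (b - a)) ≤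
      ∫ ρ in a..b, ρ ^ m * (√(1 + deriv h ρ ^ 2) - κ) := by
  obtain ⟨i1, e1⟩ := RAY_calc hK m α A γ a b
  rw [← e1]
  apply intervalIntegral.integral_mono_ae_restrict hab i1 (RAY_iiF hK m κ a b)
  rw [← restrict_Ioo_eq_restrict_Icc]
  have hae := hK.ae_differentiableAt_real
  have h2 : ∀ᵐ ρ ∂(volume : Measure ℝ), ρ ∈ Ioo a b →
      α * ρ ^ m + A * (-deriv h ρ - γ) ≤ ρ ^ m * (√(1 + deriv h ρ ^ 2) - κ) := by
    filter_upwards [hae] with ρ hρ hm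
    exact hh ρ hρ hm
  exact (ae_restrict_iff' measurableSet_Ioo).mpr h2

theorem t_RAY : S_RAY := by
  intro m e he he4 hb2 h hLip hc h1 h2 h3
  obtain ⟨K, hK⟩ := hLip
  have hder : ∀ ρ, DifferentiableAt ℝ h ρ → 0 < ρ → ρ < 2 →
      deriv h ρ ≤ -3 / 4 ∧ -4 / 3 ≤ deriv h ρ ∧ (1 + e < ρ → deriv h ρ ≤ -4 / 3) :=
    fun ρ hd h0 h2' => RAY_deriv he he4 hc h1 h2 h3 h0 h2' hd
  have hcont : Continuous h := hK.continuous
  have hl : h (1 - e) = 3 + 3 / 4 * e := by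
    rw [h1 (1 - e) (by linarith) le_rfl, RAY_pI_neg (by linarith)]; ring
  have hr : h (1 + e) = 3 - 4 / 3 * e := by
    rw [h2 (1 + e) le_rfl (by linarith), RAY_pI_pos (by linarith)]; ring
  have hone : h 1 ≤ 3 := by
    have := h3 1 (by norm_num) (by norm_num)
    rw [sub_self, RAY_pI_neg le_rfl] at this
    linarith
  have e0 : h 0 = 15 / 4 := by
    rw [h1 0 le_rfl (by linarith), RAY_pI_neg (by norm_num)]; norm_num
  -- the point r
  obtain ⟨r, hr1, hr3⟩ : ∃ r ∈ Icc (1 - e) 1, h r = 3 := by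
    have := intermediate_value_Icc' (show 1 - e ≤ 1 by linarith) hcont.continuousOn
    exact this ⟨hone, by rw [hl]; linarith⟩
  -- bounds for powers
  have pw : ∀ ρ : ℝ, 0 < ρ → 0 ≤ ρ ^ m := fun ρ h => pow_nonneg h.le m
  have pl : ∀ ρ : ℝ, 1 - e < ρ → (1 - e) ^ m ≤ ρ ^ m := fun ρ h =>
    pow_le_pow_left₀ (by linarith) h.le m
  have pu : ∀ ρ : ℝ, 0 < ρ → ρ < 1 + e → ρ ^ m ≤ (1 + e) ^ m := fun ρ h0 h =>
    pow_le_pow_left₀ h0.le h.le m
  set A := (1 - e) ^ m with hA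
  set B := (1 + e) ^ m with hB
  have hA0 : 0 ≤ A := pow_nonneg (by linarith) m
  have hAB : A ≤ B := pow_le_pow_left₀ (by linarith) (by linarith) m
  -- pieces of I
  have P1 := RAY_low hK m 0 (5 / 4) 0 0 (show (0 : ℝ) ≤ 1 - e by linarith) (by
    intro ρ hd hρ
    have d := hder ρ hd hρ.1 (by linarith [hρ.2])
    have s := RAY_sqrt1 (deriv h ρ)
    have p := pw ρ hρ.1
    have : 5 / 4 ≤ √(1 + deriv h ρ ^ 2) := by linarith [d.1]
    nlinarith)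
  have P2 := RAY_low hK m 0 (5 / 4) (3 / 5 * A) (3 / 4) (show 1 - e ≤ 1 by linarith) (by
    intro ρ hd hρ
    have d := hder ρ hd (by linarith [hρ.1]) (by linarith [hρ.2])
    have s := RAY_sqrt1 (deriv h ρ)
    have p := pl ρ hρ.1
    have t1 : 0 ≤ -deriv h ρ - 3 / 4 := by linarith [d.1]
    have t2 : A * (-deriv h ρ - 3 / 4) ≤ ρ ^ m * (-deriv h ρ - 3 / 4) :=
      mul_le_mul_of_nonneg_right p t1
    have t3 : ρ ^ m * (5 / 4 + 3 / 5 * (-deriv h ρ - 3 / 4)) ≤ ρ ^ m * √(1 + deriv h ρ ^ 2) :=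
      mul_le_mul_of_nonneg_left (by linarith) (hA0.trans p)
    linarith)
  have P3 := RAY_low hK m 0 (5 / 3) (4 / 5 * B) (4 / 3) (show 1 ≤ 1 + e by linarith) (by
    intro ρ hd hρ
    have d := hder ρ hd (by linarith [hρ.1]) (by linarith [hρ.2])
    have s := RAY_sqrt2 (deriv h ρ)
    have p := pu ρ (by linarith [hρ.1]) hρ.2
    have p0 := pw ρ (by linarith [hρ.1])
    have t1 : 0 ≤ deriv h ρ + 4 / 3 := by linarith [d.2.1]
    have t2 : ρ ^ m * (deriv h ρ + 4 / 3) ≤ B * (deriv h ρ + 4 / 3) :=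
      mul_le_mul_of_nonneg_right p t1
    have t3 : ρ ^ m * (5 / 3 - 4 / 5 * (deriv h ρ + 4 / 3)) ≤ ρ ^ m * √(1 + deriv h ρ ^ 2) :=
      mul_le_mul_of_nonneg_left (by linarith) p0
    linarith)
  have P4 := RAY_low hK m 0 (5 / 3) 0 0 (show 1 + e ≤ 2 by linarith) (by
    intro ρ hd hρ
    have d := hder ρ hd (by linarith [hρ.1]) (by linarith [hρ.2])
    have s := RAY_sqrt2 (deriv h ρ)
    have p0 := pw ρ (by linarith [hρ.1])
    have d3 := d.2.2 hρ.1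
    have : 5 / 3 ≤ √(1 + deriv h ρ ^ 2) := by linarith
    nlinarith)
  have IF := fun a b => RAY_iiF hK m 0 a b
  have hI : ∫ ρ in (0 : ℝ)..2, ρ ^ m * √(1 + deriv h ρ ^ 2) =
      (∫ ρ in (0 : ℝ)..(1 - e), ρ ^ m * (√(1 + deriv h ρ ^ 2) - 0)) +
      (∫ ρ in (1 - e)..1, ρ ^ m * (√(1 + deriv h ρ ^ 2) - 0)) +
      (∫ ρ in (1 : ℝ)..(1 + e), ρ ^ m * (√(1 + deriv h ρ ^ 2) - 0)) +
      (∫ ρ in (1 + e)..2, ρ ^ m * (√(1 + deriv h ρ ^ 2) - 0)) := by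
    rw [intervalIntegral.integral_add_adjacent_intervals (IF _ _) (IF _ _),
      intervalIntegral.integral_add_adjacent_intervals (IF _ _) (IF _ _),
      intervalIntegral.integral_add_adjacent_intervals (IF _ _) (IF _ _)]
    simp only [sub_zero]
  -- pieces of G
  have Q1 := RAY_low hK m 1 (1 / 4) 0 0 (show (0 : ℝ) ≤ 1 - e by linarith) (by
    intro ρ hd hρ
    have d := hder ρ hd hρ.1 (by linarith [hρ.2])
    have s := RAY_sqrt1 (deriv h ρ)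
    have p := pw ρ hρ.1
    have : 5 / 4 ≤ √(1 + deriv h ρ ^ 2) := by linarith [d.1]
    nlinarith)
  have Q2 := RAY_low hK m 1 (1 / 4) (3 / 5 * A) (3 / 4) hr1.1 (by
    intro ρ hd hρ
    have d := hder ρ hd (by linarith [hρ.1]) (by linarith [hρ.2, hr1.2])
    have s := RAY_sqrt1 (deriv h ρ)
    have p := pl ρ hρ.1
    have t1 : 0 ≤ -deriv h ρ - 3 / 4 := by linarith [d.1]
    have t2 : A * (-deriv h ρ - 3 / 4) ≤ ρ ^ m * (-deriv h ρ - 3 / 4) :=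
      mul_le_mul_of_nonneg_right p t1
    have t3 : ρ ^ m * (5 / 4 + 3 / 5 * (-deriv h ρ - 3 / 4)) ≤ ρ ^ m * √(1 + deriv h ρ ^ 2) :=
      mul_le_mul_of_nonneg_left (by linarith) (hA0.trans p)
    linarith)
  have IG := fun a b => RAY_iiF hK m 1 a b
  have IH := fun a b => RAY_iiG hK m a b
  have r0 : 0 ≤ r := by linarith [hr1.1]
  have hG : (∫ ρ in (0 : ℝ)..(1 - e), ρ ^ m * (√(1 + deriv h ρ ^ 2) - 1)) +
      (∫ ρ in (1 - e)..r, ρ ^ m * (√(1 + deriv h ρ ^ 2) - 1)) ≤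
      ∫ ρ in (0 : ℝ)..2, if 3 ≤ h ρ then ρ ^ m * (√(1 + deriv h ρ ^ 2) - 1) else 0 := by
    rw [intervalIntegral.integral_add_adjacent_intervals (IG _ _) (IG _ _),
      ← intervalIntegral.integral_add_adjacent_intervals (IH 0 r) (IH r 2)]
    have g1 : ∫ ρ in (0 : ℝ)..r, ρ ^ m * (√(1 + deriv h ρ ^ 2) - 1) =
        ∫ ρ in (0 : ℝ)..r, if 3 ≤ h ρ then ρ ^ m * (√(1 + deriv h ρ ^ 2) - 1) else 0 := by
      apply intervalIntegral.integral_congr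
      intro ρ hρ
      rw [uIcc_of_le r0] at hρ
      have m0 : (0 : ℝ) ∈ Icc (0 : ℝ) 2 := ⟨le_rfl, by norm_num⟩
      have mr : r ∈ Icc (0 : ℝ) 2 := ⟨r0, by linarith [hr1.2]⟩
      have := hc.min_le_of_mem_Icc m0 mr hρ
      rw [e0, hr3, min_eq_right (by norm_num)] at this
      simp only [if_pos this]
    have g2 : 0 ≤ ∫ ρ in r..2, if 3 ≤ h ρ then ρ ^ m * (√(1 + deriv h ρ ^ 2) - 1) else 0 := by
      apply intervalIntegral.integral_nonneg (by linarith [hr1.2])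
      intro ρ hρ
      split_ifs
      · apply mul_nonneg (pow_nonneg (r0.trans hρ.1) m)
        linarith [RAY_Fone (deriv h ρ)]
      · exact le_rfl
    rw [g1]
    linarith
  -- D ≤ 4/3 η
  have hD : 3 - h 1 ≤ 4 / 3 * (1 - r) := by
    have m2 : (2 : ℝ) ∈ Icc (0 : ℝ) 2 := ⟨by norm_num, le_rfl⟩
    have mr : r ∈ Icc (0 : ℝ) 2 := ⟨r0, by linarith [hr1.2]⟩
    have e2 : h 2 = 5 / 3 := by
      rw [h2 2 (by linarith) le_rfl, RAY_pI_pos (by norm_num)]; norm_num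
    have h2r : 0 < 2 - r := by linarith [hr1.2]
    have hw1 : 0 ≤ 1 / (2 - r) := by positivity
    have hw2 : 0 ≤ (1 - r) / (2 - r) := div_nonneg (by linarith [hr1.2]) h2r.le
    have hw3 : 1 / (2 - r) + (1 - r) / (2 - r) = 1 := by field_simp; ring
    have hcc := hc.2 mr m2 hw1 hw2 hw3
    have e3 : (1 / (2 - r)) • r + ((1 - r) / (2 - r)) • (2 : ℝ) = 1 := by
      simp only [smul_eq_mul]; field_simp; ring
    rw [e3, hr3, e2] at hcc
    simp only [smul_eq_mul] at hcc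
    have e4 : 1 / (2 - r) * 3 + (1 - r) / (2 - r) * (5 / 3) = 3 - 4 / 3 * ((1 - r) / (2 - r)) := by
      field_simp; ring
    rw [e4] at hcc
    have e5 : (1 - r) / (2 - r) ≤ 1 - r :=
      div_le_self (by linarith [hr1.2]) (by linarith [hr1.2])
    linarith
  have hBern : 1 - (m + 1) * (1 - r) ≤ r ^ (m + 1) := by
    have := one_add_mul_le_pow (show (-2 : ℝ) ≤ r - 1 by linarith) (m + 1)
    push_cast at this
    have e5 : 1 + (r - 1) = r := by ring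
    rw [e5] at this
    linarith
  have hm : (0 : ℝ) < (m : ℝ) + 1 := by positivity
  -- assemble
  have S1 : (5 / 4 + 5 / 3 * (2 ^ (m + 1) - 1)) / ((m : ℝ) + 1) - b1 m e * (3 - h 1) ≤
      ∫ ρ in (0 : ℝ)..2, ρ ^ m * √(1 + deriv h ρ ^ 2) := by
    rw [hI]
    refine le_trans (le_of_eq ?_) (add_le_add (add_le_add (add_le_add P1 P2) P3) P4)
    rw [hl, hr]
    unfold b1
    rw [← hA, ← hB]
    field_simp
    ring
  have S2 : 1 / 4 / ((m : ℝ) + 1) + b2 m e * (1 - r) ≤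
      ∫ ρ in (0 : ℝ)..2, if 3 ≤ h ρ then ρ ^ m * (√(1 + deriv h ρ ^ 2) - 1) else 0 := by
    refine le_trans ?_ ((add_le_add Q1 Q2).trans hG)
    rw [hl, hr3]
    unfold b2
    rw [← hA]
    have k1 : (1 - (m + 1) * (1 - r)) / ((m : ℝ) + 1) ≤ r ^ (m + 1) / ((m : ℝ) + 1) :=
      div_le_div_of_nonneg_right hBern hm.le
    have k2 : (1 - (m + 1) * (1 - r)) / ((m : ℝ) + 1) = 1 / ((m : ℝ) + 1) - (1 - r) := by
      field_simp
    rw [k2] at k1
    have k3 : 1 / 4 * (((1 - e) ^ (m + 1) - 0 ^ (m + 1)) / ((m : ℝ) + 1)) +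
        0 * (h 0 - (3 + 3 / 4 * e) - 0 * (1 - e - 0)) +
        (1 / 4 * ((r ^ (m + 1) - (1 - e) ^ (m + 1)) / ((m : ℝ) + 1)) +
        3 / 5 * A * (3 + 3 / 4 * e - 3 - 3 / 4 * (r - (1 - e)))) =
        1 / 4 * (r ^ (m + 1) / ((m : ℝ) + 1)) + 9 / 20 * A * (1 - r) := by
      field_simp
      ring
    rw [k3]
    have k4 : 1 / 4 / ((m : ℝ) + 1) = 1 / 4 * (1 / ((m : ℝ) + 1)) := by ring
    rw [k4]
    linarith
  have hb1 : 0 ≤ b1 m e := by
    unfold b1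
    rw [← hA, ← hB]
    linarith
  have hη : 0 ≤ 1 - r := by linarith [hr1.2]
  have f1 : b2 m e * ((5 / 4 + 5 / 3 * (2 ^ (m + 1) - 1)) / ((m : ℝ) + 1) -
      b1 m e * (3 - h 1)) ≤
      b2 m e * ∫ ρ in (0 : ℝ)..2, ρ ^ m * √(1 + deriv h ρ ^ 2) :=
    mul_le_mul_of_nonneg_left S1 hb2
  have f2 : 4 / 3 * b1 m e * (1 / 4 / ((m : ℝ) + 1) + b2 m e * (1 - r)) ≤
      4 / 3 * b1 m e * ∫ ρ in (0 : ℝ)..2,
        if 3 ≤ h ρ then ρ ^ m * (√(1 + deriv h ρ ^ 2) - 1) else 0 :=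
    mul_le_mul_of_nonneg_left S2 (by positivity)
  have f3 : b2 m e * b1 m e * (3 - h 1) ≤ b2 m e * b1 m e * (4 / 3 * (1 - r)) :=
    mul_le_mul_of_nonneg_left hD (mul_nonneg hb2 hb1)
  linarith

end Pool.Agent.H895R2.SY
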