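import Pool.Agent.H895R2.SY.Defs

/-!
# RAYC: the ray inequality for almost every direction
-/

namespace Pool.Agent.H895R2.SY

open MeasureTheory Module Set Filter Topology Metric
open scoped ENNReal NNReal
open Pool.Agent.Results.MP_b62b68_gt.NoSymmetrization

theorem RAYC_ofReal_le {α : Type*} [MeasurableSpace α] {μ : Measure α} (f : α → ℝ) :
    ENNReal.ofReal (∫ x, f x ∂μ) ≤ ∫⁻ x, ENNReal.ofReal (f x) ∂μ := by
  by_cases hf : Integrable f μ
  · rw [integral_eq_lintegral_pos_part_sub_lintegral_neg_part hf]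
    exact (ENNReal.ofReal_le_ofReal (sub_le_self _ ENNReal.toReal_nonneg)).trans
      ENNReal.ofReal_toReal_le
  · rw [integral_undef hf]
    simp

/-- for almost every direction the function is differentiable at almost every point of the ray -/
theorem RAYC_ae {m : ℕ} (hP : S_POL) {c : X (m + 1) → ℝ} {K : ℝ≥0} (hc : LipschitzWith K c) :
    ∀ᵐ (θ : sphere (0 : X (m + 1)) 1) ∂(volume : Measure (X (m + 1))).toSphere,
      ∀ᵐ ρ ∂(volume.restrict (Ioo (0 : ℝ) 2)), DifferentiableAt ℝ c (ρ • (θ : X (m + 1))) := by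
  have hZm : MeasurableSet {x : X (m + 1) | ¬ DifferentiableAt ℝ c x} :=
    (measurableSet_of_differentiableAt ℝ c).compl
  set Z : Set (X (m + 1)) := {x : X (m + 1) | ¬ DifferentiableAt ℝ c x} with hZ
  have hZ0 : volume Z = 0 := hc.ae_differentiableAt
  set u : X (m + 1) → ℝ≥0∞ := Z.indicator 1 with hu
  have hum : Measurable u := measurable_one.indicator hZm
  have h1 := hP m u hum
  have h2 : ∫⁻ x in ball (0 : X (m + 1)) 2, u x = 0 := by
    rw [hu, lintegral_indicator_one hZm]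
    exact le_antisymm ((Measure.restrict_apply_le _ _).trans hZ0.le) bot_le
  rw [h2] at h1
  have hjm : Measurable fun p : sphere (0 : X (m + 1)) 1 × ℝ =>
      ENNReal.ofReal (p.2 ^ m) * u (p.2 • (p.1 : X (m + 1))) := by
    apply Measurable.mul
    · exact (measurable_snd.pow_const m).ennreal_ofReal
    · exact hum.comp (measurable_snd.smul (measurable_subtype_coe.comp measurable_fst))
  have hm2 : Measurable fun θ : sphere (0 : X (m + 1)) 1 => ∫⁻ ρ in Ioo (0 : ℝ) 2,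
      ENNReal.ofReal (ρ ^ m) * u (ρ • (θ : X (m + 1))) := hjm.lintegral_prod_right'
  have h3 := (lintegral_eq_zero_iff hm2).1 h1.symm
  filter_upwards [h3] with θ hθ
  have hm3 : Measurable fun ρ : ℝ => ENNReal.ofReal (ρ ^ m) * u (ρ • (θ : X (m + 1))) :=
    hjm.comp measurable_prodMk_left
  have h4 := (lintegral_eq_zero_iff hm3).1 hθ
  filter_upwards [h4, ae_restrict_mem measurableSet_Ioo] with ρ hρ hρ2
  by_contra hcon
  have h5 : u (ρ • (θ : X (m + 1))) = 1 := by
    rw [hu, indicator_of_mem (show ρ • (θ : X (m + 1)) ∈ Z from hcon)]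
    rfl
  have h6 : 0 < ρ ^ m := pow_pos hρ2.1 m
  change ENNReal.ofReal (ρ ^ m) * u (ρ • (θ : X (m + 1))) = 0 at hρ
  rw [h5, mul_one, ENNReal.ofReal_eq_zero] at hρ
  linarith

theorem t_RAYC (hR : S_RAY) (hP : S_POL) : S_RAYC := by
  intro m e he he4 hb2 c hc hbd heq
  obtain ⟨K, hK⟩ := hc.lip
  filter_upwards [RAYC_ae hP hK] with θ hθ
  have hθn : ‖(θ : X (m + 1))‖ = 1 := by simpa using θ.2
  have hnorm : ∀ ρ : ℝ, 0 ≤ ρ → ‖ρ • (θ : X (m + 1))‖ = ρ := by
    intro ρ hρ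
    rw [norm_smul, hθn, mul_one, Real.norm_eq_abs, abs_of_nonneg hρ]
  set h : ℝ → ℝ := fun ρ => c (ρ • (θ : X (m + 1))) with hh
  have hlip : LipschitzWith K h := by
    apply LipschitzWith.of_dist_le_mul
    intro a b
    refine (hK.dist_le_mul _ _).trans (le_of_eq ?_)
    congr 1
    rw [dist_eq_norm, dist_eq_norm, ← sub_smul, norm_smul, hθn, mul_one]
  have hconc : ConcaveOn ℝ (Icc 0 2) h := by
    have h1 := hc.conc.comp_linearMap (LinearMap.toSpanSingleton ℝ (X (m + 1)) θ)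
    refine ConcaveOn.subset (t := (LinearMap.toSpanSingleton ℝ (X (m + 1)) θ) ⁻¹'
      closedBall 0 2) h1 ?_ (convex_Icc 0 2)
    intro ρ hρ
    change ρ • (θ : X (m + 1)) ∈ closedBall (0 : X (m + 1)) 2
    rw [mem_closedBall_zero_iff, hnorm ρ hρ.1]
    exact hρ.2
  have hph : ∀ ρ : ℝ, 0 ≤ ρ → ph pI 1 (ρ • (θ : X (m + 1))) = 3 - pI (ρ - 1) := by
    intro ρ hρ
    unfold ph
    rw [hnorm ρ hρ]
  have hmain := hR m e he he4 hb2 h ⟨K, hlip⟩ hconc
    (fun ρ h0 h1 => by
      rw [← hph ρ h0]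
      exact heq _ (by rw [hnorm ρ h0]; linarith) (Or.inl (by rw [hnorm ρ h0]; exact h1)))
    (fun ρ h0 h1 => by
      have h2 : 0 ≤ ρ := by linarith
      rw [← hph ρ h2]
      exact heq _ (by rw [hnorm ρ h2]; exact h1) (Or.inr (by rw [hnorm ρ h2]; exact h0)))
    (fun ρ h0 h1 => by
      rw [← hph ρ h0]
      exact (hbd _ (by rw [hnorm ρ h0]; exact h1)).2)
  have hder : ∀ᵐ ρ ∂(volume.restrict (Ioo (0 : ℝ) 2)),
      deriv h ρ = fderiv ℝ c (ρ • (θ : X (m + 1))) (θ : X (m + 1)) ∧ 0 < ρ := by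
    filter_upwards [hθ, ae_restrict_mem measurableSet_Ioo] with ρ hρ hρ2
    refine ⟨?_, hρ2.1⟩
    have h1 : HasDerivAt (fun ρ : ℝ => ρ • (θ : X (m + 1))) (θ : X (m + 1)) ρ := by
      have := (hasDerivAt_id ρ).smul_const (θ : X (m + 1))
      simpa using this
    exact (hρ.hasFDerivAt.comp_hasDerivAt ρ h1).deriv
  have hres : (volume.restrict (Ioc (0 : ℝ) 2)) = volume.restrict (Ioo (0 : ℝ) 2) :=
    Measure.restrict_congr_set Ioo_ae_eq_Ioc.symm
  have hb1 : 0 ≤ 4 / 3 * b1 m e := by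
    unfold b1
    have h1 : 0 ≤ (1 - e) ^ m := pow_nonneg (by linarith) m
    have h2 : (1 - e) ^ m ≤ (1 + e) ^ m := pow_le_pow_left₀ (by linarith) (by linarith) m
    linarith
  have hI : ENNReal.ofReal (∫ ρ in (0 : ℝ)..2, ρ ^ m * √(1 + deriv h ρ ^ 2)) ≤ rI c θ := by
    rw [intervalIntegral.integral_of_le (by norm_num), hres]
    refine (RAYC_ofReal_le _).trans (le_of_eq ?_)
    unfold rI
    apply lintegral_congr_ae
    filter_upwards [hder] with ρ hρ
    rw [hρ.1, ENNReal.ofReal_mul (pow_nonneg hρ.2.le m)]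
  have hG : ENNReal.ofReal (∫ ρ in (0 : ℝ)..2,
      if 3 ≤ h ρ then ρ ^ m * (√(1 + deriv h ρ ^ 2) - 1) else 0) ≤ rG c θ := by
    rw [intervalIntegral.integral_of_le (by norm_num), hres]
    refine (RAYC_ofReal_le _).trans (le_of_eq ?_)
    unfold rG
    apply lintegral_congr_ae
    filter_upwards [hder] with ρ hρ
    rw [hρ.1]
    change ENNReal.ofReal (if 3 ≤ c (ρ • (θ : X (m + 1))) then _ else 0) = _
    split_ifs with h3
    · rw [ENNReal.ofReal_mul (pow_nonneg hρ.2.le m)]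
    · simp
  refine (ENNReal.ofReal_le_ofReal hmain).trans (ENNReal.ofReal_add_le.trans ?_)
  rw [ENNReal.ofReal_mul hb2, ENNReal.ofReal_mul hb1]
  exact add_le_add (mul_le_mul_right hI _) (mul_le_mul_right hG _)

end Pool.Agent.H895R2.SY
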