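import Pool.Agent.H895R2.SY.Defs

namespace Pool.Agent.H895R2.SY

open MeasureTheory Module Set Filter Topology Metric
open scoped ENNReal NNReal
open Pool.Agent.Results.MP_b62b68_gt.NoSymmetrization

theorem sep_inj {n d : ℕ} {Φ : X d × ℝ →ₗ[ℝ] E n} (hΦ : Iso Φ) : Function.Injective Φ := by
  rw [injective_iff_map_eq_zero]
  rintro ⟨x, s⟩ h
  have h1 := hΦ x s
  rw [h, norm_zero] at h1
  have h2 : ‖x‖ ^ 2 = 0 := by nlinarith [sq_nonneg ‖x‖, sq_nonneg s]
  have h3 : s ^ 2 = 0 := by nlinarith [sq_nonneg ‖x‖, sq_nonneg s]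
  have h4 : ‖x‖ = 0 := pow_eq_zero_iff two_ne_zero |>.1 h2
  have h5 : s = 0 := pow_eq_zero_iff two_ne_zero |>.1 h3
  rw [norm_eq_zero] at h4
  rw [h4, h5]
  rfl

/-- a unit vector of the range which separates -/
theorem sep_unit {n d : ℕ} {Φ : X d × ℝ →ₗ[ℝ] E n} (hΦ : Iso Φ) (K : Set (X d × ℝ))
    (p : X d × ℝ) (hK : IsCompact K) (hKc : Convex ℝ K) (hp : p ∉ K) :
    ∃ e : LinearMap.range Φ, ‖e‖ = 1 ∧
      ∀ k ∈ K, inner ℝ (e : E n) (Φ k) ≠ inner ℝ (e : E n) (Φ p) := by
  have hinj := sep_inj hΦ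
  by_cases hne : K.Nonempty
  · obtain ⟨w, u, hw1, hw2⟩ := geometric_hahn_banach_closed_point hKc hK.isClosed hp
    obtain ⟨k₀, hk₀⟩ := hne
    let eq := LinearEquiv.ofInjective Φ hinj
    let wF : LinearMap.range Φ →L[ℝ] ℝ :=
      LinearMap.toContinuousLinearMap ((w : X d × ℝ →ₗ[ℝ] ℝ) ∘ₗ eq.symm.toLinearMap)
    let c : LinearMap.range Φ := (InnerProductSpace.toDual ℝ (LinearMap.range Φ)).symm wF
    have hc : ∀ z, inner ℝ (c : E n) (Φ z) = w z := by
      intro z
      have h1 : inner ℝ c (eq z) = wF (eq z) := InnerProductSpace.toDual_symm_apply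
      have h2 : wF (eq z) = w z := by
        change w (eq.symm (eq z)) = w z
        rw [LinearEquiv.symm_apply_apply]
      rw [← h2, ← h1]
      rfl
    have hc0 : c ≠ 0 := by
      intro h0
      have h1 := hc k₀
      have h2 := hc p
      rw [h0] at h1 h2
      simp only [ZeroMemClass.coe_zero, inner_zero_left] at h1 h2
      have := hw1 k₀ hk₀
      linarith
    have hcn : 0 < ‖c‖ := norm_pos_iff.2 hc0
    refine ⟨‖c‖⁻¹ • c, ?_, ?_⟩
    · rw [norm_smul, norm_inv, norm_norm, inv_mul_cancel₀ hcn.ne']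
    · intro k hk h
      have h1 := hw1 k hk
      rw [Submodule.coe_smul, real_inner_smul_left, real_inner_smul_left, hc, hc] at h
      have h2 := mul_left_cancel₀ (inv_ne_zero hcn.ne') h
      linarith
  · have hnt : Nontrivial (LinearMap.range Φ) := by
      refine ⟨⟨⟨Φ (0, 1), LinearMap.mem_range_self _ _⟩, 0, ?_⟩⟩
      intro h
      have h1 : Φ (0, 1) = 0 := congrArg Subtype.val h
      have h2 := hΦ 0 1
      rw [h1] at h2
      simp at h2
    obtain ⟨e, he⟩ := exists_norm_eq (LinearMap.range Φ) (zero_le_one (α := ℝ))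
    exact ⟨e, he, fun k hk => absurd ⟨k, hk⟩ hne⟩

theorem t_SEP : S_SEP := by
  intro n d hd hd1 Φ hΦ K p hK hKc hp
  have hinj := sep_inj hΦ
  obtain ⟨e, he, hsep⟩ := sep_unit hΦ K p hK hKc hp
  have hF : finrank ℝ (LinearMap.range Φ) = d + 1 := by
    rw [LinearMap.finrank_range_of_inj hinj, Module.finrank_prod, finrank_euclideanSpace,
      Fintype.card_fin, Module.finrank_self]
  -- an orthonormal basis of the range starting with `e`
  obtain ⟨bF, hbF⟩ : ∃ bF : OrthonormalBasis (Fin (d + 1)) ℝ (LinearMap.range Φ), bF 0 = e := by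
    have hv : Orthonormal ℝ (({0} : Set (Fin (d + 1))).domRestrict
        (fun _ : Fin (d + 1) => e)) := by
      refine ⟨fun i => he, ?_⟩
      intro i j hij
      exact absurd (Subsingleton.elim i j) hij
    obtain ⟨b, hb⟩ := hv.exists_orthonormalBasis_extension_of_card_eq (by simp [hF])
    exact ⟨b, hb 0 rfl⟩
  let v : Fin n → E n := fun k =>
    if h : (k : ℕ) < d then (bF ⟨k, Nat.lt_succ_of_lt h⟩ : E n) else 0
  have hv : Orthonormal ℝ (({k : Fin n | (k : ℕ) < d} : Set (Fin n)).domRestrict v) := by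
    have h3 : Orthonormal ℝ (fun k : Fin (d + 1) => (bF k : E n)) := by
      have := bF.orthonormal
      rw [orthonormal_iff_ite] at this ⊢
      exact this
    have h4 : (({k : Fin n | (k : ℕ) < d} : Set (Fin n)).domRestrict v) =
        (fun k : Fin (d + 1) => (bF k : E n)) ∘
          (fun k : ({k : Fin n | (k : ℕ) < d} : Set (Fin n)) =>
            ⟨(k.1 : ℕ), Nat.lt_succ_of_lt k.2⟩) := by
      ext1 k
      have hk : (k.1 : ℕ) < d := k.2
      simp [v, hk]
    rw [h4]
    refine h3.comp _ ?_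
    intro x y hxy
    simp only [Fin.mk.injEq] at hxy
    exact Subtype.ext (Fin.ext hxy)
  obtain ⟨b, hb⟩ := hv.exists_orthonormalBasis_extension_of_card_eq (by simp)
  let g : O n := ⟨(EuclideanSpace.basisFun (Fin n) ℝ).toBasis.toMatrix b,
    OrthonormalBasis.toMatrix_orthonormalBasis_mem_unitary _ _⟩
  have hg : ∀ k, col g k = b k := by
    intro k
    ext i
    simp [col, g, Basis.toMatrix_apply]
  have hcol : ∀ k : Fin d, col g (Fin.castLE hd k) = bF k.castSucc := by
    intro k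
    have hk : ((Fin.castLE hd k : Fin n) : ℕ) < d := k.2
    rw [hg, hb _ hk]
    simp only [v, hk, dif_pos]
    rfl
  have hA : ∀ z (k : Fin d), Bg hd Φ g z k = inner ℝ (bF k.castSucc : E n) (Φ z) := by
    intro z k
    change A n d hd g (Φ z) k = _
    rw [A_apply, hcol]
  refine ⟨g, ?_, ?_⟩
  · intro y
    let y' : EuclideanSpace ℝ (Fin (d + 1)) :=
      WithLp.toLp 2 (fun k => if h : (k : ℕ) < d then y ⟨k, h⟩ else 0)
    obtain ⟨z, hz⟩ := LinearMap.mem_range.1 (bF.repr.symm y').2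
    refine ⟨z, ?_⟩
    ext k
    rw [hA, hz]
    have h1 : inner ℝ (bF k.castSucc) (bF.repr.symm y') = y' k.castSucc := by
      rw [← bF.repr_apply_apply, LinearIsometryEquiv.apply_symm_apply]
    have h2 : y' k.castSucc = y k := by
      simp [y']
    rw [← h2, ← h1]
    rfl
  · rintro ⟨k, hk, hkp⟩
    have h1 := congrArg (fun y : X d => y ⟨0, hd1⟩) hkp
    simp only [hA] at h1
    have h2 : (⟨0, hd1⟩ : Fin d).castSucc = (0 : Fin (d + 1)) := rfl
    rw [h2, hbF] at h1
    exact hsep k hk h1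

end Pool.Agent.H895R2.SY
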