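import Pool.Agent.H895R2.SY.Defs

/-! SGINT: interior points. -/

open Set Filter Topology Metric MeasureTheory
open scoped NNReal

namespace Pool.Agent.H895R2.SY

theorem t_SGINT : S_SGINT := by
  intro d f g hfg h0
  obtain ⟨Kf, hKf⟩ := hfg.left.lip
  obtain ⟨Kg, hKg⟩ := hfg.right.lip
  have hf : Continuous f := hKf.continuous
  have hg : Continuous g := hKg.continuous
  set S : Set (X d × ℝ) := {p | ‖p.1‖ < 2 ∧ -g p.1 < p.2 ∧ p.2 < f p.1} with hS
  have hSo : IsOpen S := by
    have e1 : IsOpen {p : X d × ℝ | ‖p.1‖ < 2} := isOpen_lt continuous_fst.norm continuous_const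
    have e2 : IsOpen {p : X d × ℝ | -g p.1 < p.2} :=
      isOpen_lt (hg.comp continuous_fst).neg continuous_snd
    have e3 : IsOpen {p : X d × ℝ | p.2 < f p.1} :=
      isOpen_lt continuous_snd (hf.comp continuous_fst)
    exact e1.inter (e2.inter e3)
  have hsub : S ⊆ Sg f g := fun p hp => ⟨hp.1.le, hp.2.1.le, hp.2.2.le⟩
  refine ⟨(0, (f 0 - g 0) / 2), interior_maximal hsub hSo ?_⟩
  refine ⟨by simp, ?_, ?_⟩
  · show -g 0 < (f 0 - g 0) / 2
    linarith
  · show (f 0 - g 0) / 2 < f 0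
    linarith

end Pool.Agent.H895R2.SY
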