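import Pool.Agent.H895R2.SY.Defs

/-! Task SL: one dimensional length formula (helper955). -/

set_option autoImplicit false

open MeasureTheory Set
open scoped NNReal ENNReal

namespace Pool.Agent.H895R2.SY

theorem SL_aux_lip {F : ℝ → ℝ} {K : ℝ≥0} (hF : LipschitzWith K F) (lam tau : ℝ) :
    ∃ K' : ℝ≥0, LipschitzWith K' (fun t => lam * F t + tau * t) := by
  refine ⟨Real.toNNReal (|lam| * K + |tau|), LipschitzWith.of_dist_le_mul fun x y => ?_⟩
  have h1 := hF.dist_le_mul x y
  rw [Real.dist_eq, Real.dist_eq] at *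
  have h2 : lam * F x + tau * x - (lam * F y + tau * y) = lam * (F x - F y) + tau * (x - y) := by
    ring
  rw [h2]
  refine (abs_add_le _ _).trans ?_
  rw [abs_mul, abs_mul]
  have h3 : |lam| * |F x - F y| ≤ |lam| * (K * |x - y|) :=
    mul_le_mul_of_nonneg_left h1 (abs_nonneg _)
  have h4 : ((Real.toNNReal (|lam| * K + |tau|) : ℝ≥0) : ℝ) = |lam| * K + |tau| :=
    Real.coe_toNNReal _ (by positivity)
  rw [h4]
  nlinarith

theorem SL_aux_conc {F : ℝ → ℝ} {b : ℝ} (hF : ConcaveOn ℝ (Icc (-b) b) F) {lam : ℝ}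
    (hl : 0 ≤ lam) (tau : ℝ) : ConcaveOn ℝ (Icc (-b) b) (fun t => lam * F t + tau * t) := by
  refine ⟨hF.1, fun x hx y hy p q hp hq hpq => ?_⟩
  have h1 := hF.2 hx hy hp hq hpq
  simp only [smul_eq_mul] at *
  have h2 := mul_le_mul_of_nonneg_left h1 hl
  nlinarith

theorem SL_aux_int {F : ℝ → ℝ} {K : ℝ≥0} (hF : LipschitzWith K F) (a b : ℝ) :
    IntervalIntegrable (fun t => |deriv F t|) volume a b := by
  have hm : Measurable fun t => |deriv F t| := (measurable_deriv F).abs
  refine IntervalIntegrable.mono_fun' (g := fun _ => (K : ℝ)) intervalIntegrable_const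
    hm.aestronglyMeasurable ?_
  refine Filter.Eventually.of_forall fun t => ?_
  show ‖|deriv F t|‖ ≤ (K : ℝ)
  rw [Real.norm_eq_abs, abs_abs, ← Real.norm_eq_abs]
  exact norm_deriv_le_of_lipschitz hF

theorem SL_aux_deriv {F : ℝ → ℝ} {K : ℝ≥0} (hF : LipschitzWith K F) (lam tau : ℝ) :
    ∀ᵐ t : ℝ, deriv (fun t => lam * F t + tau * t) t = lam * deriv F t + tau := by
  filter_upwards [hF.ae_differentiableAt_real] with t ht
  have h1 : HasDerivAt (fun t => lam * F t + tau * t) (lam * deriv F t + tau * 1) t :=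
    (ht.hasDerivAt.const_mul lam).add ((hasDerivAt_id t).const_mul tau)
  rw [h1.deriv, mul_one]

theorem t_SL (hMAX : S_MAX1) : S_SL := by
  intro b lam tau F G hb hl ⟨K, hF⟩ ⟨K', hG⟩ hFc hGc hFG
  obtain ⟨K1, hL1⟩ := SL_aux_lip hF lam (-tau)
  obtain ⟨K2, hL2⟩ := SL_aux_lip hG lam tau
  have hC1 := SL_aux_conc hFc hl (-tau)
  have hC2 := SL_aux_conc hGc hl tau
  obtain ⟨t1, ht1, hmax1, heq1⟩ := hMAX (-b) b _ (by linarith) ⟨K1, hL1⟩ hC1
  obtain ⟨t2, ht2, hmax2, heq2⟩ := hMAX (-b) b _ (by linarith) ⟨K2, hL2⟩ hC2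
  have hFcont := hF.continuous
  have hGcont := hG.continuous
  have hset : {r : ℝ | ∃ t s, -b ≤ t ∧ t ≤ b ∧ -G t ≤ s ∧ s ≤ F t ∧ r = lam * s - tau * t} =
      Icc (-(lam * G t2 + tau * t2)) (lam * F t1 + -tau * t1) := by
    ext r
    constructor
    · rintro ⟨t, s, h1, h2, h3, h4, rfl⟩
      have h5 := hmax1 t ⟨h1, h2⟩
      have h6 := hmax2 t ⟨h1, h2⟩
      have h7 := mul_le_mul_of_nonneg_left h3 hl
      have h8 := mul_le_mul_of_nonneg_left h4 hl
      constructor <;> nlinarith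
    · intro hr
      -- path
      let tt : ℝ → ℝ := fun θ => (1 - θ) * t2 + θ * t1
      let ss : ℝ → ℝ := fun θ => (1 - θ) * (-G (tt θ)) + θ * F (tt θ)
      have hc : Continuous fun θ => lam * ss θ - tau * tt θ := by
        have htt : Continuous tt := by fun_prop
        have hss : Continuous ss := by
          have := hGcont.comp htt
          have := hFcont.comp htt
          show Continuous fun θ => (1 - θ) * (-G (tt θ)) + θ * F (tt θ)
          fun_prop
        fun_prop
      have h0 : lam * ss 0 - tau * tt 0 = -(lam * G t2 + tau * t2) := by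
        simp only [ss, tt]
        simp
        ring
      have h1 : lam * ss 1 - tau * tt 1 = lam * F t1 + -tau * t1 := by
        simp only [ss, tt]
        simp
        ring
      have hiv := intermediate_value_Icc (zero_le_one' ℝ) hc.continuousOn
      rw [h0, h1] at hiv
      obtain ⟨θ, hθ, hθr⟩ := hiv hr
      have htθ : tt θ ∈ Icc (-b) b := by
        have := convex_Icc (-b) b ht2 ht1 (sub_nonneg.2 hθ.2) hθ.1 (by ring : (1 - θ) + θ = 1)
        simpa only [smul_eq_mul] using this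
      refine ⟨tt θ, ss θ, htθ.1, htθ.2, ?_, ?_, hθr.symm⟩
      · have h2 := hFG _ htθ
        have h3 : 0 ≤ θ * (F (tt θ) + G (tt θ)) := mul_nonneg hθ.1 h2
        show -G (tt θ) ≤ (1 - θ) * (-G (tt θ)) + θ * F (tt θ)
        nlinarith
      · have h2 := hFG _ htθ
        have h3 : 0 ≤ (1 - θ) * (F (tt θ) + G (tt θ)) := mul_nonneg (sub_nonneg.2 hθ.2) h2
        show (1 - θ) * (-G (tt θ)) + θ * F (tt θ) ≤ F (tt θ)
        nlinarith
  rw [hset, Real.volume_Icc]
  congr 1
  have hi : ∫ t in (-b)..b, (|lam * deriv F t - tau| + |lam * deriv G t + tau|) =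
      (∫ t in (-b)..b, |deriv (fun t => lam * F t + -tau * t) t|) +
        ∫ t in (-b)..b, |deriv (fun t => lam * G t + tau * t) t| := by
    rw [← intervalIntegral.integral_add (SL_aux_int hL1 _ _) (SL_aux_int hL2 _ _)]
    refine intervalIntegral.integral_congr_ae ?_
    filter_upwards [SL_aux_deriv hF lam (-tau), SL_aux_deriv hG lam tau] with t h1 h2 _
    rw [h1, h2, ← sub_eq_add_neg]
  rw [hi]
  linarith

end Pool.Agent.H895R2.SY
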