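import Mathlib
import Pool.Agent.H895R2.SY.Defs

namespace Pool.Agent.H895R2.SY

open MeasureTheory Module Set Filter Topology Metric
open scoped ENNReal NNReal
open Pool.Agent.Results.MP_b62b68_gt.NoSymmetrization

theorem stein_aux1 (hC : S_COL) (d : ℕ) (W : Set (X d × ℝ) → ℝ≥0∞)
    (T : Set (X d × ℝ) → Set (X d × ℝ)) (hW : WW d W) (hT : TT d W T) (f g : X d → ℝ)
    (hK : NC (Sg f g)) (L : ℝ) (hL : 0 ≤ L) (hf : ∀ x y, |f x - f y| ≤ L * ‖x - y‖)
    (hg : ∀ x y, |g x - g y| ≤ L * ‖x - y‖)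
    (x : X d) (hx : ‖x‖ < 2) (hp : 0 < f x + g x) : (x, (f x + g x) / 2) ∈ T (Sg f g) := by
  have hcl : IsClosed (T (Sg f g)) := (hT.compact _ hK).isClosed
  rw [← hcl.closure_eq, Metric.mem_closure_iff]
  intro ε hε
  obtain ⟨δ, hδ0, hδ1, hδ2, hδ3, hδ4⟩ : ∃ δ : ℝ, 0 < δ ∧ ‖x‖ + δ ≤ 2 ∧ 2 * (L * δ) < f x + g x ∧
      δ < ε ∧ L * δ < ε := by
    have hL1 : 0 < L + 1 := by linarith
    refine ⟨min (2 - ‖x‖) (min ((f x + g x) / (4 * (L + 1))) (ε / (2 * (L + 1)))), ?_, ?_, ?_, ?_, ?_⟩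
    · apply lt_min (by linarith)
      apply lt_min <;> positivity
    · have := min_le_left (2 - ‖x‖) (min ((f x + g x) / (4 * (L + 1))) (ε / (2 * (L + 1))))
      linarith
    · set δ := min (2 - ‖x‖) (min ((f x + g x) / (4 * (L + 1))) (ε / (2 * (L + 1)))) with hδ
      have h1 : δ ≤ (f x + g x) / (4 * (L + 1)) := (min_le_right _ _).trans (min_le_left _ _)
      rw [le_div_iff₀ (by positivity)] at h1
      have h2 : 0 < δ := by
        apply lt_min (by linarith)
        apply lt_min <;> positivity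
      nlinarith
    · set δ := min (2 - ‖x‖) (min ((f x + g x) / (4 * (L + 1))) (ε / (2 * (L + 1)))) with hδ
      have h1 : δ ≤ ε / (2 * (L + 1)) := (min_le_right _ _).trans (min_le_right _ _)
      rw [le_div_iff₀ (by positivity)] at h1
      have h2 : 0 < δ := by
        apply lt_min (by linarith)
        apply lt_min <;> positivity
      nlinarith [mul_nonneg hL h2.le]
    · set δ := min (2 - ‖x‖) (min ((f x + g x) / (4 * (L + 1))) (ε / (2 * (L + 1)))) with hδ
      have h1 : δ ≤ ε / (2 * (L + 1)) := (min_le_right _ _).trans (min_le_right _ _)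
      rw [le_div_iff₀ (by positivity)] at h1
      have h2 : 0 < δ := by
        apply lt_min (by linarith)
        apply lt_min <;> positivity
      nlinarith [mul_nonneg hL h2.le]
  obtain ⟨x₁, hx₁, hm⟩ := hC d W T hW hT (Sg f g) hK x δ (-g x + L * δ) (f x - L * δ) hδ0
    (by linarith) (by
      intro y s hy h1 h2
      have e1 := abs_le.1 (hf y x)
      have e2 := abs_le.1 (hg y x)
      have e3 : L * ‖y - x‖ ≤ L * δ := mul_le_mul_of_nonneg_left hy hL
      refine ⟨?_, ?_, ?_⟩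
      · have : ‖y‖ ≤ ‖x‖ + ‖y - x‖ := by
          calc ‖y‖ = ‖x + (y - x)‖ := by congr 1; abel
            _ ≤ _ := norm_add_le _ _
        change ‖y‖ ≤ 2
        linarith
      · change -g y ≤ s
        linarith [e2.1]
      · change s ≤ f y
        linarith [e1.1])
  refine ⟨_, hm, ?_⟩
  rw [Prod.dist_eq, max_lt_iff]
  constructor
  · change dist x x₁ < ε
    rw [dist_comm, dist_eq_norm]
    linarith
  · change dist ((f x + g x) / 2) ((f x - L * δ - (-g x + L * δ)) / 2) < ε
    rw [Real.dist_eq]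
    have : (f x + g x) / 2 - (f x - L * δ - (-g x + L * δ)) / 2 = L * δ := by ring
    rw [this, abs_of_nonneg (by positivity)]
    exact hδ4

theorem t_STEIN (hC : S_COL) (hN : S_SGNC) : S_STEIN := by
  intro d W T hW hT f g hfg hpos x hx
  have hK : NC (Sg f g) := hN d f g hfg
  obtain ⟨K1, hK1⟩ := hfg.left.lip
  obtain ⟨K2, hK2⟩ := hfg.right.lip
  set L : ℝ := max (K1 : ℝ) (K2 : ℝ) with hLdef
  have hL : 0 ≤ L := le_max_of_le_left K1.coe_nonneg
  have hf : ∀ x y, |f x - f y| ≤ L * ‖x - y‖ := by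
    intro x y
    have h1 := hK1.dist_le_mul x y
    rw [Real.dist_eq, dist_eq_norm] at h1
    exact h1.trans (mul_le_mul_of_nonneg_right (le_max_left _ _) (norm_nonneg _))
  have hg : ∀ x y, |g x - g y| ≤ L * ‖x - y‖ := by
    intro x y
    have h1 := hK2.dist_le_mul x y
    rw [Real.dist_eq, dist_eq_norm] at h1
    exact h1.trans (mul_le_mul_of_nonneg_right (le_max_right _ _) (norm_nonneg _))
  have hcl : IsClosed (T (Sg f g)) := (hT.compact _ hK).isClosed
  rw [← hcl.closure_eq, Metric.mem_closure_iff]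
  intro ε hε
  obtain ⟨η, h0, h1, h2, h3⟩ : ∃ η : ℝ, 0 < η ∧ η < 1 ∧ 2 * η < ε ∧ 2 * L * η < ε := by
    have hL1 : 0 < L + 1 := by linarith
    refine ⟨min (1 / 2) (ε / (4 * (L + 1))), ?_, ?_, ?_, ?_⟩
    · apply lt_min <;> positivity
    · exact (min_le_left _ _).trans_lt (by norm_num)
    · have h1 : min (1 / 2) (ε / (4 * (L + 1))) ≤ ε / (4 * (L + 1)) := min_le_right _ _
      have h2 : 0 < min (1 / 2) (ε / (4 * (L + 1))) := by apply lt_min <;> positivity
      rw [le_div_iff₀ (by positivity)] at h1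
      nlinarith [mul_nonneg hL h2.le]
    · have h1 : min (1 / 2) (ε / (4 * (L + 1))) ≤ ε / (4 * (L + 1)) := min_le_right _ _
      have h2 : 0 < min (1 / 2) (ε / (4 * (L + 1))) := by apply lt_min <;> positivity
      rw [le_div_iff₀ (by positivity)] at h1
      nlinarith [mul_nonneg hL h2.le]
  have hy : ‖(1 - η) • x‖ < 2 := by
    rw [norm_smul, Real.norm_of_nonneg (by linarith)]
    nlinarith [norm_nonneg x]
  have hxy : ‖x - (1 - η) • x‖ ≤ 2 * η := by
    have : x - (1 - η) • x = η • x := by rw [sub_smul, one_smul]; abel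
    rw [this, norm_smul, Real.norm_of_nonneg h0.le]
    nlinarith
  refine ⟨_, stein_aux1 hC d W T hW hT f g hK L hL hf hg ((1 - η) • x) hy (hpos _ hy.le), ?_⟩
  rw [Prod.dist_eq, max_lt_iff]
  constructor
  · change dist x ((1 - η) • x) < ε
    rw [dist_eq_norm]
    linarith
  · change dist ((f x + g x) / 2) ((f ((1 - η) • x) + g ((1 - η) • x)) / 2) < ε
    rw [Real.dist_eq]
    have e1 := abs_le.1 (hf x ((1 - η) • x))
    have e2 := abs_le.1 (hg x ((1 - η) • x))
    have e3 : L * ‖x - (1 - η) • x‖ ≤ L * (2 * η) := mul_le_mul_of_nonneg_left hxy hL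
    rw [abs_lt]
    constructor <;> nlinarith [e1.1, e1.2, e2.1, e2.2]

end Pool.Agent.H895R2.SY
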