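import Mathlib
import Pool.Agent.H895R2.SY.Defs

/-!
# Strict monotonicity of the intrinsic volume (task STRICT, helper227)
-/

set_option autoImplicit false

namespace Pool.Agent.H895R2.SY

open MeasureTheory Module Set Filter Topology Metric
open scoped ENNReal NNReal
open Pool.Agent.Results.MP_b62b68_gt.NoSymmetrization

/-- the composed projection as a continuous linear map -/
noncomputable def STRICT_B {n d : ℕ} (hd : d ≤ n) (Φ : X d × ℝ →ₗ[ℝ] E n) (g : O n) :
    X d × ℝ →L[ℝ] X d := (A n d hd g) ∘L (LinearMap.toContinuousLinearMap Φ)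

theorem STRICT_B_apply {n d : ℕ} (hd : d ≤ n) (Φ : X d × ℝ →ₗ[ℝ] E n) (g : O n) (x : X d × ℝ) :
    STRICT_B hd Φ g x = A n d hd g (Φ x) := rfl

theorem STRICT_B_cont {n d : ℕ} (hd : d ≤ n) (Φ : X d × ℝ →ₗ[ℝ] E n) :
    Continuous (STRICT_B hd Φ) := by
  unfold STRICT_B
  exact (A_continuous hd).clm_comp continuous_const

theorem STRICT_image {n d : ℕ} (hd : d ≤ n) (Φ : X d × ℝ →ₗ[ℝ] E n) (g : O n)
    (S : Set (X d × ℝ)) : A n d hd g '' (Φ '' S) = STRICT_B hd Φ g '' S := by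
  rw [Set.image_image]; rfl

theorem STRICT_surj {n d : ℕ} (hd : d ≤ n) (Φ : X d × ℝ →ₗ[ℝ] E n) (g₀ : O n)
    (h : Function.Surjective (STRICT_B hd Φ g₀)) :
    ∀ᶠ g in 𝓝 g₀, Function.Surjective (STRICT_B hd Φ g) := by
  obtain ⟨R, hR⟩ := LinearMap.exists_rightInverse_of_surjective
    (STRICT_B hd Φ g₀ : X d × ℝ →ₗ[ℝ] X d) (LinearMap.range_eq_top.mpr h)
  set Rc : X d →L[ℝ] X d × ℝ := LinearMap.toContinuousLinearMap R with hRc
  have hcont : Continuous fun g : O n => ((STRICT_B hd Φ g) ∘L Rc).det :=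
    ContinuousLinearMap.continuous_det.comp ((STRICT_B_cont hd Φ).clm_comp continuous_const)
  have h0 : ((STRICT_B hd Φ g₀) ∘L Rc).det ≠ 0 := by
    have : (STRICT_B hd Φ g₀) ∘L Rc = ContinuousLinearMap.id ℝ (X d) := by
      ext1 x
      exact congrArg (fun f : X d →ₗ[ℝ] X d => f x) hR
    rw [this]
    simp [ContinuousLinearMap.det]
  filter_upwards [hcont.continuousAt.eventually_ne h0] with g hg
  have h2 : LinearMap.det (((STRICT_B hd Φ g) ∘L Rc : X d →L[ℝ] X d) : X d →ₗ[ℝ] X d) ≠ 0 := hg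
  intro y
  obtain ⟨x, hx⟩ := (LinearMap.equivOfDetNeZero _ h2).surjective y
  exact ⟨Rc x, hx⟩

theorem STRICT_sep {n d : ℕ} (hd : d ≤ n) (Φ : X d × ℝ →ₗ[ℝ] E n) (g₀ : O n)
    (K : Set (X d × ℝ)) (hK : IsCompact K) (z : X d × ℝ)
    (h : STRICT_B hd Φ g₀ z ∉ STRICT_B hd Φ g₀ '' K) :
    ∀ᶠ g in 𝓝 g₀, STRICT_B hd Φ g z ∉ STRICT_B hd Φ g '' K := by
  have h1 : ∀ᶠ g in 𝓝 g₀, ∀ x ∈ K, STRICT_B hd Φ g x ≠ STRICT_B hd Φ g z := by
    apply hK.eventually_forall_of_forall_eventually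
    intro x hx
    have hc1 : Continuous fun q : O n × (X d × ℝ) => STRICT_B hd Φ q.1 q.2 :=
      ((STRICT_B_cont hd Φ).comp continuous_fst).clm_apply continuous_snd
    have hc2 : Continuous fun q : O n × (X d × ℝ) => STRICT_B hd Φ q.1 z :=
      ((STRICT_B_cont hd Φ).comp continuous_fst).clm_apply continuous_const
    exact (isOpen_ne_fun hc1 hc2).mem_nhds (fun he => h ⟨x, hx, he⟩)
  filter_upwards [h1] with g hg
  rintro ⟨x, hx, he⟩
  exact hg x hx he

theorem STRICT_vol {n d : ℕ} (hd : d ≤ n) (Φ : X d × ℝ →ₗ[ℝ] E n) (g : O n)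
    (K L : Set (X d × ℝ)) (hK : IsCompact K) (hKL : K ⊆ L) (z : X d × ℝ) (hz : z ∈ interior L)
    (hs : Function.Surjective (STRICT_B hd Φ g))
    (h : STRICT_B hd Φ g z ∉ STRICT_B hd Φ g '' K) :
    volume (STRICT_B hd Φ g '' K) < volume (STRICT_B hd Φ g '' L) := by
  have hKc : IsCompact (STRICT_B hd Φ g '' K) := hK.image (STRICT_B hd Φ g).continuous
  have hopen : IsOpen (STRICT_B hd Φ g '' interior L \ STRICT_B hd Φ g '' K) :=
    ((STRICT_B hd Φ g).isOpenMap hs _ isOpen_interior).sdiff hKc.isClosed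
  have hpos : 0 < volume (STRICT_B hd Φ g '' interior L \ STRICT_B hd Φ g '' K) :=
    hopen.measure_pos volume ⟨_, ⟨z, hz, rfl⟩, h⟩
  have hsub : STRICT_B hd Φ g '' K ∪ (STRICT_B hd Φ g '' interior L \ STRICT_B hd Φ g '' K) ⊆
      STRICT_B hd Φ g '' L :=
    Set.union_subset (Set.image_mono hKL)
      (Set.sdiff_subset.trans (Set.image_mono interior_subset))
  calc volume (STRICT_B hd Φ g '' K)
      < volume (STRICT_B hd Φ g '' K) +
          volume (STRICT_B hd Φ g '' interior L \ STRICT_B hd Φ g '' K) :=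
        ENNReal.lt_add_right hKc.measure_lt_top.ne hpos.ne'
    _ = volume (STRICT_B hd Φ g '' K ∪
          (STRICT_B hd Φ g '' interior L \ STRICT_B hd Φ g '' K)) :=
        (measure_union disjoint_sdiff_self_right hopen.measurableSet).symm
    _ ≤ volume (STRICT_B hd Φ g '' L) := measure_mono hsub

theorem t_STRICT (h : S_SEP) : S_STRICT := by
  intro n d hd h1 Φ hΦ K L hK hL hLi hKL hV
  by_contra hne
  have hex : ∃ p ∈ L, p ∉ K := by
    by_contra hcon
    push Not at hcon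
    exact hne (Set.Subset.antisymm hKL hcon)
  obtain ⟨p, hpL, hpK⟩ := hex
  obtain ⟨g₀, hsurj, hsep⟩ := h n d hd h1 Φ hΦ K p hK.1 hK.2.1 hpK
  have hBg : ∀ g x, Bg hd Φ g x = STRICT_B hd Φ g x := fun g x => rfl
  have hsurj' : Function.Surjective (STRICT_B hd Φ g₀) := hsurj
  have hsep' : STRICT_B hd Φ g₀ p ∉ STRICT_B hd Φ g₀ '' K := hsep
  have hKc : IsClosed (STRICT_B hd Φ g₀ '' K) :=
    (hK.1.image (STRICT_B hd Φ g₀).continuous).isClosed
  have hUo : IsOpen (STRICT_B hd Φ g₀ ⁻¹' (STRICT_B hd Φ g₀ '' K)ᶜ) :=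
    hKc.isOpen_compl.preimage (STRICT_B hd Φ g₀).continuous
  have hpcl : p ∈ closure (interior L) := by
    rw [hL.2.1.closure_interior_eq_closure_of_nonempty_interior hLi]
    exact subset_closure hpL
  obtain ⟨z, hz1, hz2⟩ := mem_closure_iff.mp hpcl _ hUo hsep'
  have hev : ∀ᶠ g in 𝓝 g₀, volume (STRICT_B hd Φ g '' K) < volume (STRICT_B hd Φ g '' L) := by
    filter_upwards [STRICT_surj hd Φ g₀ hsurj', STRICT_sep hd Φ g₀ K hK.1 z hz1] with g hg1 hg2
    exact STRICT_vol hd Φ g K L hK.1 hKL z hz2 hg1 hg2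
  have hΦc : Continuous Φ := (LinearMap.toContinuousLinearMap Φ).continuous
  have hlt : ∫⁻ g, volume (A n d hd g '' (Φ '' K)) ∂(haarO n) <
      ∫⁻ g, volume (A n d hd g '' (Φ '' L)) ∂(haarO n) := by
    refine lintegral_strict_mono_of_ae_le_of_ae_lt_on
      (measurable_vol hd (hL.1.image hΦc)).aemeasurable
      (lint_lt_top hd (hK.1.image hΦc).isBounded).ne ?_
      (s := {g | volume (STRICT_B hd Φ g '' K) < volume (STRICT_B hd Φ g '' L)}) ?_ ?_
    · exact Eventually.of_forall fun g => measure_mono (Set.image_mono (Set.image_mono hKL))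
    · exact (Measure.measure_pos_of_mem_nhds (haarO n) hev).ne'
    · refine Eventually.of_forall fun g hg => ?_
      rw [STRICT_image, STRICT_image]
      exact hg
  have hVlt : V n d (Φ '' K) < V n d (Φ '' L) := by
    rw [V_eq hd, V_eq hd]
    exact (ENNReal.mul_lt_mul_iff_right (const_ne_zero n d) (const_ne_top hd)).mpr hlt
  exact absurd hV (not_le.mpr hVlt)

end Pool.Agent.H895R2.SY
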