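import Pool.Agent.H895R2.SY.Defs

/-! TMAP: the symmetrization in coordinates. -/

namespace Pool.Agent.H895R2.SY

open MeasureTheory Module Set Filter Topology Metric
open scoped ENNReal NNReal
open Pool.Agent.Results.MP_b62b68_gt.NoSymmetrization

theorem tmap_inj {n d : ℕ} {Φ : X d × ℝ →ₗ[ℝ] E n} (h : Iso Φ) : Function.Injective Φ := by
  rw [← LinearMap.ker_eq_bot, LinearMap.ker_eq_bot']
  rintro ⟨x, s⟩ h0
  have h1 := h x s
  rw [h0, norm_zero] at h1
  have h2 : ‖x‖ ^ 2 = 0 := by nlinarith [sq_nonneg ‖x‖, sq_nonneg s]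
  have h3 : s ^ 2 = 0 := by nlinarith [sq_nonneg ‖x‖, sq_nonneg s]
  have h4 : x = 0 := by simpa using h2
  have h5 : s = 0 := by simpa using h3
  rw [h4, h5]
  rfl

theorem tmap_range {n d : ℕ} {H : Submodule ℝ (E n)} {Φ : X d × ℝ →ₗ[ℝ] E n}
    {D : Set (E n) → Set (E n)} (hrefl : ∀ x s, H.reflection (Φ (x, s)) = Φ (x, -s))
    (hD : Ext H d D) {S : Set (X d × ℝ)} (hS : NC S) : D (Φ '' S) ⊆ range Φ := by
  obtain ⟨h1, h2, h3⟩ := hS
  obtain ⟨M, hM⟩ := h1.isBounded.subset_closedBall (0 : X d × ℝ)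
  have hne : (closedBall (0 : X d × ℝ) M).Nonempty := h3.mono hM
  have hB : Φ '' closedBall (0 : X d × ℝ) M ∈ nonemptyCompactConvex n :=
    image_NC Φ (isCompact_closedBall _ _) (convex_closedBall _ _) hne
  have hinv : D (Φ '' closedBall (0 : X d × ℝ) M) = Φ '' closedBall (0 : X d × ℝ) M := by
    refine hD.inv _ hB ?_
    rintro _ ⟨⟨x, s⟩, hx, rfl⟩
    rw [hrefl]
    refine ⟨(x, -s), ?_, rfl⟩
    rw [mem_closedBall_zero_iff] at hx ⊢
    rw [Prod.norm_mk] at hx ⊢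
    rwa [norm_neg]
  have hsub := hD.mono _ (image_NC Φ h1 h2 h3) _ hB (Set.image_mono hM)
  rw [hinv] at hsub
  exact hsub.trans (Set.image_subset_range _ _)

theorem t_TMAP : S_TMAP := by
  intro n d H Φ D hIso hrefl hD
  have hinj := tmap_inj hIso
  have hcl : IsClosedEmbedding Φ :=
    LinearMap.isClosedEmbedding_of_injective (LinearMap.ker_eq_bot.2 hinj)
  have hNC : ∀ S, NC S → Φ '' S ∈ nonemptyCompactConvex n :=
    fun S hS => image_NC Φ hS.1 hS.2.1 hS.2.2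
  refine ⟨?_, ?_, ?_, ?_, ?_, ?_⟩
  · intro S hS
    exact hcl.isCompact_preimage (hD.compact _ (hNC S hS))
  · intro S hS
    exact (hD.convex _ (hNC S hS)).linear_preimage Φ
  · intro S hS x s hx
    have h1 := hD.symm _ (hNC S hS) _ hx
    rw [hrefl] at h1
    exact h1
  · intro S S' hS hS' hsub
    exact Set.preimage_mono (hD.mono _ (hNC S hS) _ (hNC S' hS') (Set.image_mono hsub))
  · intro S hS
    show V n d (Φ '' (Φ ⁻¹' D (Φ '' S))) = V n d (Φ '' S)
    rw [Set.image_preimage_eq_of_subset (tmap_range hrefl hD hS)]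
    exact hD.pres _ (hNC S hS)
  · intro S hS hsy
    show Φ ⁻¹' D (Φ '' S) = S
    rw [hD.inv _ (hNC S hS), Set.preimage_image_eq _ hinj]
    rintro _ ⟨⟨x, s⟩, hx, rfl⟩
    rw [hrefl]
    exact ⟨(x, -s), hsy x s hx, rfl⟩

end Pool.Agent.H895R2.SY
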