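import Pool.Agent.H895R2.SY.Defs

set_option autoImplicit false

namespace Pool.Agent.H895R2.SY

open MeasureTheory Module Set Filter Topology Metric
open scoped ENNReal NNReal

theorem trl_adm {d : ℕ} {l : X d → ℝ} (hl : Adm l) (t : ℝ) : Adm (fun x => l x + t) := by
  refine ⟨?_, ?_⟩
  · exact hl.conc.add_const t
  · obtain ⟨K, hK⟩ := hl.lip
    refine ⟨K, LipschitzWith.of_dist_le_mul fun x y => ?_⟩
    rw [dist_add_right]
    exact hK.dist_le_mul x y

theorem trl_seg {d : ℕ} {S : Set (X d × ℝ)} (hS : Convex ℝ S) (x : X d) (a s : ℝ) (ha : 0 < a)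
    (h1 : (x, a) ∈ S) (h2 : (x, -a) ∈ S) (h3 : -a ≤ s) (h4 : s ≤ a) : (x, s) ∈ S := by
  have h5 := hS h1 h2 (a := (a + s) / (2 * a)) (b := (a - s) / (2 * a))
    (div_nonneg (by linarith) (by linarith)) (div_nonneg (by linarith) (by linarith))
    (by field_simp; ring)
  convert h5 using 1
  ext1
  · show x = ((a + s) / (2 * a)) • x + ((a - s) / (2 * a)) • x
    rw [← add_smul]
    have : (a + s) / (2 * a) + (a - s) / (2 * a) = 1 := by field_simp; ring
    rw [this, one_smul]
  · show s = ((a + s) / (2 * a)) * a + ((a - s) / (2 * a)) * (-a)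
    field_simp
    ring

theorem t_TRL (hS : S_STEIN) (hN : S_SGNC) (hI : S_SGINT) : S_TRL := by
  intro d W T hW hT l hl hpos t
  have hpair : Pair (fun x => l x + t) (fun x => l x - t) := by
    refine ⟨trl_adm hl t, ?_, fun x hx => ?_⟩
    · have := trl_adm hl (-t)
      simpa only [← sub_eq_add_neg] using this
    · have := hpos x hx
      show 0 ≤ l x + t + (l x - t)
      linarith
  have hpair' : Pair l l := ⟨hl, hl, fun x hx => by have := hpos x hx; linarith⟩
  set K := Sg (fun x => l x + t) (fun x => l x - t) with hK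
  have hKN : NC K := hN d _ _ hpair
  have hLN : NC (Sg l l) := hN d _ _ hpair'
  have himg : (fun p : X d × ℝ => (p.1, p.2 + t)) '' (Sg l l) = K := by
    ext ⟨x, s⟩
    constructor
    · rintro ⟨⟨y, r⟩, ⟨h1, h2, h3⟩, h4⟩
      have h5 : y = x := congrArg Prod.fst h4
      have h6 : r + t = s := congrArg Prod.snd h4
      subst h5
      subst h6
      refine ⟨h1, ?_, ?_⟩
      · show -(l y - t) ≤ r + t
        have : - l y ≤ r := h2
        linarith
      · show r + t ≤ l y + t
        have : r ≤ l y := h3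
        linarith
    · rintro ⟨h1, h2, h3⟩
      have h2' : -(l x - t) ≤ s := h2
      have h3' : s ≤ l x + t := h3
      refine ⟨(x, s - t), ⟨h1, ?_, ?_⟩, ?_⟩
      · show - l x ≤ s - t
        linarith
      · show s - t ≤ l x
        linarith
      · simp
  have hWK : W K = W (Sg l l) := by
    rw [← himg]
    exact hW.trans _ t
  have hsub : Sg l l ⊆ T K := by
    rintro ⟨x, s⟩ ⟨h1, h2, h3⟩
    have h4 := hS d W T hW hT _ _ hpair (fun x hx => by
      have := hpos x hx
      show 0 < l x + t + (l x - t)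
      linarith) x h1
    have h5 : ((l x + t) + (l x - t)) / 2 = l x := by ring
    have h6 : (x, l x) ∈ T K := by
      rw [← h5]
      exact h4
    exact trl_seg (hT.convex K hKN) x (l x) s (hpos x h1) h6 (hT.symm K hKN _ _ h6) h2 h3
  have hTN : NC (T K) := ⟨hT.compact K hKN, hT.convex K hKN, hLN.2.2.mono hsub⟩
  have hint : (interior (T K)).Nonempty := by
    have h0 : 0 < l 0 + l 0 := by
      have := hpos 0 (by rw [norm_zero]; norm_num)
      linarith
    exact (hI d l l hpair' h0).mono (interior_mono hsub)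
  exact (hW.strict (Sg l l) (T K) hLN hTN hint hsub (by rw [hT.pres K hKN, hWK])).symm

end Pool.Agent.H895R2.SY
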