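import Pool.Agent.H895R2.SY.Defs

/-! Tasks VTR and ROT: `V` is invariant under translations and rotations. -/

namespace Pool.Agent.H895R2.SY

open MeasureTheory Module Set Filter Topology Metric
open scoped ENNReal NNReal
open Pool.Agent.Results.MP_b62b68_gt.NoSymmetrization

theorem t_VTR : S_VTR := by
  intro n j hj v K
  rw [V_eq hj, V_eq hj]
  congr 1
  apply lintegral_congr
  intro g
  have h1 : A n j hj g '' ((fun x => x + v) '' K) =
      (fun y => y + A n j hj g v) '' (A n j hj g '' K) := by
    rw [image_image, image_image]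
    apply image_congr
    intro x _
    rw [map_add]
  rw [h1, image_add_right, measure_preimage_add_right]

/-- the matrix of the inverse of `U` -/
noncomputable def VTR_M {n : ℕ} (U : E n ≃ₗᵢ[ℝ] E n) : Matrix (Fin n) (Fin n) ℝ :=
  Matrix.of fun i k => U.symm (EuclideanSpace.single k 1) i

theorem VTR_mem {n : ℕ} (U : E n ≃ₗᵢ[ℝ] E n) : VTR_M U ∈ Matrix.orthogonalGroup (Fin n) ℝ := by
  rw [Matrix.mem_orthogonalGroup_iff']
  ext k l
  rw [Matrix.mul_apply, Matrix.one_apply]
  have h1 : inner ℝ (U.symm (EuclideanSpace.single k (1 : ℝ)))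
      (U.symm (EuclideanSpace.single l (1 : ℝ))) = if k = l then (1 : ℝ) else 0 := by
    rw [LinearIsometryEquiv.inner_map_map]
    rw [EuclideanSpace.inner_single_left]
    simp
  rw [← h1, PiLp.inner_apply]
  apply Finset.sum_congr rfl
  intro i _
  simp [VTR_M, mul_comm]

theorem VTR_col {n : ℕ} (U : E n ≃ₗᵢ[ℝ] E n) (g : O n) (k : Fin n) :
    col ((⟨VTR_M U, VTR_mem U⟩ : O n) * g) k = U.symm (col g k) := by
  have h1 : col g k = ∑ l, g.1 l k • (EuclideanSpace.single l (1 : ℝ) : E n) := by
    ext i
    simp [col, Finset.sum_apply, Pi.single_apply]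
  rw [h1, map_sum]
  simp only [map_smul]
  ext i
  change (VTR_M U * g.1) i k = _
  rw [Matrix.mul_apply]
  simp [VTR_M, mul_comm]

theorem t_ROT : S_ROT := by
  intro n j hj U K
  rw [V_eq hj, V_eq hj]
  congr 1
  rw [← lintegral_mul_left_eq_self (μ := haarO n) (fun g => volume (A n j hj g '' K))
    (⟨VTR_M U, VTR_mem U⟩ : O n)]
  apply lintegral_congr
  intro g
  congr 1
  rw [image_image]
  apply image_congr
  intro x _
  ext k
  rw [A_apply, A_apply, VTR_col]
  have h := LinearIsometryEquiv.inner_map_map U (U.symm (col g (Fin.castLE hj k))) x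
  rw [LinearIsometryEquiv.apply_symm_apply] at h
  exact h

end Pool.Agent.H895R2.SY
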