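import Pool.Agent.H895R2.SY.Defs

set_option linter.unusedVariables false

namespace Pool.Agent.H895R2.SY

open MeasureTheory Module Set Filter Topology Metric
open scoped ENNReal NNReal
open Pool.Agent.Results.MP_b62b68_gt.NoSymmetrization

/-- conclusion of part I -/
theorem t_WW (h1 : S_VTR) (h2 : S_STRICT) (h3 : S_GD) : S_WW := by
  intro n m hmn Φ hΦ
  refine ⟨?_, ?_, ?_, ?_, ?_⟩
  · intro K L h
    exact V_mono (image_mono h)
  · intro K hK
    refine V_lt_top hmn ?_
    exact (LinearMap.toContinuousLinearMap Φ).lipschitz.isBounded_image hK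
  · intro K t
    have e : Φ '' ((fun p : X (m + 1) × ℝ => (p.1, p.2 + t)) '' K) =
        (fun x => x + Φ (0, t)) '' (Φ '' K) := by
      rw [image_image, image_image]
      refine image_congr fun p _ => ?_
      rw [← map_add]
      congr 1
      ext <;> simp
    simp only [e]
    exact h1 n (m + 1) hmn _ _
  · exact h2 n (m + 1) hmn (by omega) Φ hΦ
  · exact h3 n m hmn Φ hΦ

end Pool.Agent.H895R2.SY
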