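import Pool.Agent.H895R2.SY.T_SGNC
import Pool.Agent.H895R2.SY.T_SGINT
import Pool.Agent.H895R2.SY.T_PHADM
import Pool.Agent.H895R2.SY.T_COL
import Pool.Agent.H895R2.SY.T_STEIN
import Pool.Agent.H895R2.SY.T_TRL
import Pool.Agent.H895R2.SY.T_INC
import Pool.Agent.H895R2.SY.T_CDEF
import Pool.Agent.H895R2.SY.T_CLIP
import Pool.Agent.H895R2.SY.T_ABS
import Pool.Agent.H895R2.SY.T_ARITH
import Pool.Agent.H895R2.SY.T_ARF
import Pool.Agent.H895R2.SY.T_POL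
import Pool.Agent.H895R2.SY.T_RAY
import Pool.Agent.H895R2.SY.T_MEAS
import Pool.Agent.H895R2.SY.T_R12
import Pool.Agent.H895R2.SY.T_RAYC
import Pool.Agent.H895R2.SY.T_ANA
import Pool.Agent.H895R2.SY.T_COORD
import Pool.Agent.H895R2.SY.T_VTR
import Pool.Agent.H895R2.SY.T_ISOb
import Pool.Agent.H895R2.SY.T_GRV
import Pool.Agent.H895R2.SY.T_AVG
import Pool.Agent.H895R2.SY.T_JM
import Pool.Agent.H895R2.SY.T_PIF
import Pool.Agent.H895R2.SY.T_PIJ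
import Pool.Agent.H895R2.SY.T_MAX1
import Pool.Agent.H895R2.SY.T_SL
import Pool.Agent.H895R2.SY.T_FUB
import Pool.Agent.H895R2.SY.T_PVB
import Pool.Agent.H895R2.SY.T_PV
import Pool.Agent.H895R2.SY.T_GD
import Pool.Agent.H895R2.SY.T_SEP
import Pool.Agent.H895R2.SY.T_STRICT
import Pool.Agent.H895R2.SY.T_WW
import Pool.Agent.H895R2.SY.T_TMAP
import Pool.Agent.H895R2.SY.T_MAIN

namespace Pool.Agent.H895R2.SY

open Module
open Pool.Agent.Results.MP_b62b68_gt.NoSymmetrization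

theorem p_ww : S_WW := t_WW t_VTR (t_STRICT t_SEP)
  (t_GD (t_AVG (t_ISOb t_ROT) t_GRV) t_JM (t_PV t_PIF t_PIJ (t_PVB t_FUB (t_SL t_MAX1) t_SGNC)))

theorem p_stein : S_STEIN := t_STEIN t_COL t_SGNC

theorem p_abs : S_ABS := t_ABS p_stein
  (t_INC (t_TRL p_stein t_SGNC t_SGINT) t_PHADM t_PADM t_SGNC) t_CDEF t_CLIP t_PHADM t_PADM t_SGNC

theorem p_ana : S_ANA := t_ANA t_ARITH t_ARF t_MEAS (t_R12 t_POL) (t_RAYC t_RAY t_POL)

theorem p_main : S_MAIN := t_MAIN t_COORD t_TMAP p_ww p_abs p_ana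

theorem all_result (n i j : ℕ) (hi : i < n) (hj : 2 ≤ j) (hjn : j < n)
    (H : Submodule ℝ (E n)) (hH : finrank ℝ H = i) (𝓑 : Set (Set (E n)))
    (h𝓑 : 𝓑 = compactConvex n ∨ 𝓑 = nonemptyCompactConvex n ∨ 𝓑 = convexBodies n) :
    ¬ ∃ D : Set (E n) → Set (E n), GoodSymmetrization 𝓑 H j D :=
  all_of_main p_main n i j hi hj hjn H hH 𝓑 h𝓑

end Pool.Agent.H895R2.SY
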