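import Pool.Agent.H895R2.SY.Defs

/-! Task PIJ (helper133): the Jacobian of the factorised map. -/

namespace Pool.Agent.H895R2.SY

open MeasureTheory Module Set Filter Topology Metric
open scoped ENNReal NNReal

theorem t_PIJ : S_PIJ := by
  intro m B u lam tau B' hu hB ℓ
  let φ : Module.Dual ℝ (X (m + 1)) :=
    lam • (ℓ : X (m + 1) →ₗ[ℝ] ℝ) - (tau + 1) • (innerSL ℝ u : X (m + 1) →ₗ[ℝ] ℝ)
  have hcomp : B ∘ₗ LinearMap.prod LinearMap.id (ℓ : X (m + 1) →ₗ[ℝ] ℝ) =
      B' ∘ₗ LinearMap.transvection φ u := by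
    ext1 x
    simp only [LinearMap.comp_apply, LinearMap.prod_apply,
      ContinuousLinearMap.coe_coe, hB]
    rfl
  have hφu : φ u = lam * ℓ u - (tau + 1) := by
    have h1 : φ u = lam * ℓ u - (tau + 1) * inner ℝ u u := rfl
    rw [h1, real_inner_self_eq_norm_sq, hu]
    ring
  unfold JJ
  rw [hcomp, LinearMap.det_comp, LinearMap.transvection.det, hφu, abs_mul]
  congr 2
  ring

end Pool.Agent.H895R2.SY
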