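import Pool.Agent.H895R2.SY.Defs

/-! POL: polar coordinates for the Lebesgue integral of nonnegative functions. -/

namespace Pool.Agent.H895R2.SY

open MeasureTheory Module Set Filter Topology Metric
open scoped ENNReal NNReal

/-- polar coordinates on the whole space -/
theorem pol_full (m : ℕ) (f : X (m + 1) → ℝ≥0∞) (hf : Measurable f) :
    ∫⁻ x, f x = ∫⁻ θ : sphere (0 : X (m + 1)) 1, (∫⁻ ρ in Ioi (0 : ℝ),
      ENNReal.ofReal (ρ ^ m) * f (ρ • (θ : X (m + 1)))) ∂(volume : Measure (X (m + 1))).toSphere := by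
  have hdim : finrank ℝ (X (m + 1)) - 1 = m := by simp
  have hg : Measurable fun p : sphere (0 : X (m + 1)) 1 × Ioi (0 : ℝ) =>
      f (p.2.1 • (p.1 : X (m + 1))) := by
    refine hf.comp ?_
    fun_prop
  have hmp := (volume : Measure (X (m + 1))).measurePreserving_homeomorphUnitSphereProd
  rw [hdim] at hmp
  calc ∫⁻ x, f x = ∫⁻ x in ({0}ᶜ : Set (X (m + 1))), f x := by
        rw [restrict_compl_singleton]
    _ = ∫⁻ x : ({0}ᶜ : Set (X (m + 1))), f x.1 ∂((volume : Measure (X (m + 1))).comap (↑)) :=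
        (lintegral_subtype_comap (measurableSet_singleton _).compl f).symm
    _ = ∫⁻ x : ({0}ᶜ : Set (X (m + 1))), (fun p : sphere (0 : X (m + 1)) 1 × Ioi (0 : ℝ) =>
          f (p.2.1 • (p.1 : X (m + 1)))) (homeomorphUnitSphereProd (X (m + 1)) x)
          ∂((volume : Measure (X (m + 1))).comap (↑)) := by
        refine lintegral_congr fun x => ?_
        have h1 := (homeomorphUnitSphereProd (X (m + 1))).symm_apply_apply x
        have h2 := congrArg Subtype.val h1
        rw [homeomorphUnitSphereProd_symm_apply_coe] at h2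
        show f x.1 = f _
        rw [h2]
    _ = ∫⁻ p, f (p.2.1 • (p.1 : X (m + 1)))
          ∂((volume : Measure (X (m + 1))).toSphere.prod (Measure.volumeIoiPow m)) :=
        hmp.lintegral_comp_emb (Homeomorph.measurableEmbedding _)
          (fun p : sphere (0 : X (m + 1)) 1 × Ioi (0 : ℝ) => f (p.2.1 • (p.1 : X (m + 1))))
    _ = ∫⁻ θ : sphere (0 : X (m + 1)) 1, ∫⁻ ρ : Ioi (0 : ℝ), f (ρ.1 • (θ : X (m + 1)))
          ∂(Measure.volumeIoiPow m) ∂(volume : Measure (X (m + 1))).toSphere :=
        lintegral_prod _ hg.aemeasurable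
    _ = _ := by
        refine lintegral_congr fun θ => ?_
        have h3 : Measurable fun ρ : Ioi (0 : ℝ) => f (ρ.1 • (θ : X (m + 1))) := by
          refine hf.comp ?_
          fun_prop
        rw [Measure.volumeIoiPow, lintegral_withDensity_eq_lintegral_mul _ _ h3]
        · exact lintegral_subtype_comap measurableSet_Ioi
            fun ρ => ENNReal.ofReal (ρ ^ m) * f (ρ • (θ : X (m + 1)))
        · fun_prop

theorem t_POL : S_POL := by
  intro m u hu
  rw [← lintegral_indicator measurableSet_ball, pol_full m _ (hu.indicator measurableSet_ball)]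
  refine lintegral_congr fun θ => ?_
  have hθ : ‖(θ : X (m + 1))‖ = 1 := by simp
  have h1 : (Ioo (0 : ℝ) 2) = Iio 2 ∩ Ioi 0 := by
    ext x
    simp [and_comm]
  rw [h1, ← Measure.restrict_restrict measurableSet_Iio, ← lintegral_indicator measurableSet_Iio]
  refine setLIntegral_congr_fun measurableSet_Ioi fun ρ hρ => ?_
  have hρ' : (0 : ℝ) < ρ := hρ
  have h2 : ρ • (θ : X (m + 1)) ∈ ball (0 : X (m + 1)) 2 ↔ ρ ∈ Iio (2 : ℝ) := by
    rw [mem_ball_zero_iff, norm_smul, hθ, mul_one, Real.norm_of_nonneg hρ'.le, mem_Iio]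
  by_cases h3 : ρ ∈ Iio (2 : ℝ)
  · simp only [indicator_of_mem h3, indicator_of_mem (h2.2 h3)]
  · simp only [indicator_of_notMem h3, indicator_of_notMem (fun h => h3 (h2.1 h)), mul_zero]

end Pool.Agent.H895R2.SY
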