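import Pool.Agent.H895R2.SY.Defs

/-! Task SGNC: regions between graphs are compact and convex. -/

namespace Pool.Agent.H895R2.SY

open MeasureTheory Module Set Filter Topology Metric
open scoped ENNReal NNReal
open Pool.Agent.Results.MP_b62b68_gt.NoSymmetrization

theorem sgnc_cont {d : ℕ} {f : X d → ℝ} (hf : Adm f) : Continuous f := by
  obtain ⟨K, hK⟩ := hf.lip
  exact hK.continuous

/-- SGNC -/
theorem t_SGNC : S_SGNC := by
  intro d f g h
  have hf := sgnc_cont h.left
  have hg := sgnc_cont h.right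
  refine ⟨?_, ?_, ?_⟩
  · have hK : IsCompact (closedBall (0 : X d) 2) := isCompact_closedBall _ _
    obtain ⟨Cf, hCf⟩ := hK.exists_bound_of_continuousOn hf.continuousOn
    obtain ⟨Cg, hCg⟩ := hK.exists_bound_of_continuousOn hg.continuousOn
    refine (hK.prod (isCompact_Icc (a := -Cg) (b := Cf))).of_isClosed_subset ?_ ?_
    · have h1 : IsClosed {p : X d × ℝ | ‖p.1‖ ≤ 2} :=
        isClosed_le (continuous_norm.comp continuous_fst) continuous_const
      have h2 : IsClosed {p : X d × ℝ | -g p.1 ≤ p.2} :=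
        isClosed_le (hg.comp continuous_fst).neg continuous_snd
      have h3 : IsClosed {p : X d × ℝ | p.2 ≤ f p.1} :=
        isClosed_le continuous_snd (hf.comp continuous_fst)
      exact h1.inter (h2.inter h3)
    · rintro ⟨x, s⟩ ⟨h1, h2, h3⟩
      have hx : x ∈ closedBall (0 : X d) 2 := mem_closedBall_zero_iff.2 h1
      have h4 := hCf x hx
      have h5 := hCg x hx
      rw [Real.norm_eq_abs] at h4 h5
      refine ⟨hx, ?_, ?_⟩
      · show -Cg ≤ s
        have h6 : -g x ≤ s := h2
        linarith [le_abs_self (g x)]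
      · show s ≤ Cf
        have h6 : s ≤ f x := h3
        linarith [le_abs_self (f x)]
  · rintro ⟨x, s⟩ ⟨h1, h2, h3⟩ ⟨y, t⟩ ⟨h4, h5, h6⟩ a b ha hb hab
    have hx : x ∈ closedBall (0 : X d) 2 := mem_closedBall_zero_iff.2 h1
    have hy : y ∈ closedBall (0 : X d) 2 := mem_closedBall_zero_iff.2 h4
    have hcf := h.left.conc.2 hx hy ha hb hab
    have hcg := h.right.conc.2 hx hy ha hb hab
    simp only [smul_eq_mul] at hcf hcg
    have h2' : -g x ≤ s := h2
    have h3' : s ≤ f x := h3
    have h5' : -g y ≤ t := h5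
    have h6' : t ≤ f y := h6
    refine ⟨?_, ?_, ?_⟩
    · have h7 := (convex_closedBall (0 : X d) 2) hx hy ha hb hab
      exact mem_closedBall_zero_iff.1 h7
    · show -g (a • x + b • y) ≤ a * s + b * t
      nlinarith [mul_le_mul_of_nonneg_left h2' ha, mul_le_mul_of_nonneg_left h5' hb]
    · show a * s + b * t ≤ f (a • x + b • y)
      nlinarith [mul_le_mul_of_nonneg_left h3' ha, mul_le_mul_of_nonneg_left h6' hb]
  · refine ⟨(0, f 0), ?_, ?_, le_refl _⟩
    · show ‖(0 : X d)‖ ≤ 2
      rw [norm_zero]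
      norm_num
    · show -g 0 ≤ f 0
      have h1 := h.nonneg 0 (by rw [norm_zero]; norm_num)
      linarith

end Pool.Agent.H895R2.SY
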